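import Pool.Agent.Work.MP_f714fc_ag.Sch.Charts

/-!
# The Châtelet surfaces `y ^ 2 = a z ^ 2 + q(x, t) w ^ 2`: four affine charts

`A` a ring, `a : A` and `c : Fin 5 → A` the coefficients of the binary quartic form
`q(x, t) = c_0 t ^ 4 + c_1 x t ^ 3 + c_2 x ^ 2 t ^ 2 + c_3 x ^ 3 t + c_4 x ^ 4`.
The surface is the conic bundle `y ^ 2 = a z ^ 2 + q(x, t) w ^ 2` over `P^1`, in the
`P^2`-bundle with `x, t` of degree `(1, 0)`, `y, z` of degree `(2, 1)`, `w` of degree `(0, 1)`.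
It is a double cover of the Hirzebruch surface `F_2 = Y(A, 0)` with coordinates `x, t, z, w`.

* chart 0 (`t = z = 1`): `x 0 = x`, `y 0 = w`, `e 0 = y`, `e ^ 2 = a + q(x, 1) y ^ 2`
* chart 1 (`t = w = 1`): `x 1 = x`, `y 1 = z`, `e 1 = y`, `e ^ 2 = a y ^ 2 + q(x, 1)`
* chart 2 (`x = z = 1`): `x 2 = t`, `y 2 = w`, `e 2 = y`, `e ^ 2 = a + q(1, x) y ^ 2`
* chart 3 (`x = w = 1`): `x 3 = t`, `y 3 = z`, `e 3 = y`, `e ^ 2 = a y ^ 2 + q(1, x)`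
-/

open CategoryTheory Limits TopologicalSpace AlgebraicGeometry Opposite

attribute [-instance] CategoryTheory.catToReflQuiver

namespace Orl

open Fdim

/-- the polynomial `q(x, 1)` -/
noncomputable def qx {A : Type} [CommRing A] (c : Fin 5 → A) : Polynomial A :=
  ∑ j : Fin 5, Polynomial.C (c j) * Polynomial.X ^ (j : ℕ)

/-- the polynomial `q(1, x)` -/
noncomputable def qx' {A : Type} [CommRing A] (c : Fin 5 → A) : Polynomial A :=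
  ∑ j : Fin 5, Polynomial.C (c j) * Polynomial.X ^ (4 - (j : ℕ))

/-- four affine charts of the surface `y ^ 2 = a z ^ 2 + q(x, t) w ^ 2` -/
structure XCharts (A : CommRingCat.{0}) (a : A) (c : Fin 5 → A) {X : Scheme.{0}}
    (π : X ⟶ Spec A) where
  /-- the charts -/
  U : Fin 4 → X.Opens
  aff : ∀ i, IsAffineOpen (U i)
  cover : ⨆ i, U i = ⊤
  /-- the coordinate of the base: `x, x, 1 / x, 1 / x` -/
  x : ∀ i, Γ(X, U i)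
  /-- the second coordinate: `w / z`, `z / w`, `w / z`, `z / w` -/
  y : ∀ i, Γ(X, U i)
  /-- the third coordinate: `y / z`, `y / w`, `y / z`, `y / w` -/
  e : ∀ i, Γ(X, U i)
  /-- the coordinate rings are free over the polynomial rings, with basis `1, e` -/
  free : ∀ i, Function.Bijective fun P : MvPolynomial (Fin 2) A × MvPolynomial (Fin 2) A =>
    MvPolynomial.eval₂Hom (str π (U i)) ![x i, y i] P.1 +
      MvPolynomial.eval₂Hom (str π (U i)) ![x i, y i] P.2 * e i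
  sq0 : e 0 ^ 2 = str π (U 0) a + (qx c).eval₂ (str π (U 0)) (x 0) * y 0 ^ 2
  sq1 : e 1 ^ 2 = str π (U 1) a * y 1 ^ 2 + (qx c).eval₂ (str π (U 1)) (x 1)
  sq2 : e 2 ^ 2 = str π (U 2) a + (qx' c).eval₂ (str π (U 2)) (x 2) * y 2 ^ 2
  sq3 : e 3 ^ 2 = str π (U 3) a * y 3 ^ 2 + (qx' c).eval₂ (str π (U 3)) (x 3)
  b01 : U 0 ⊓ U 1 = X.basicOpen (y 0)
  b10 : U 0 ⊓ U 1 = X.basicOpen (y 1)
  b23 : U 2 ⊓ U 3 = X.basicOpen (y 2)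
  b32 : U 2 ⊓ U 3 = X.basicOpen (y 3)
  b02 : U 0 ⊓ U 2 = X.basicOpen (x 0)
  b20 : U 0 ⊓ U 2 = X.basicOpen (x 2)
  b13 : U 1 ⊓ U 3 = X.basicOpen (x 1)
  b31 : U 1 ⊓ U 3 = X.basicOpen (x 3)
  b03 : U 0 ⊓ U 3 = X.basicOpen (x 0 * y 0)
  b30 : U 0 ⊓ U 3 = X.basicOpen (x 3 * y 3)
  b12 : U 1 ⊓ U 2 = X.basicOpen (x 1 * y 1)
  b21 : U 1 ⊓ U 2 = X.basicOpen (x 2 * y 2)
  r01x : rO (inf_le_left : U 0 ⊓ U 1 ≤ U 0) (x 0) = rO inf_le_right (x 1)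
  r01y : rO (inf_le_left : U 0 ⊓ U 1 ≤ U 0) (y 0) * rO inf_le_right (y 1) = 1
  r01e : rO (inf_le_left : U 0 ⊓ U 1 ≤ U 0) (e 0) * rO inf_le_right (y 1) = rO inf_le_right (e 1)
  r23x : rO (inf_le_left : U 2 ⊓ U 3 ≤ U 2) (x 2) = rO inf_le_right (x 3)
  r23y : rO (inf_le_left : U 2 ⊓ U 3 ≤ U 2) (y 2) * rO inf_le_right (y 3) = 1
  r23e : rO (inf_le_left : U 2 ⊓ U 3 ≤ U 2) (e 2) * rO inf_le_right (y 3) = rO inf_le_right (e 3)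
  r02x : rO (inf_le_left : U 0 ⊓ U 2 ≤ U 0) (x 0) * rO inf_le_right (x 2) = 1
  r02y : rO (inf_le_right : U 0 ⊓ U 2 ≤ U 2) (y 2) = rO inf_le_left (x 0 ^ 2 * y 0)
  r02e : rO (inf_le_left : U 0 ⊓ U 2 ≤ U 0) (e 0) = rO inf_le_right (e 2)
  r13x : rO (inf_le_left : U 1 ⊓ U 3 ≤ U 1) (x 1) * rO inf_le_right (x 3) = 1
  r13y : rO (inf_le_left : U 1 ⊓ U 3 ≤ U 1) (y 1) = rO inf_le_left (x 1 ^ 2) * rO inf_le_right (y 3)
  r13e : rO (inf_le_left : U 1 ⊓ U 3 ≤ U 1) (e 1) = rO inf_le_left (x 1 ^ 2) * rO inf_le_right (e 3)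
  r03x : rO (inf_le_left : U 0 ⊓ U 3 ≤ U 0) (x 0) * rO inf_le_right (x 3) = 1
  r03y : rO (inf_le_left : U 0 ⊓ U 3 ≤ U 0) (x 0 ^ 2 * y 0) * rO inf_le_right (y 3) = 1
  r03e : rO (inf_le_left : U 0 ⊓ U 3 ≤ U 0) (x 0 ^ 2 * y 0) * rO inf_le_right (e 3) =
    rO inf_le_left (e 0)
  r12x : rO (inf_le_left : U 1 ⊓ U 2 ≤ U 1) (x 1) * rO inf_le_right (x 2) = 1
  r12y : rO (inf_le_left : U 1 ⊓ U 2 ≤ U 1) (y 1) * rO inf_le_right (x 2 ^ 2 * y 2) = 1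
  r12e : rO (inf_le_left : U 1 ⊓ U 2 ≤ U 1) (e 1) * rO inf_le_right (x 2 ^ 2 * y 2) =
    rO inf_le_right (e 2)

end Orl
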