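import Pool.Agent.Work.MP_a6e60d_ag.Perf.Smooth
import Pool.Agent.Work.MP_a6e60d_ag.Vb.Chat

/-!
# The ample line bundle `O(B + 3 D)` on the surface `y ^ 2 = a z ^ 2 + q(x, t) w ^ 2`

Its sections `z t`, `w t ^ 3`, `z x`, `w x ^ 3` have the loci `U 0, U 1, U 2, U 3`.
-/

open CategoryTheory Limits TopologicalSpace AlgebraicGeometry Opposite

attribute [-instance] CategoryTheory.catToReflQuiver

set_option linter.unusedSimpArgs false

namespace Orl

open Fdim Fdim.Coc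

namespace XCharts

variable {A : CommRingCat.{0}} {a : A} {c : Fin 5 → A} {X : Scheme.{0}} {π : X ⟶ Spec A}
  (Y : XCharts A a c π)

/-- the section `l j` of `C + D = B + 3 D` -/
noncomputable def sH (j : Fin 4) (i : Fin 4) : Γ(X, Y.U i) := Y.eC i j * Y.eD i j

theorem isSec_sH (j : Fin 4) : IsSec (Y.cC * Y.cD) (Y.sH j) :=
  (Y.frC.isSec j).mul (Y.frD.isSec j)

theorem basicOpen_sH (i j : Fin 4) : X.basicOpen (Y.sH j i) = Y.U i ⊓ Y.U j := by
  have hl : ∀ {V : X.Opens} (f : Γ(X, V)), V ⊓ X.basicOpen f = X.basicOpen f := fun f =>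
    inf_eq_right.2 (X.basicOpen_le f)
  have hr : ∀ {V : X.Opens} (f : Γ(X, V)), X.basicOpen f ⊓ V = X.basicOpen f := fun f =>
    inf_eq_left.2 (X.basicOpen_le f)
  have h1 : ∀ V : X.Opens, X.basicOpen (1 : Γ(X, V)) = V := fun V =>
    X.basicOpen_of_isUnit isUnit_one
  have h3 : ∀ {V : X.Opens} (f g : Γ(X, V)), X.basicOpen (f ^ 2 * g * f) = X.basicOpen (f * g) := by
    intro V f g
    rw [X.basicOpen_mul, X.basicOpen_mul, X.basicOpen_mul, X.basicOpen_pow f two_pos,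
      inf_right_comm, inf_idem]
  have h4 : ∀ {V : X.Opens} (f : Γ(X, V)), X.basicOpen (f ^ 2 * f) = X.basicOpen f := by
    intro V f
    rw [X.basicOpen_mul, X.basicOpen_pow f two_pos, inf_idem]
  match i, j with
  | 0, 0 => simp [sH, eC, eD, h1]
  | 0, 1 => simp [sH, eC, eD, h1, Y.b01]
  | 0, 2 => simp [sH, eC, eD, h1, Y.b02]
  | 0, 3 =>
    rw [Y.b03, ← h3]
    simp only [sH, eC, eD, Matrix.cons_val]
  | 1, 0 => simp [sH, eC, eD, h1, ← Y.b10, inf_comm]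
  | 1, 1 => simp [sH, eC, eD, h1]
  | 1, 2 =>
    rw [Y.b12, mul_comm]
    simp only [sH, eC, eD, Matrix.cons_val]
  | 1, 3 =>
    rw [Y.b13, ← h4 (Y.x 1)]
    simp only [sH, eC, eD, Matrix.cons_val]
  | 2, 0 =>
    rw [inf_comm, Y.b20]
    simp [sH, eC, eD]
  | 2, 1 =>
    rw [inf_comm, Y.b21, ← h3]
    simp only [sH, eC, eD, Matrix.cons_val, Matrix.cons_val_one]
  | 2, 2 => simp [sH, eC, eD, h1]
  | 2, 3 => simp [sH, eC, eD, Y.b23]
  | 3, 0 =>
    rw [inf_comm, Y.b30, mul_comm]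
    simp only [sH, eC, eD, Matrix.cons_val, Matrix.cons_val_zero]
  | 3, 1 =>
    rw [inf_comm, Y.b31, ← h4 (Y.x 3)]
    simp only [sH, eC, eD, Matrix.cons_val, Matrix.cons_val_one]
  | 3, 2 =>
    rw [inf_comm, Y.b32]
    simp [sH, eC, eD]
  | 3, 3 => simp [sH, eC, eD, h1]

/-- the section `l j` of `B + 3 D` vanishes nowhere exactly on `U j` -/
theorem locus_sH (j : Fin 4) : locF (Y.sH j) = Y.U j := by
  rw [locF]
  simp only [basicOpen_sH]
  rw [← iSup_inf_eq, Y.cover, top_inf_eq]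

/-- **ampleness** of `C + D` -/
theorem isAmpleCoc_CD : Perf.IsAmpleCoc (Y.cC * Y.cD) := by
  refine ⟨Fin 4, inferInstance, fun j => ⟨Y.sH j, Y.isSec_sH j⟩, fun j => ?_, ?_⟩
  · change IsAffineOpen (locF (Y.sH j))
    rw [locus_sH]
    exact Y.aff j
  · change ⨆ j, locF (Y.sH j) = ⊤
    simp only [locus_sH]
    exact Y.cover

theorem cC_mul_cD : Y.cC * Y.cD = Y.cB * Y.cD ^ 3 := by
  rw [← cB_mul, mul_assoc, ← pow_succ]

/-- **ampleness** of `B + 3 D` -/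
theorem isAmpleCoc_H : Perf.IsAmpleCoc (Y.cB * Y.cD ^ 3) :=
  Y.cC_mul_cD ▸ Y.isAmpleCoc_CD

end XCharts

end Orl
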