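import Pool.Agent.Work.MP_f714fc_ag.Sch.YGeom2
import Pool.Agent.Work.MP_a6e60d_ag.Sch.XCharts

/-!
# The surfaces `y ^ 2 = a z ^ 2 + q(x, t) w ^ 2`: noetherian, separated, open sets
-/

open CategoryTheory Limits TopologicalSpace AlgebraicGeometry Opposite

attribute [-instance] CategoryTheory.catToReflQuiver

namespace Orl

open Fdim

/-- every point lies in a chart -/
theorem mem_iSup_fin4 {X : Scheme.{0}} {U : Fin 4 → X.Opens} (h : ⨆ i, U i = ⊤) (x : X) :
    ∃ i, x ∈ U i := by
  have hx : x ∈ (⨆ i, U i : X.Opens) := by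
    rw [h]
    trivial
  exact Opens.mem_iSup.1 hx

namespace XCharts

variable {A : CommRingCat.{0}} {a : A} {c : Fin 5 → A} {X : Scheme.{0}} {π : X ⟶ Spec A}
  (D : XCharts A a c π)

/-! ### The rings of the charts -/

/-- the polynomial functions on a chart -/
noncomputable def ev (i : Fin 4) : MvPolynomial (Fin 2) A →+* Γ(X, D.U i) :=
  MvPolynomial.eval₂Hom (str π (D.U i)) ![D.x i, D.y i]

@[simp] theorem ev_C (i : Fin 4) (b : A) : D.ev i (MvPolynomial.C b) = str π (D.U i) b := by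
  simp [ev]

@[simp] theorem ev_X0 (i : Fin 4) : D.ev i (MvPolynomial.X 0) = D.x i := by
  simp [ev]

@[simp] theorem ev_X1 (i : Fin 4) : D.ev i (MvPolynomial.X 1) = D.y i := by
  simp [ev]

/-- every function on a chart is `P + P' e` -/
theorem exists_ev (i : Fin 4) (s : Γ(X, D.U i)) :
    ∃ P P' : MvPolynomial (Fin 2) A, s = D.ev i P + D.ev i P' * D.e i := by
  obtain ⟨⟨P, P'⟩, h⟩ := (D.free i).2 s
  exact ⟨P, P', h.symm⟩

theorem ev_injective (i : Fin 4) : Function.Injective (D.ev i) := by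
  intro P P' h
  have h1 := @(D.free i).1 (P, 0) (P', 0) (by
    have h2 : D.ev i P + D.ev i 0 * D.e i = D.ev i P' + D.ev i 0 * D.e i := by rw [h]
    exact h2)
  exact congrArg Prod.fst h1

/-- the ring of a chart is a finite algebra over the polynomial ring -/
theorem finite_ev (i : Fin 4) : (D.ev i).Finite := by
  let := (D.ev i).toAlgebra
  change Module.Finite (MvPolynomial (Fin 2) A) Γ(X, D.U i)
  refine ⟨Submodule.fg_def.2 ⟨{1, D.e i}, Set.toFinite _, ?_⟩⟩
  rw [eq_top_iff]
  intro s _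
  obtain ⟨P, P', rfl⟩ := D.exists_ev i s
  have h1 : D.ev i P + D.ev i P' * D.e i = P • (1 : Γ(X, D.U i)) + P' • D.e i := by
    rw [Algebra.smul_def, Algebra.smul_def, mul_one]
    rfl
  rw [h1]
  exact Submodule.add_mem _
    (Submodule.smul_mem _ _ (Submodule.subset_span (by simp)))
    (Submodule.smul_mem _ _ (Submodule.subset_span (by simp)))

theorem isNoetherianRing_chart [IsNoetherianRing A] (i : Fin 4) :
    IsNoetherianRing Γ(X, D.U i) := by
  let := (D.ev i).toAlgebra
  have : Module.Finite (MvPolynomial (Fin 2) A) Γ(X, D.U i) := D.finite_ev i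
  exact IsNoetherianRing.of_finite (MvPolynomial (Fin 2) A) Γ(X, D.U i)

include D in
theorem isNoetherian [IsNoetherianRing A] : IsNoetherian X := by
  refine (isNoetherian_iff_of_finite_iSup_eq_top (S := fun i => ⟨D.U i, D.aff i⟩) D.cover).2
    fun i => ?_
  exact D.isNoetherianRing_chart i

include D in
theorem isLocallyNoetherian [IsNoetherianRing A] : IsLocallyNoetherian X := by
  have := D.isNoetherian
  infer_instance

include D in
theorem compactSpace : CompactSpace X := by
  constructor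
  have h : (Set.univ : Set X) = ⋃ i, (D.U i : Set X) := by
    ext x
    obtain ⟨i, hi⟩ := mem_iSup_fin4 D.cover x
    simp only [Set.mem_univ, Set.mem_iUnion, true_iff]
    exact ⟨i, hi⟩
  rw [h]
  exact isCompact_iUnion fun i => (D.aff i).isCompact

/-! ### Intersections -/

/-- intersections of the charts are basic open subsets -/
theorem inf_basic (i j : Fin 4) :
    ∃ f : Γ(X, D.U i), D.U i ⊓ D.U j = X.basicOpen f := by
  have h11 : ∀ i, ∃ f : Γ(X, D.U i), D.U i ⊓ D.U i = X.basicOpen f := fun i =>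
    ⟨1, by rw [inf_idem, Scheme.basicOpen_of_isUnit _ isUnit_one]⟩
  fin_cases i <;> fin_cases j
  · exact h11 0
  · exact ⟨_, D.b01⟩
  · exact ⟨_, D.b02⟩
  · exact ⟨_, D.b03⟩
  · exact ⟨_, (inf_comm _ _).trans D.b10⟩
  · exact h11 1
  · exact ⟨_, D.b12⟩
  · exact ⟨_, D.b13⟩
  · exact ⟨_, (inf_comm _ _).trans D.b20⟩
  · exact ⟨_, (inf_comm _ _).trans D.b21⟩
  · exact h11 2
  · exact ⟨_, D.b23⟩
  · exact ⟨_, (inf_comm _ _).trans D.b30⟩
  · exact ⟨_, (inf_comm _ _).trans D.b31⟩
  · exact ⟨_, (inf_comm _ _).trans D.b32⟩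
  · exact h11 3

/-- the basic open subsets of the four charts -/
def Basic (U : X.Opens) : Prop :=
  ∃ (i : Fin 4) (f : Γ(X, D.U i)), U = X.basicOpen f

theorem Basic.aff {D : XCharts A a c π} {U : X.Opens} (hU : D.Basic U) : IsAffineOpen U := by
  obtain ⟨i, f, rfl⟩ := hU
  exact (D.aff i).basicOpen f

theorem Basic.inf {D : XCharts A a c π} {U V : X.Opens} (hU : D.Basic U)
    (hV : D.Basic V) : D.Basic (U ⊓ V) := by
  obtain ⟨i, f, rfl⟩ := hU
  obtain ⟨j, g, rfl⟩ := hV
  obtain ⟨a, ha⟩ := D.inf_basic i j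
  -- the restriction of `g` to the intersection of the charts
  have h1 : X.basicOpen a ≤ D.U j := by
    rw [← ha]
    exact inf_le_right
  obtain ⟨f', hf'⟩ := (D.aff i).basicOpen_basicOpen_is_basicOpen a (rO h1 g)
  refine ⟨i, f * f', ?_⟩
  have h2 : X.basicOpen (rO h1 g) = X.basicOpen a ⊓ X.basicOpen g := by
    exact X.basicOpen_res g (homOfLE h1).op
  rw [Scheme.basicOpen_mul, hf', h2, ← ha]
  have h3 : X.basicOpen f ≤ D.U i := X.basicOpen_le f
  have h4 : X.basicOpen g ≤ D.U j := X.basicOpen_le g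
  apply le_antisymm
  · exact le_inf inf_le_left (le_inf (le_inf (inf_le_left.trans h3) (inf_le_right.trans h4))
      inf_le_right)
  · exact le_inf inf_le_left (inf_le_right.trans inf_le_right)

theorem basic_U (i : Fin 4) : D.Basic (D.U i) :=
  ⟨i, 1, by rw [Scheme.basicOpen_of_isUnit _ isUnit_one]⟩

theorem aff_inf (i j : Fin 4) : IsAffineOpen (D.U i ⊓ D.U j) :=
  ((D.basic_U i).inf (D.basic_U j)).aff

end XCharts

end Orl
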