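import Pool.Agent.Work.MP_f714fc_ag.Sch.BaseChange
import Pool.Agent.Work.MP_a6e60d_ag.Sch.XGeom

/-!
# Base change of the four affine charts of the surface `y ^ 2 = a z ^ 2 + q(x, t) w ^ 2`
-/

open CategoryTheory Limits TopologicalSpace AlgebraicGeometry Opposite

attribute [-instance] CategoryTheory.catToReflQuiver

namespace Orl

open Fdim

set_option linter.unusedSimpArgs false

section algebra

/-- base change of a free algebra of rank two -/
theorem free_of_isPushout {P P' B B' : CommRingCat.{0}} {f : P ⟶ B} {m : P ⟶ P'} {g : B ⟶ B'}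
    {f' : P' ⟶ B'} (h : IsPushout m f f' g) (e : B)
    (hb : Function.Bijective fun u : P × P => f.hom u.1 + f.hom u.2 * e) :
    Function.Bijective fun u : P' × P' => f'.hom u.1 + f'.hom u.2 * g.hom e := by
  let _ : Algebra P B := f.hom.toAlgebra
  let _ : Algebra P P' := m.hom.toAlgebra
  let _ : Algebra P' B' := f'.hom.toAlgebra
  let _ : Algebra B B' := g.hom.toAlgebra
  let _ : Algebra P B' := (m ≫ f').hom.toAlgebra
  have : IsScalarTower P P' B' := IsScalarTower.of_algebraMap_eq fun _ => rfl
  have : IsScalarTower P B B' := IsScalarTower.of_algebraMap_eq fun r =>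
    congrArg (fun k => k.hom r) h.w
  have h1 : Algebra.IsPushout P P' B B' := CommRingCat.isPushout_iff_isPushout.1 h
  have h2 := h1.out
  let F : (P × P) ≃ₗ[P] B := LinearEquiv.ofBijective
    { toFun := fun u => f.hom u.1 + f.hom u.2 * e
      map_add' := fun u v => by
        simp only [Prod.fst_add, Prod.snd_add, map_add]
        ring
      map_smul' := fun r u => by
        simp only [Prod.smul_fst, Prod.smul_snd, smul_eq_mul, map_mul, RingHom.id_apply]
        rw [Algebra.smul_def]
        change _ = f.hom r * _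
        ring } hb
  let b : Module.Basis (Fin 2) P B :=
    Module.Basis.ofEquivFun (F.symm.trans (LinearEquiv.finTwoArrow P P).symm)
  have hb0 : b 0 = 1 := by
    simp only [b, Module.Basis.coe_ofEquivFun]
    change f.hom ((Pi.single 0 1 : Fin 2 → P) 0) + f.hom ((Pi.single 0 1 : Fin 2 → P) 1) * e = 1
    simp
  have hb1 : b 1 = e := by
    simp only [b, Module.Basis.coe_ofEquivFun]
    change f.hom ((Pi.single 1 1 : Fin 2 → P) 0) + f.hom ((Pi.single 1 1 : Fin 2 → P) 1) * e = e
    simp
  let b' := h2.basis b
  have hb0' : b' 0 = 1 := by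
    rw [IsBaseChange.basis_apply, hb0]
    exact map_one g.hom
  have hb1' : b' 1 = g.hom e := by
    rw [IsBaseChange.basis_apply, hb1]
    rfl
  have h3 : (fun u : P' × P' => f'.hom u.1 + f'.hom u.2 * g.hom e) =
      b'.equivFun.symm ∘ (LinearEquiv.finTwoArrow P' P').symm := by
    ext u
    rw [Function.comp_apply, Module.Basis.equivFun_symm_apply, Fin.sum_univ_two, hb0', hb1',
      Algebra.smul_def, Algebra.smul_def, mul_one]
    rfl
  rw [h3]
  exact (b'.equivFun.symm.bijective).comp (LinearEquiv.bijective _)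

theorem free_of_isPushout_str {A A' B B' : CommRingCat.{0}} {s : A ⟶ B} {φ : A ⟶ A'}
    {g : B ⟶ B'} {s' : A' ⟶ B'} (h : IsPushout s φ g s') (x y e : B)
    (hb : Function.Bijective fun P : MvPolynomial (Fin 2) A × MvPolynomial (Fin 2) A =>
      MvPolynomial.eval₂Hom s.hom ![x, y] P.1 + MvPolynomial.eval₂Hom s.hom ![x, y] P.2 * e) :
    Function.Bijective fun P : MvPolynomial (Fin 2) A' × MvPolynomial (Fin 2) A' =>
      MvPolynomial.eval₂Hom s'.hom ![g.hom x, g.hom y] P.1 +
        MvPolynomial.eval₂Hom s'.hom ![g.hom x, g.hom y] P.2 * g.hom e := by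
  let P : CommRingCat.{0} := .of (MvPolynomial (Fin 2) A)
  let P' : CommRingCat.{0} := .of (MvPolynomial (Fin 2) A')
  let f : P ⟶ B := CommRingCat.ofHom (MvPolynomial.eval₂Hom s.hom ![x, y])
  let f' : P' ⟶ B' := CommRingCat.ofHom (MvPolynomial.eval₂Hom s'.hom ![g.hom x, g.hom y])
  let m : P ⟶ P' := CommRingCat.ofHom (MvPolynomial.map (σ := Fin 2) φ.hom)
  let i : A ⟶ P := CommRingCat.ofHom (MvPolynomial.C (σ := Fin 2) (R := A))
  let i' : A' ⟶ P' := CommRingCat.ofHom (MvPolynomial.C (σ := Fin 2) (R := A'))
  have h1 : IsPushout i φ m i' := by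
    let _ : Algebra A A' := φ.hom.toAlgebra
    let _ : Algebra (MvPolynomial (Fin 2) A) (MvPolynomial (Fin 2) A') :=
      MvPolynomial.algebraMvPolynomial
    exact CommRingCat.isPushout_of_isPushout A (MvPolynomial (Fin 2) A) A'
      (MvPolynomial (Fin 2) A')
  have hif : i ≫ f = s := by
    ext a
    change MvPolynomial.eval₂Hom s.hom ![x, y] (MvPolynomial.C a) = _
    simp
  have hif' : i' ≫ f' = s' := by
    ext a
    change MvPolynomial.eval₂Hom s'.hom ![g.hom x, g.hom y] (MvPolynomial.C a) = _
    simp
  have hw : s ≫ g = φ ≫ s' := h.w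
  have h2 : f ≫ g = m ≫ f' := by
    apply CommRingCat.hom_ext
    refine MvPolynomial.ringHom_ext (fun a => ?_) (fun j => ?_)
    · change g.hom (MvPolynomial.eval₂Hom s.hom ![x, y] (MvPolynomial.C a)) =
        MvPolynomial.eval₂Hom s'.hom ![g.hom x, g.hom y] (MvPolynomial.map φ.hom (MvPolynomial.C a))
      have h3 := congrArg (fun k => k.hom a) hw
      simpa using h3
    · change g.hom (MvPolynomial.eval₂Hom s.hom ![x, y] (MvPolynomial.X j)) =
        MvPolynomial.eval₂Hom s'.hom ![g.hom x, g.hom y] (MvPolynomial.map φ.hom (MvPolynomial.X j))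
      fin_cases j <;> simp
  have h3 : IsPushout (i ≫ f) φ g (i' ≫ f') := by
    rw [hif, hif']
    exact h
  have h4 : IsPushout f m g f' := IsPushout.of_left h3 h2 h1
  exact free_of_isPushout h4.flip e hb

end algebra

section scheme

variable {A A' : CommRingCat.{0}}

theorem map_qx (φ : A →+* A') {R R' : Type} [CommRing R] [CommRing R'] (c : Fin 5 → A)
    (f : A →+* R) (f' : A' →+* R') (g : R →+* R') (h : ∀ b, g (f b) = f' (φ b)) (x : R) :
    g ((qx c).eval₂ f x) = (qx fun j => φ (c j)).eval₂ f' (g x) := by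
  simp only [qx, Polynomial.eval₂_finsetSum, map_sum, Polynomial.eval₂_mul, Polynomial.eval₂_C,
    Polynomial.eval₂_pow, Polynomial.eval₂_X, map_mul, map_pow, h]

theorem map_qx' (φ : A →+* A') {R R' : Type} [CommRing R] [CommRing R'] (c : Fin 5 → A)
    (f : A →+* R) (f' : A' →+* R') (g : R →+* R') (h : ∀ b, g (f b) = f' (φ b)) (x : R) :
    g ((qx' c).eval₂ f x) = (qx' fun j => φ (c j)).eval₂ f' (g x) := by
  simp only [qx', Polynomial.eval₂_finsetSum, map_sum, Polynomial.eval₂_mul, Polynomial.eval₂_C,
    Polynomial.eval₂_pow, Polynomial.eval₂_X, map_mul, map_pow, h]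

/-- base change of the four charts -/
theorem XCharts.baseChange (φ : A ⟶ A') {a : A} {c : Fin 5 → A} {X X' : Scheme.{0}}
    {π : X ⟶ Spec A} {π' : X' ⟶ Spec A'} {g : X' ⟶ X} (h : IsPullback g π' π (Spec.map φ))
    (D : XCharts A a c π) : Nonempty (XCharts A' (φ.hom a) (fun j => φ.hom (c j)) π') := by
  have hw := h.w
  have haff : IsAffineHom g := MorphismProperty.of_isPullback h.flip inferInstance
  have hc : g ⁻¹ᵁ (⨆ i, D.U i) = ⊤ := by rw [D.cover]; rfl
  have hq := fun i => map_qx φ.hom c (str π (D.U i)) (str π' (g ⁻¹ᵁ D.U i)) (g.app (D.U i)).hom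
    (app_str hw (D.U i))
  have hq' := fun i => map_qx' φ.hom c (str π (D.U i)) (str π' (g ⁻¹ᵁ D.U i)) (g.app (D.U i)).hom
    (app_str hw (D.U i))
  refine ⟨{
    U := fun i => g ⁻¹ᵁ D.U i
    aff := fun i => (D.aff i).preimage g
    cover := by
      rw [← hc]
      exact (Scheme.Hom.preimage_iSup ..).symm
    x := fun i => (g.app (D.U i)).hom (D.x i)
    y := fun i => (g.app (D.U i)).hom (D.y i)
    e := fun i => (g.app (D.U i)).hom (D.e i)
    free := fun i => free_of_isPushout_str (isPushout_str h (D.aff i)) _ _ _ (D.free i)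
    sq0 := by
      have e := congrArg (g.app (D.U 0)).hom D.sq0
      simp only [map_mul, map_add, map_pow, app_str hw, hq] at e
      exact e
    sq1 := by
      have e := congrArg (g.app (D.U 1)).hom D.sq1
      simp only [map_mul, map_add, map_pow, app_str hw, hq] at e
      exact e
    sq2 := by
      have e := congrArg (g.app (D.U 2)).hom D.sq2
      simp only [map_mul, map_add, map_pow, app_str hw, hq'] at e
      exact e
    sq3 := by
      have e := congrArg (g.app (D.U 3)).hom D.sq3
      simp only [map_mul, map_add, map_pow, app_str hw, hq'] at e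
      exact e
    b01 := ?_, b10 := ?_, b23 := ?_, b32 := ?_, b02 := ?_, b20 := ?_, b13 := ?_, b31 := ?_,
    b03 := ?_, b30 := ?_, b12 := ?_, b21 := ?_, r01x := ?_, r01y := ?_, r01e := ?_,
    r23x := ?_, r23y := ?_, r23e := ?_, r02x := ?_, r02y := ?_, r02e := ?_, r13x := ?_,
    r13y := ?_, r13e := ?_, r03x := ?_, r03y := ?_, r03e := ?_, r12x := ?_, r12y := ?_,
    r12e := ?_ }⟩
  · have e := congrArg (fun V => g ⁻¹ᵁ V) D.b01
    simp only [Scheme.preimage_basicOpen, map_mul] at e
    exact e
  · have e := congrArg (fun V => g ⁻¹ᵁ V) D.b10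
    simp only [Scheme.preimage_basicOpen, map_mul] at e
    exact e
  · have e := congrArg (fun V => g ⁻¹ᵁ V) D.b23
    simp only [Scheme.preimage_basicOpen, map_mul] at e
    exact e
  · have e := congrArg (fun V => g ⁻¹ᵁ V) D.b32
    simp only [Scheme.preimage_basicOpen, map_mul] at e
    exact e
  · have e := congrArg (fun V => g ⁻¹ᵁ V) D.b02
    simp only [Scheme.preimage_basicOpen, map_mul] at e
    exact e
  · have e := congrArg (fun V => g ⁻¹ᵁ V) D.b20
    simp only [Scheme.preimage_basicOpen, map_mul] at e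
    exact e
  · have e := congrArg (fun V => g ⁻¹ᵁ V) D.b13
    simp only [Scheme.preimage_basicOpen, map_mul] at e
    exact e
  · have e := congrArg (fun V => g ⁻¹ᵁ V) D.b31
    simp only [Scheme.preimage_basicOpen, map_mul] at e
    exact e
  · have e := congrArg (fun V => g ⁻¹ᵁ V) D.b03
    simp only [Scheme.preimage_basicOpen, map_mul] at e
    exact e
  · have e := congrArg (fun V => g ⁻¹ᵁ V) D.b30
    simp only [Scheme.preimage_basicOpen, map_mul] at e
    exact e
  · have e := congrArg (fun V => g ⁻¹ᵁ V) D.b12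
    simp only [Scheme.preimage_basicOpen, map_mul] at e
    exact e
  · have e := congrArg (fun V => g ⁻¹ᵁ V) D.b21
    simp only [Scheme.preimage_basicOpen, map_mul] at e
    exact e
  · have e := congrArg (g.app (D.U 0 ⊓ D.U 1)).hom D.r01x
    simp only [app_rO, map_mul, map_pow, map_one] at e
    try simp only [map_mul, map_pow]
    exact e
  · have e := congrArg (g.app (D.U 0 ⊓ D.U 1)).hom D.r01y
    simp only [app_rO, map_mul, map_pow, map_one] at e
    try simp only [map_mul, map_pow]
    exact e
  · have e := congrArg (g.app (D.U 0 ⊓ D.U 1)).hom D.r01e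
    simp only [app_rO, map_mul, map_pow, map_one] at e
    try simp only [map_mul, map_pow]
    exact e
  · have e := congrArg (g.app (D.U 2 ⊓ D.U 3)).hom D.r23x
    simp only [app_rO, map_mul, map_pow, map_one] at e
    try simp only [map_mul, map_pow]
    exact e
  · have e := congrArg (g.app (D.U 2 ⊓ D.U 3)).hom D.r23y
    simp only [app_rO, map_mul, map_pow, map_one] at e
    try simp only [map_mul, map_pow]
    exact e
  · have e := congrArg (g.app (D.U 2 ⊓ D.U 3)).hom D.r23e
    simp only [app_rO, map_mul, map_pow, map_one] at e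
    try simp only [map_mul, map_pow]
    exact e
  · have e := congrArg (g.app (D.U 0 ⊓ D.U 2)).hom D.r02x
    simp only [app_rO, map_mul, map_pow, map_one] at e
    try simp only [map_mul, map_pow]
    exact e
  · have e := congrArg (g.app (D.U 0 ⊓ D.U 2)).hom D.r02y
    simp only [app_rO, map_mul, map_pow, map_one] at e
    try simp only [map_mul, map_pow]
    exact e
  · have e := congrArg (g.app (D.U 0 ⊓ D.U 2)).hom D.r02e
    simp only [app_rO, map_mul, map_pow, map_one] at e
    try simp only [map_mul, map_pow]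
    exact e
  · have e := congrArg (g.app (D.U 1 ⊓ D.U 3)).hom D.r13x
    simp only [app_rO, map_mul, map_pow, map_one] at e
    try simp only [map_mul, map_pow]
    exact e
  · have e := congrArg (g.app (D.U 1 ⊓ D.U 3)).hom D.r13y
    simp only [app_rO, map_mul, map_pow, map_one] at e
    try simp only [map_mul, map_pow]
    exact e
  · have e := congrArg (g.app (D.U 1 ⊓ D.U 3)).hom D.r13e
    simp only [app_rO, map_mul, map_pow, map_one] at e
    try simp only [map_mul, map_pow]
    exact e
  · have e := congrArg (g.app (D.U 0 ⊓ D.U 3)).hom D.r03x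
    simp only [app_rO, map_mul, map_pow, map_one] at e
    try simp only [map_mul, map_pow]
    exact e
  · have e := congrArg (g.app (D.U 0 ⊓ D.U 3)).hom D.r03y
    simp only [app_rO, map_mul, map_pow, map_one] at e
    try simp only [map_mul, map_pow]
    exact e
  · have e := congrArg (g.app (D.U 0 ⊓ D.U 3)).hom D.r03e
    simp only [app_rO, map_mul, map_pow, map_one] at e
    try simp only [map_mul, map_pow]
    exact e
  · have e := congrArg (g.app (D.U 1 ⊓ D.U 2)).hom D.r12x
    simp only [app_rO, map_mul, map_pow, map_one] at e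
    try simp only [map_mul, map_pow]
    exact e
  · have e := congrArg (g.app (D.U 1 ⊓ D.U 2)).hom D.r12y
    simp only [app_rO, map_mul, map_pow, map_one] at e
    try simp only [map_mul, map_pow]
    exact e
  · have e := congrArg (g.app (D.U 1 ⊓ D.U 2)).hom D.r12e
    simp only [app_rO, map_mul, map_pow, map_one] at e
    try simp only [map_mul, map_pow]
    exact e

end scheme

end Orl
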