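import Pool.Agent.Work.MP_a6e60d_ag.Sch.XSmooth
import Pool.Agent.Work.MP_f714fc_ag.Geo.YSec

/-!
# The Châtelet surface is integral
-/

open CategoryTheory Limits TopologicalSpace AlgebraicGeometry Opposite MvPolynomial

attribute [-instance] CategoryTheory.catToReflQuiver

namespace Orl

open Fdim

/-! ### The coordinate rings are domains -/

section alg

variable {R : Type*} [CommRing R] [IsDomain R]

/-- `a + q y ^ 2` is not a square -/
theorem not_sq_aux {S : Type*} [CommRing S] [IsDomain S] (h2 : (2 : S) ≠ 0) {a q : S}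
    (ha : a ≠ 0) (hq : q ≠ 0) (g : Polynomial S) :
    g ^ 2 ≠ Polynomial.C a + Polynomial.C q * Polynomial.X ^ 2 := by
  intro h
  have hd : (Polynomial.C a + Polynomial.C q * Polynomial.X ^ 2).natDegree = 2 := by
    have h1 : Polynomial.C a + Polynomial.C q * Polynomial.X ^ 2 =
        Polynomial.C q * Polynomial.X ^ 2 + Polynomial.C 0 * Polynomial.X + Polynomial.C a := by
      rw [Polynomial.C_0]
      ring
    rw [h1]
    exact Polynomial.natDegree_quadratic hq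
  have hg : g.natDegree = 1 := by
    rw [← h, Polynomial.natDegree_pow] at hd
    omega
  obtain ⟨u, v, rfl⟩ := Polynomial.exists_eq_X_add_C_of_natDegree_le_one hg.le
  have h0 := congrArg (fun p => Polynomial.coeff p 0) h
  have h1 := congrArg (fun p => Polynomial.coeff p 1) h
  have h3 := congrArg (fun p => Polynomial.coeff p 2) h
  have e : (Polynomial.C u * Polynomial.X + Polynomial.C v) ^ 2 =
      Polynomial.C (u ^ 2) * Polynomial.X ^ 2 + Polynomial.C (2 * u * v) * Polynomial.X +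
        Polynomial.C (v ^ 2) := by
    simp only [map_mul, map_pow, map_ofNat]
    ring
  simp only [e, Polynomial.coeff_add, Polynomial.coeff_C_mul, Polynomial.coeff_X_pow,
    Polynomial.coeff_X, Polynomial.coeff_C] at h0 h1 h3
  norm_num at h0 h1 h3
  rcases h1 with h1 | h1
  · rcases h1 with h1 | h1
    · exact h2 h1
    · exact hq (by rw [← h3, h1]; ring)
  · exact ha (by rw [← h0, h1]; ring)

omit [IsDomain R] in
/-- the polynomials in two variables as polynomials in `y` over the polynomials in `x` -/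
theorem polyTwoInv_X0 : polyTwoInv R (X 0) = Polynomial.C Polynomial.X := by
  simp [polyTwoInv]

omit [IsDomain R] in
theorem polyTwoInv_X1 : polyTwoInv R (X 1) = Polynomial.X := by
  simp [polyTwoInv]

omit [IsDomain R] in
theorem polyTwoInv_C (r : R) : polyTwoInv R (C r) = Polynomial.C (Polynomial.C r) := by
  simp [polyTwoInv]

omit [IsDomain R] in
theorem polyTwoInv_pX (p : Polynomial R) : polyTwoInv R (pX 0 p) = Polynomial.C p := by
  rw [pX, Polynomial.aeval_def, Polynomial.hom_eval₂, polyTwoInv_X0]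
  have h : ((polyTwoInv R).comp (algebraMap R (MvPolynomial (Fin 2) R))) =
      (Polynomial.C : Polynomial R →+* _).comp Polynomial.C := by
    ext r
    simp [polyTwoInv]
  rw [h, ← Polynomial.hom_eval₂, Polynomial.eval₂_C_X]

theorem not_sq_z (h2 : (2 : R) ≠ 0) {a : R} {q : Polynomial R} (ha : a ≠ 0) (hq : q ≠ 0)
    (g : MvPolynomial (Fin 2) R) : g ^ 2 ≠ C a + pX 0 q * X 1 ^ 2 := by
  intro h
  have h1 := congrArg (polyTwoInv R) h
  rw [map_pow, map_add, map_mul, map_pow, polyTwoInv_C, polyTwoInv_pX, polyTwoInv_X1] at h1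
  refine not_sq_aux (S := Polynomial R) ?_ ?_ hq _ h1
  · intro h3
    apply h2
    rw [show (2 : Polynomial R) = Polynomial.C 2 from (map_ofNat Polynomial.C 2).symm,
      Polynomial.C_eq_zero] at h3
    exact h3
  · rwa [Ne, Polynomial.C_eq_zero]

theorem not_sq_w (h2 : (2 : R) ≠ 0) {a : R} {q : Polynomial R} (ha : a ≠ 0) (hq : q ≠ 0)
    (g : MvPolynomial (Fin 2) R) : g ^ 2 ≠ C a * X 1 ^ 2 + pX 0 q := by
  intro h
  have h1 := congrArg (polyTwoInv R) h
  rw [map_pow, map_add, map_mul, map_pow, polyTwoInv_C, polyTwoInv_pX, polyTwoInv_X1,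
    add_comm] at h1
  refine not_sq_aux (S := Polynomial R) ?_ hq ?_ _ h1
  · intro h3
    apply h2
    rw [show (2 : Polynomial R) = Polynomial.C 2 from (map_ofNat Polynomial.C 2).symm,
      Polynomial.C_eq_zero] at h3
    exact h3
  · rwa [Ne, Polynomial.C_eq_zero]

/-- a double cover which is a domain -/
theorem isDomain_of_free {M S : Type*} [CommRing M] [IsDomain M] [UniqueFactorizationMonoid M]
    [CommRing S] (φ : M →+* S) (e : S) (F : M) (he : e ^ 2 = φ F) (hF : ∀ g : M, g ^ 2 ≠ F)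
    (hb : Function.Bijective fun P : M × M => φ P.1 + φ P.2 * e) : IsDomain S := by
  have h0 : ∀ P Q : M, φ P + φ Q * e = 0 → P = 0 ∧ Q = 0 := by
    intro P Q hPQ
    have h1 := @hb.1 (P, Q) (0, 0) (by
      show φ P + φ Q * e = φ 0 + φ 0 * e
      rw [hPQ, map_zero, zero_mul, zero_add])
    exact ⟨congrArg Prod.fst h1, congrArg Prod.snd h1⟩
  have hφ : ∀ P : M, φ P = 0 → P = 0 := fun P hP =>
    (h0 P 0 (by rw [hP, map_zero, zero_mul, zero_add])).1
  have hnt : Nontrivial S := by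
    refine ⟨⟨0, 1, fun h => one_ne_zero (α := M) (hφ 1 ?_)⟩⟩
    rw [map_one, h]
  have hN : ∀ P Q : M, P ^ 2 = F * Q ^ 2 → P = 0 ∧ Q = 0 := by
    intro P Q h
    by_cases hQ : Q = 0
    · subst hQ
      rw [zero_pow two_ne_zero, mul_zero] at h
      exact ⟨pow_eq_zero_iff two_ne_zero |>.1 h, rfl⟩
    · exfalso
      have h1 : Q ^ 2 ∣ P ^ 2 := ⟨F, by rw [h, mul_comm]⟩
      have h2 : Q ∣ P := (IsIntegrallyClosed.pow_dvd_pow_iff two_ne_zero).1 h1
      obtain ⟨R, rfl⟩ := h2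
      apply hF R
      have h3 : Q ^ 2 * (R ^ 2 - F) = 0 := by linear_combination h
      rcases mul_eq_zero.1 h3 with h4 | h4
      · exact absurd (pow_eq_zero_iff two_ne_zero |>.1 h4) hQ
      · exact sub_eq_zero.1 h4
  have hnz : NoZeroDivisors S := by
    constructor
    intro s t hst
    obtain ⟨P, rfl⟩ := hb.2 s
    obtain ⟨Q, rfl⟩ := hb.2 t
    simp only at hst ⊢
    have h1 : φ ((P.1 ^ 2 - F * P.2 ^ 2) * (Q.1 ^ 2 - F * Q.2 ^ 2)) = 0 := by
      simp only [map_mul, map_sub, map_pow]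
      rw [← he]
      linear_combination ((φ P.1 - φ P.2 * e) * (φ Q.1 - φ Q.2 * e)) * hst
    rcases mul_eq_zero.1 (hφ _ h1) with h2 | h2
    · left
      obtain ⟨h3, h4⟩ := hN _ _ (sub_eq_zero.1 h2)
      rw [h3, h4, map_zero, zero_mul, zero_add]
    · right
      obtain ⟨h3, h4⟩ := hN _ _ (sub_eq_zero.1 h2)
      rw [h3, h4, map_zero, zero_mul, zero_add]
  exact NoZeroDivisors.to_isDomain S

end alg

/-! ### A scheme covered by domains which meet -/

theorem isIntegral_of_cover {X : Scheme.{0}} {ι : Type*} [Nonempty ι] (U : ι → X.Opens)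
    (hU : ∀ i, IsAffineOpen (U i)) (hc : ⨆ i, U i = ⊤) (hd : ∀ i, IsDomain Γ(X, U i))
    (hm : ∀ i j, (U i ⊓ U j : X.Opens) ≠ ⊥) : IsIntegral X := by
  have hint : ∀ i, IsIntegral (U i).toScheme := fun i => by
    have := hd i
    exact IsIntegral.of_isIso (hU i).isoSpec.inv
  have hmem : ∀ x : X, ∃ i, x ∈ U i := fun x => by
    have hx : x ∈ ⨆ i, U i := by
      rw [hc]
      trivial
    exact Opens.mem_iSup.1 hx
  have hr : IsReduced X := by
    have hs : ∀ x : X, _root_.IsReduced (X.presheaf.stalk x) := by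
      intro x
      obtain ⟨i, hi⟩ := hmem x
      have h0 := hint i
      have h0' : IsReduced (U i).toScheme := isReduced_of_isIntegral _
      have h1 : _root_.IsReduced ((U i).toScheme.presheaf.stalk ⟨x, hi⟩) :=
        isReduced_stalk_of_isReduced _ _
      have h2 := ((U i).stalkIso ⟨x, hi⟩).commRingCatIsoToRingEquiv
      exact isReduced_of_injective h2.symm h2.symm.injective
    exact isReduced_of_isReduced_stalk X
  have hirr : ∀ i, PreirreducibleSpace (U i) := fun i =>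
    have := hint i
    inferInstanceAs (PreirreducibleSpace (U i).toScheme)
  have hmeet : ∀ (i : ι) (V W : X.Opens), (U i ⊓ V : X.Opens) ≠ ⊥ →
      (U i ⊓ W : X.Opens) ≠ ⊥ → (U i ⊓ V ⊓ W : X.Opens) ≠ ⊥ := by
    intro i V W hV hW
    have h1 : IsPreirreducible ((U i : X.Opens) : Set X) :=
      isPreirreducible_iff_preirreducibleSpace.2 (hirr i)
    have h2 := h1 V W V.2 W.2 (by
      obtain ⟨x, hx⟩ := Opens.ne_bot_iff_nonempty _ |>.1 hV
      exact ⟨x, hx.1, hx.2⟩) (by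
      obtain ⟨x, hx⟩ := Opens.ne_bot_iff_nonempty _ |>.1 hW
      exact ⟨x, hx.1, hx.2⟩)
    obtain ⟨x, hx1, hx2, hx3⟩ := h2
    exact (Opens.ne_bot_iff_nonempty _).2 ⟨x, ⟨hx1, hx2⟩, hx3⟩
  have hex : ∀ V : X.Opens, V ≠ ⊥ → ∃ i, (U i ⊓ V : X.Opens) ≠ ⊥ := by
    intro V hV
    obtain ⟨x, hx⟩ := (Opens.ne_bot_iff_nonempty _).1 hV
    obtain ⟨i, hi⟩ := hmem x
    exact ⟨i, (Opens.ne_bot_iff_nonempty _).2 ⟨x, hi, hx⟩⟩
  have hirrX : IrreducibleSpace X := by
    have hpre : PreirreducibleSpace X := by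
      constructor
      intro V W hV hW hVn hWn
      obtain ⟨x, -, hx⟩ := hVn
      obtain ⟨y, -, hy⟩ := hWn
      obtain ⟨i, hi⟩ := hex ⟨V, hV⟩ ((Opens.ne_bot_iff_nonempty _).2 ⟨x, hx⟩)
      obtain ⟨j, hj⟩ := hex ⟨W, hW⟩ ((Opens.ne_bot_iff_nonempty _).2 ⟨y, hy⟩)
      have h1 := hmeet i ⟨V, hV⟩ (U j) hi (hm i j)
      have h2 : (U j ⊓ ⟨V, hV⟩ : X.Opens) ≠ ⊥ := by
        obtain ⟨z, hz⟩ := (Opens.ne_bot_iff_nonempty _).1 h1
        exact (Opens.ne_bot_iff_nonempty _).2 ⟨z, hz.2, hz.1.2⟩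
      have h3 := hmeet j ⟨V, hV⟩ ⟨W, hW⟩ h2 hj
      obtain ⟨z, hz⟩ := (Opens.ne_bot_iff_nonempty _).1 h3
      exact ⟨z, trivial, hz.1.2, hz.2⟩
    have hne : Nonempty X := by
      obtain ⟨i⟩ := ‹Nonempty ι›
      obtain ⟨z, hz⟩ := (Opens.ne_bot_iff_nonempty _).1 (hm i i)
      exact ⟨z⟩
    exact { toPreirreducibleSpace := hpre, toNonempty := hne }
  exact isIntegral_of_irreducibleSpace_of_isReduced X

/-- `U ⊓ V ≠ ⊥` if it is the basic open subset of a nonzero function on an integral chart -/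
theorem inf_ne_bot_of_basicOpen {X : Scheme.{0}} {U V : X.Opens} [IsDomain Γ(X, U)]
    (hU : IsAffineOpen U) {s : Γ(X, U)} (h : U ⊓ V = X.basicOpen s) (hs : s ≠ 0) :
    (U ⊓ V : X.Opens) ≠ ⊥ := by
  rw [h]
  intro h1
  have h2 := hU.isLocalization_basicOpen s
  have h3 : Subsingleton Γ(X, X.basicOpen s) := by
    rw [h1]
    infer_instance
  have h4 : algebraMap Γ(X, U) Γ(X, X.basicOpen s) 1 = 0 := Subsingleton.elim _ _
  rw [IsLocalization.map_eq_zero_iff (Submonoid.powers s)] at h4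
  obtain ⟨⟨m, n, hn⟩, h5⟩ := h4
  have h6 : s ^ n = 0 := by
    simpa [← hn] using h5
  exact pow_ne_zero n hs h6

namespace XCharts

variable {A : CommRingCat.{0}} {a : A} {c : Fin 5 → A} {X : Scheme.{0}} {π : X ⟶ Spec A}
  (D : XCharts A a c π)

include D

theorem injective_ev (i : Fin 4) :
    Function.Injective (eval₂Hom (str π (D.U i)) ![D.x i, D.y i]) := by
  rw [injective_iff_map_eq_zero]
  intro P hP
  have h1 := @(D.free i).1 (P, 0) (0, 0) (by
    show eval₂Hom (str π (D.U i)) ![D.x i, D.y i] P +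
        eval₂Hom (str π (D.U i)) ![D.x i, D.y i] 0 * D.e i =
      eval₂Hom (str π (D.U i)) ![D.x i, D.y i] 0 +
        eval₂Hom (str π (D.U i)) ![D.x i, D.y i] 0 * D.e i
    rw [hP, map_zero, zero_mul, zero_add])
  exact congrArg Prod.fst h1

/-- the coordinate rings are domains -/
theorem isDomain [IsDomain A] [UniqueFactorizationMonoid A] (h2 : (2 : A) ≠ 0) (ha : a ≠ 0)
    (hq : qx (A := A) c ≠ 0) (hq' : qx' (A := A) c ≠ 0) (i : Fin 4) :
    IsDomain Γ(X, D.U i) := by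
  refine isDomain_of_free (eval₂Hom (str π (D.U i)) ![D.x i, D.y i]) (D.e i)
    (rhsX (A := A) a c i) (D.sq i) ?_ (D.free i)
  fin_cases i
  · exact not_sq_z (R := A) h2 ha hq
  · exact not_sq_w (R := A) h2 ha hq
  · exact not_sq_z (R := A) h2 ha hq'
  · exact not_sq_w (R := A) h2 ha hq'

theorem x_ne_zero [Nontrivial A] (i : Fin 4) : D.x i ≠ 0 := by
  intro h
  have h1 : eval₂Hom (str π (D.U i)) ![D.x i, D.y i] (MvPolynomial.X 0) = 0 :=
    (eval₂Hom_X' _ _ _).trans h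
  exact MvPolynomial.X_ne_zero (R := A) 0 ((injective_iff_map_eq_zero _).1 (D.injective_ev i) _ h1)

theorem y_ne_zero [Nontrivial A] (i : Fin 4) : D.y i ≠ 0 := by
  intro h
  have h1 : eval₂Hom (str π (D.U i)) ![D.x i, D.y i] (MvPolynomial.X 1) = 0 :=
    (eval₂Hom_X' _ _ _).trans h
  exact MvPolynomial.X_ne_zero (R := A) 1 ((injective_iff_map_eq_zero _).1 (D.injective_ev i) _ h1)

theorem inter_ne_bot [IsDomain A] (hd : ∀ i, IsDomain Γ(X, D.U i)) (i j : Fin 4) :
    (D.U i ⊓ D.U j : X.Opens) ≠ ⊥ := by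
  have hx := D.x_ne_zero
  have hy := D.y_ne_zero
  have h01 : (D.U 0 ⊓ D.U 1 : X.Opens) ≠ ⊥ :=
    inf_ne_bot_of_basicOpen (D.aff 0) D.b01 (hy 0)
  have h02 : (D.U 0 ⊓ D.U 2 : X.Opens) ≠ ⊥ :=
    inf_ne_bot_of_basicOpen (D.aff 0) D.b02 (hx 0)
  have h03 : (D.U 0 ⊓ D.U 3 : X.Opens) ≠ ⊥ :=
    inf_ne_bot_of_basicOpen (D.aff 0) D.b03 (mul_ne_zero (hx 0) (hy 0))
  have h12 : (D.U 1 ⊓ D.U 2 : X.Opens) ≠ ⊥ :=
    inf_ne_bot_of_basicOpen (D.aff 1) D.b12 (mul_ne_zero (hx 1) (hy 1))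
  have h13 : (D.U 1 ⊓ D.U 3 : X.Opens) ≠ ⊥ :=
    inf_ne_bot_of_basicOpen (D.aff 1) D.b13 (hx 1)
  have h23 : (D.U 2 ⊓ D.U 3 : X.Opens) ≠ ⊥ :=
    inf_ne_bot_of_basicOpen (D.aff 2) D.b23 (hy 2)
  have hii : ∀ i, (D.U i ⊓ D.U i : X.Opens) ≠ ⊥ := fun i =>
    inf_ne_bot_of_basicOpen (D.aff i) (s := 1)
      (by rw [inf_idem, Scheme.basicOpen_of_isUnit _ isUnit_one]) one_ne_zero
  fin_cases i <;> fin_cases j
  · exact hii 0
  · exact h01
  · exact h02
  · exact h03
  · exact (inf_comm _ _).trans_ne h01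
  · exact hii 1
  · exact h12
  · exact h13
  · exact (inf_comm _ _).trans_ne h02
  · exact (inf_comm _ _).trans_ne h12
  · exact hii 2
  · exact h23
  · exact (inf_comm _ _).trans_ne h03
  · exact (inf_comm _ _).trans_ne h13
  · exact (inf_comm _ _).trans_ne h23
  · exact hii 3

/-- **the surface is integral** -/
theorem isIntegral [IsDomain A] [UniqueFactorizationMonoid A] (h2 : (2 : A) ≠ 0) (ha : a ≠ 0)
    (hq : qx (A := A) c ≠ 0) (hq' : qx' (A := A) c ≠ 0) : IsIntegral X :=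
  isIntegral_of_cover D.U D.aff D.cover (D.isDomain h2 ha hq hq')
    (D.inter_ne_bot (D.isDomain h2 ha hq hq'))

end XCharts

end Orl
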