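import Pool.Agent.Work.MP_a6e60d_ag.Sch.XSep
import Pool.Agent.Work.MP_a6e60d_ag.Sch.XInt

/-!
# The surface `y ^ 2 = a z ^ 2 + t (x ^ 3 - b t ^ 3) w ^ 2` is integral
-/

open CategoryTheory Limits TopologicalSpace AlgebraicGeometry Opposite

attribute [-instance] CategoryTheory.catToReflQuiver

namespace Orl

theorem qx_cub_ne_zero {A : Type} [CommRing A] [Nontrivial A] (b : A) : qx (cub b) ≠ 0 := by
  intro h
  have h1 := congrArg (fun p => Polynomial.coeff p 3) h
  simp [qx_cub, Polynomial.coeff_X_pow, Polynomial.coeff_C] at h1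

theorem qx'_cub_ne_zero {A : Type} [CommRing A] [Nontrivial A] (b : A) : qx' (cub b) ≠ 0 := by
  intro h
  have h1 := congrArg (fun p => Polynomial.coeff p 1) h
  simp [qx'_cub] at h1

/-- the surface is integral -/
theorem XCharts.isIntegral_cub {A : CommRingCat.{0}} {a b : A} {X : Scheme.{0}} {π : X ⟶ Spec A}
    (D : XCharts A a (cub (A := A) b) π) [IsDomain A] [UniqueFactorizationMonoid A]
    (h2 : (2 : A) ≠ 0) (ha : a ≠ 0) : IsIntegral X :=
  D.isIntegral h2 ha (qx_cub_ne_zero b) (qx'_cub_ne_zero b)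

end Orl
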