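import Pool.Agent.Work.MP_a6e60d_ag.Sch.XqCharts
import Pool.Agent.Work.MP_a6e60d_ag.Sch.XBase
import Pool.Agent.Work.MP_a6e60d_ag.Sch.XCub
import Pool.Agent.Work.MP_a6e60d_ag.Perf.Dim
import Pool.Agent.Work.MP_a6e60d_ag.Defs
import Pool.Agent.Work.MP_f714fc_ag.Sch.YGeom

/-!
# The Châtelet surface `y ^ 2 = a z ^ 2 + t (x ^ 3 - b t ^ 3) w ^ 2` over a field
-/

open CategoryTheory Limits TopologicalSpace AlgebraicGeometry Opposite

attribute [-instance] CategoryTheory.catToReflQuiver

namespace Orl

open Fdim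

/-! ### General facts on the surfaces given by four charts -/

section base

/-- the surfaces `y ^ 2 = a z ^ 2 + t (x ^ 3 - b t ^ 3) w ^ 2` are geometrically integral -/
theorem XCharts.geometricallyIntegral_cub {k : Type} [Field k] {a b : k} {X : Scheme.{0}}
    {π : X ⟶ Spec (.of k)} (D : XCharts (.of k) a (cub (A := k) b) π)
    (h2 : (2 : k) ≠ 0) (ha : a ≠ 0) : GeometricallyIntegral π := by
  constructor
  intro K _ y Z fst snd h
  obtain ⟨φ, rfl⟩ := Spec.map_surjective y
  obtain ⟨D'⟩ := D.baseChange φ h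
  have hc : (fun j => φ.hom (cub (A := k) b j)) = cub (A := K) (φ.hom b) := by
    funext j
    fin_cases j <;> simp [cub]
  have h2' : (2 : K) ≠ 0 := by
    have h3 := (map_ne_zero φ.hom).2 h2
    rwa [map_ofNat] at h3
  have ha' : φ.hom a ≠ 0 := (map_ne_zero φ.hom).2 ha
  have hD : Nonempty (XCharts (.of K) (φ.hom a) (cub (A := K) (φ.hom b)) snd) := by
    rw [← hc]
    exact ⟨D'⟩
  obtain ⟨D''⟩ := hD
  have : IsDomain (CommRingCat.of K) := inferInstanceAs (IsDomain K)
  have : UniqueFactorizationMonoid (CommRingCat.of K) :=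
    inferInstanceAs (UniqueFactorizationMonoid K)
  exact D''.isIntegral_cub h2' ha'

end base

/-! ### The surface over a field -/

variable {k : Type} [Field k] (a b : k)

/-- the surface `y ^ 2 = a z ^ 2 + t (x ^ 3 - b t ^ 3) w ^ 2` over the field `k` -/
noncomputable def XK : Scheme.{0} := Xq a (cub b)

noncomputable instance : (XK a b).Over (Spec (.of k)) := ⟨Xq.π a (cub b)⟩

/-- its four affine charts -/
noncomputable def XK.charts : XCharts (.of k) a (cub (A := k) b) (XK a b ↘ Spec (.of k)) :=
  Xq.charts a (cub b) (nonSquare_of_degree_three a (cub b) rfl one_ne_zero)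

/-- it is projective -/
theorem XK.isProjective : IsProjective k (XK a b ↘ Spec (.of k)) (𝟙 (Spec (.of k))) := by
  have h1 := Xq.isProjective (k := k) a (cub b)
  have h2 : Spec.map (CommRingCat.ofHom (algebraMap k k)) = 𝟙 (Spec (.of k)) :=
    Spec.map_id (CommRingCat.of k)
  rw [h2] at h1
  exact h1

instance XK.isProper : IsProper (XK a b ↘ Spec (.of k)) := (XK.isProjective a b).isProper

instance XK.isSeparated : (XK a b).IsSeparated := by
  have h1 : IsSeparated (XK a b ↘ Spec (.of k)) := inferInstance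
  constructor
  have h2 : terminal.from (XK a b) = (XK a b ↘ Spec (.of k)) ≫ terminal.from _ :=
    Subsingleton.elim _ _
  rw [h2]
  infer_instance

instance XK.compactSpace : CompactSpace (XK a b) := (XK.charts a b).compactSpace

instance XK.isNoetherian : IsNoetherian (XK a b) :=
  have : IsNoetherianRing (CommRingCat.of k) := inferInstanceAs (IsNoetherianRing k)
  (XK.charts a b).isNoetherian

instance XK.nonempty : Nonempty (XK a b) := by
  have : Nontrivial (CommRingCat.of k) := inferInstanceAs (Nontrivial k)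
  by_contra h
  rw [not_nonempty_iff] at h
  have h1 : (XK.charts a b).U 0 = ⊥ := by
    ext x
    exact h.elim x
  have h2 : Subsingleton Γ(XK a b, (XK.charts a b).U 0) := by
    rw [h1]
    infer_instance
  exact (XK.charts a b).x_ne_zero 0 (Subsingleton.elim _ _)

/-- intersections of affine open subsets are affine -/
theorem XK.inf (V W : (XK a b).Opens) (hV : IsAffineOpen V) (hW : IsAffineOpen W) :
    IsAffineOpen (V ⊓ W) :=
  have : IsAffineHom (pullback.diagonal (terminal.from (XK a b))) := inferInstance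
  hV.inf hW

variable {a b}

/-- it is a smooth projective variety -/
theorem XK.isSmoothProj (h2 : (2 : k) ≠ 0) (h3 : (3 : k) ≠ 0) (ha : a ≠ 0) (hb : b ≠ 0) :
    FdDG.IsSmoothProj k (XK a b) where
  integral := (XK.charts a b).geometricallyIntegral_cub h2 ha
  smooth := (XK.charts a b).smooth_cub (A := .of k) (Ne.isUnit (G₀ := k) h2)
    (Ne.isUnit (G₀ := k) h3) (Ne.isUnit (G₀ := k) ha) (Ne.isUnit (G₀ := k) hb)
  projective := XK.isProjective a b

/-- it has locally finite global dimension -/
theorem XK.locGD (h2 : (2 : k) ≠ 0) (h3 : (3 : k) ≠ 0) (ha : a ≠ 0) (hb : b ≠ 0) :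
    Perf.LocGD (XK a b) :=
  have := (XK.isSmoothProj h2 h3 ha hb).smooth
  Perf.LocGD.of_smooth (XK a b ↘ Spec (.of k))

/-- it is integral -/
theorem XK.isIntegral (h2 : (2 : k) ≠ 0) (ha : a ≠ 0) : IsIntegral (XK a b) :=
  have : IsDomain (CommRingCat.of k) := inferInstanceAs (IsDomain k)
  have : UniqueFactorizationMonoid (CommRingCat.of k) :=
    inferInstanceAs (UniqueFactorizationMonoid k)
  (XK.charts a b).isIntegral_cub h2 ha

end Orl
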