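import Pool.Agent.Work.MP_f714fc_ag.Tw.Sec

/-!
# Localization away from one element, for ring homomorphisms; free algebras of rank two
-/

set_option autoImplicit false

open CategoryTheory Limits TopologicalSpace AlgebraicGeometry Opposite Polynomial
open scoped LaurentPolynomial

attribute [-instance] CategoryTheory.catToReflQuiver

namespace Orl

open Fdim

section

variable {R R' P P' : Type*} [CommRing R] [CommRing R'] [CommRing P] [CommRing P']

/-- the ring homomorphism `f` is a localization away from `s` -/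
structure Loc1 (f : R →+* R') (s : R) : Prop where
  unit : IsUnit (f s)
  surj : ∀ r' : R', ∃ (n : ℕ) (r : R), f s ^ n * r' = f r
  inj : ∀ r : R, f r = 0 → ∃ n : ℕ, s ^ n * r = 0

theorem Loc1.of_away [Algebra R R'] (s : R) [IsLocalization.Away s R'] :
    Loc1 (algebraMap R R') s where
  unit := IsLocalization.Away.algebraMap_isUnit s
  surj r' := by
    obtain ⟨n, r, h⟩ := IsLocalization.Away.surj s r'
    exact ⟨n, r, by rw [← h]; ring⟩
  inj r h := by
    obtain ⟨n, hn⟩ := IsLocalization.Away.exists_of_eq (S := R') (x := s) (a := r) (b := 0)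
      (by rw [h, map_zero])
    exact ⟨n, by rw [hn, mul_zero]⟩

theorem Loc1.isLocalization {f : R →+* R'} {s : R} (h : Loc1 f s) :
    @IsLocalization.Away _ _ s R' _ f.toAlgebra := by
  let := f.toAlgebra
  refine IsLocalization.Away.mk (S := R') (r := s) h.unit (fun r' => ?_) fun a b hab => ?_
  · obtain ⟨n, r, hr⟩ := h.surj r'
    exact ⟨n, r, by rw [mul_comm]; exact hr⟩
  · obtain ⟨n, hn⟩ := h.inj (a - b) (by
      rw [map_sub]
      exact sub_eq_zero.2 hab)
    exact ⟨n, by rwa [mul_sub, sub_eq_zero] at hn⟩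

theorem Loc1.injective {f : R →+* R'} {s : R} (h : Loc1 f s) (hs : ∀ r : R, s * r = 0 → r = 0) :
    Function.Injective f := by
  rw [injective_iff_map_eq_zero]
  intro r hr
  obtain ⟨n, hn⟩ := h.inj r hr
  induction n with
  | zero => simpa using hn
  | succ n ih => exact ih (hs _ (by rw [← mul_assoc, ← pow_succ']; exact hn))

/-- localization of polynomial rings -/
theorem Loc1.mapRingHom {f : R →+* R'} {s : R} (h : Loc1 f s) :
    Loc1 (Polynomial.mapRingHom f) (C s) where
  unit := by
    rw [Polynomial.coe_mapRingHom, Polynomial.map_C]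
    exact h.unit.map C
  surj P := by
    induction P using Polynomial.induction_on' with
    | add P Q hP hQ =>
      obtain ⟨n, P', hP⟩ := hP
      obtain ⟨m, Q', hQ⟩ := hQ
      refine ⟨n + m, C s ^ m * P' + C s ^ n * Q', ?_⟩
      rw [map_add, map_mul, map_mul, ← hP, ← hQ, map_pow, map_pow]
      ring
    | monomial n r =>
      obtain ⟨m, r', hr⟩ := h.surj r
      refine ⟨m, monomial n r', ?_⟩
      rw [Polynomial.coe_mapRingHom, Polynomial.map_C, Polynomial.map_monomial, ← hr, ← C_pow,
        C_mul_monomial]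
  inj P hP := by
    have h1 : ∀ i, ∃ n : ℕ, s ^ n * P.coeff i = 0 := fun i => h.inj _ (by
      have h2 := congrArg (fun Q => Polynomial.coeff Q i) hP
      simpa using h2)
    choose n hn using h1
    refine ⟨∑ i ∈ P.support, n i, ?_⟩
    ext i
    rw [← C_pow, coeff_C_mul, coeff_zero]
    by_cases hi : i ∈ P.support
    · rw [← Finset.add_sum_erase _ _ hi, pow_add, mul_assoc, mul_left_comm, hn, mul_zero]
    · rw [notMem_support_iff.1 hi, mul_zero]

/-- Laurent polynomials -/
theorem Loc1.toLaurent : Loc1 (Polynomial.toLaurent : R[X] →+* R[T;T⁻¹]) X :=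
  Loc1.of_away (R := R[X]) (R' := R[T;T⁻¹]) X

/-- base change of a free algebra with the basis `1, y` -/
theorem Loc1.bijective {i : P →+* P'} {j : R →+* R'} {f : P →+* R} {f' : P' →+* R'} {p : P}
    (hi : Loc1 i p) (hj : Loc1 j (f p)) (comm : ∀ b, f' (i b) = j (f b)) {y : R}
    (h : Function.Bijective fun u : P × P => f u.1 + f u.2 * y) :
    Function.Bijective fun u : P' × P' => f' u.1 + f' u.2 * j y := by
  constructor
  · intro u v huv
    have key : ∀ d : P' × P', f' d.1 + f' d.2 * j y = 0 → d.1 = 0 ∧ d.2 = 0 := by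
      intro d hd
      obtain ⟨n, r₁, h₁⟩ := hi.surj d.1
      obtain ⟨m, r₂, h₂⟩ := hi.surj d.2
      have h3 : j (f (p ^ m * r₁) + f (p ^ n * r₂) * y) = 0 := by
        have h4 : j (f (p ^ m * r₁) + f (p ^ n * r₂) * y) =
            f' (i p) ^ (n + m) * (f' d.1 + f' d.2 * j y) := by
          rw [map_add, map_mul j, ← comm, ← comm, map_mul i, map_mul i, ← h₁, ← h₂]
          simp only [map_mul, map_pow]
          ring
        rw [h4, hd, mul_zero]
      obtain ⟨l, hl⟩ := hj.inj _ h3
      have h5 := @h.1 (p ^ l * (p ^ m * r₁), p ^ l * (p ^ n * r₂)) (0, 0) (by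
        simp only [map_zero, zero_mul, add_zero]
        rw [← hl]
        simp only [map_mul, map_pow]
        ring)
      have h6 := congrArg (fun w => i w.1) h5
      have h7 := congrArg (fun w => i w.2) h5
      simp only [map_mul, map_pow, map_zero, ← h₁, ← h₂] at h6 h7
      have hu := hi.unit
      constructor
      · exact ((hu.pow l).mul_right_eq_zero.1 h6 |> (hu.pow m).mul_right_eq_zero.1 |>
          (hu.pow n).mul_right_eq_zero.1)
      · exact ((hu.pow l).mul_right_eq_zero.1 h7 |> (hu.pow n).mul_right_eq_zero.1 |>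
          (hu.pow m).mul_right_eq_zero.1)
    have h1 := key (u - v) (by
      have h2 : f' u.1 + f' u.2 * j y = f' v.1 + f' v.2 * j y := huv
      rw [Prod.fst_sub, Prod.snd_sub, map_sub, map_sub, sub_mul]
      linear_combination h2)
    exact Prod.ext (sub_eq_zero.1 h1.1) (sub_eq_zero.1 h1.2)
  · intro r'
    obtain ⟨n, r, hr⟩ := hj.surj r'
    obtain ⟨u, hu⟩ := h.2 r
    obtain ⟨w, hw⟩ := hi.unit
    have hw' : f' (↑w⁻¹) ^ n * f' (i p) ^ n = 1 := by
      rw [← mul_pow, ← map_mul, ← hw, Units.inv_mul, map_one, one_pow]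
    refine ⟨(↑w⁻¹ ^ n * i u.1, ↑w⁻¹ ^ n * i u.2), ?_⟩
    have hu' : f u.1 + f u.2 * y = r := hu
    change f' (↑w⁻¹ ^ n * i u.1) + f' (↑w⁻¹ ^ n * i u.2) * j y = r'
    have h1 : f' (↑w⁻¹ ^ n * i u.1) + f' (↑w⁻¹ ^ n * i u.2) * j y =
        f' (↑w⁻¹) ^ n * j r := by
      rw [← hu', map_mul, map_mul, map_pow, comm, comm, map_add, map_mul]
      ring
    rw [h1, ← hr, ← comm, ← mul_assoc, hw', one_mul]

end

/-- restriction to a basic open set is a localization -/
theorem loc1_rO {X : Scheme.{0}} {U V : X.Opens} (hU : IsAffineOpen U) (s : Γ(X, U)) (h : V ≤ U)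
    (hV : V = X.basicOpen s) : Loc1 (rO h) s := by
  subst hV
  have h1 := hU.isLocalization_basicOpen s
  exact Loc1.of_away s

end Orl
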