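import Pool.Agent.Work.MP_a6e60d_ag.Sch.XBasic

/-!
# The coordinate rings of the four charts of the Châtelet surface
-/

open CategoryTheory Limits TopologicalSpace AlgebraicGeometry Opposite MvPolynomial
open HomogeneousLocalization

attribute [-instance] CategoryTheory.catToReflQuiver

namespace Orl

open Fdim

set_option linter.unusedSectionVars false

/-! ## Fractions -/

section

variable {A R : Type} [CommRing A] [CommRing R] [Algebra A R] (G : ℕ → Submodule A R)
  [GradedAlgebra G] {K : Type} [Field K] {j : R →+* K} (hj : Function.Injective j)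

include hj

theorem frac_eq_mul {f g g1 g2 : R} (hf0 : f ≠ 0) (hf : f ∈ G 1) (hg : g ∈ G 1) (h1 : g1 ∈ G 1)
    (h2 : g2 ∈ G 1) (h : g * f = g1 * g2) :
    frac G hf hg = frac G hf h1 * frac G hf h2 := by
  apply kap_injective G hj hf0 hf
  have h0 := j_ne_zero hj hf0
  have h3 := congrArg j h
  rw [map_mul, map_mul] at h3
  rw [map_mul, kap_frac, kap_frac, kap_frac, div_mul_div_comm, ← h3, mul_div_mul_right _ _ h0]

theorem frac_self {f : R} (hf0 : f ≠ 0) (hf : f ∈ G 1) : frac G hf hf = 1 := by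
  apply kap_injective G hj hf0 hf
  rw [kap_frac, map_one, div_self (j_ne_zero hj hf0)]

/-- a subring of the ring of a chart which contains the constants and all fractions is everything -/
theorem eq_top_of_frac {ι : Type} [Fintype ι] (g : ι → R) (hg : ∀ i, g i ∈ G 1)
    (ha : Algebra.adjoin (G 0) (Set.range g) = ⊤)
    (h0 : ∀ r : G 0, ∃ s : A, algebraMap A (G 0) s = r) (i : ι) (hi : g i ≠ 0)
    (S : Subring (Away G (g i))) (hc : ∀ s, cstA G (g i) s ∈ S)
    (h : ∀ m, frac G (hg i) (hg m) ∈ S) (b : Away G (g i)) : b ∈ S := by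
  have h1 := Away.span_mk_prod_pow_eq_top (hg i) g ha (fun _ => 1) hg
  have h2 : b ∈ (⊤ : Submodule (G 0) (Away G (g i))) := Submodule.mem_top
  rw [← h1] at h2
  induction h2 using Submodule.span_induction with
  | mem x hx =>
    obtain ⟨n, ai, hai, rfl⟩ := hx
    have h3 : Away.mk G (hg i) n (∏ m, g m ^ ai m)
        (hai ▸ SetLike.prod_pow_mem_graded _ _ _ _ fun m _ ↦ hg m) =
        ∏ m, frac G (hg i) (hg m) ^ ai m := by
      apply kap_injective G hj hi (hg i)
      rw [kap_mk, map_prod, map_prod]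
      have h5 : ∑ m, ai m = n := by simpa using hai
      rw [← h5, ← Finset.prod_pow_eq_pow_sum, ← Finset.prod_div_distrib]
      refine Finset.prod_congr rfl fun m _ => ?_
      rw [map_pow, map_pow, kap_frac, div_pow]
    rw [h3]
    exact Subring.prod_mem _ fun m _ => Subring.pow_mem _ (h m) _
  | zero => exact Subring.zero_mem _
  | add x y _ _ hx hy => exact Subring.add_mem _ hx hy
  | smul r x _ hx =>
    obtain ⟨s, rfl⟩ := h0 r
    rw [Algebra.smul_def]
    exact Subring.mul_mem _ (hc s) hx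

end

/-- the subring of the elements `φ P + φ P' * e` -/
def twoSub {P B : Type} [CommRing P] [CommRing B] (φ : P →+* B) (e : B) (he : ∃ p, φ p = e ^ 2) :
    Subring B where
  carrier := {b | ∃ p : P × P, φ p.1 + φ p.2 * e = b}
  one_mem' := ⟨(1, 0), by simp⟩
  zero_mem' := ⟨(0, 0), by simp⟩
  add_mem' := by
    rintro _ _ ⟨p, rfl⟩ ⟨q, rfl⟩
    exact ⟨(p.1 + q.1, p.2 + q.2), by simp only [map_add]; ring⟩
  neg_mem' := by
    rintro _ ⟨p, rfl⟩
    exact ⟨(- p.1, - p.2), by simp only [map_neg]; ring⟩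
  mul_mem' := by
    rintro _ _ ⟨p, rfl⟩ ⟨q, rfl⟩
    obtain ⟨r, hr⟩ := he
    refine ⟨(p.1 * q.1 + p.2 * q.2 * r, p.1 * q.2 + p.2 * q.1), ?_⟩
    simp only [map_add, map_mul, hr]
    ring

theorem mem_twoSub {P B : Type} [CommRing P] [CommRing B] {φ : P →+* B} {e : B}
    {he : ∃ p, φ p = e ^ 2} {b : B} : b ∈ twoSub φ e he ↔ ∃ p : P × P, φ p.1 + φ p.2 * e = b :=
  Iff.rfl

theorem map_mem_twoSub {P B : Type} [CommRing P] [CommRing B] {φ : P →+* B} {e : B}
    {he : ∃ p, φ p = e ^ 2} (p : P) : φ p ∈ twoSub φ e he := ⟨(p, 0), by simp⟩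

theorem self_mem_twoSub {P B : Type} [CommRing P] [CommRing B] {φ : P →+* B} {e : B}
    {he : ∃ p, φ p = e ^ 2} : e ∈ twoSub φ e he := ⟨(0, 1), by simp⟩

/-! ## The field -/

variable {A : Type} [CommRing A] (a : A) (c : Fin 5 → A)

/-- the fraction field of `A[z, p, T]` -/
abbrev KK (A : Type) [CommRing A] := FractionRing (MvPolynomial (Fin 3) A)

/-- the function field -/
abbrev LQ : Type := QuadraticAlgebra (KK A) (algebraMap _ (KK A) (QM a c)) 0

/-- the embedding in the function field -/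
noncomputable def toLQ : SS a c →+* LQ a c where
  toFun s := ⟨algebraMap _ _ s.re, algebraMap _ _ s.im⟩
  map_one' := by
    apply QuadraticAlgebra.ext
    · exact map_one _
    · exact map_zero _
  map_zero' := by
    apply QuadraticAlgebra.ext
    · exact map_zero _
    · exact map_zero _
  map_add' s s' := by
    apply QuadraticAlgebra.ext
    · exact map_add _ _ _
    · exact map_add _ _ _
  map_mul' s s' := by
    apply QuadraticAlgebra.ext
    · show algebraMap _ _ (s.re * s'.re + QM a c * s.im * s'.im) = _ * _ + _ * _ * _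
      rw [map_add, map_mul, map_mul, map_mul]
    · show algebraMap _ _ (s.re * s'.im + s.im * s'.re + 0 * s.im * s'.im) =
        _ * _ + _ * _ + 0 * _ * _
      rw [map_add, map_add, map_mul, map_mul]
      simp

theorem toLQ_injective [IsDomain A] : Function.Injective (toLQ a c) := by
  intro s s' h
  have h1 : Function.Injective (algebraMap (MvPolynomial (Fin 3) A) (KK A)) :=
    IsFractionRing.injective _ _
  exact QuadraticAlgebra.ext (h1 (congrArg QuadraticAlgebra.re h))
    (h1 (congrArg QuadraticAlgebra.im h))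

/-- the embedding of the graded ring in the function field -/
noncomputable def jX : RX a c →+* LQ a c := (toLQ a c).comp (RX a c).val.toRingHom

theorem jX_injective [IsDomain A] : Function.Injective (jX a c) :=
  (toLQ_injective a c).comp Subtype.val_injective

/-! ## Values in the function field -/

section charts

variable [IsDomain A]

theorem geX_ne (i : Fin 8) : geX a c i ≠ 0 := by
  intro h
  have h1 : genX a c i = 0 := congrArg Subtype.val h
  have hr := congrArg QuadraticAlgebra.re h1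
  have hi := congrArg QuadraticAlgebra.im h1
  fin_cases i
  · exact RtAway.gen_ne (0 : A) 0 hr
  · exact RtAway.gen_ne (0 : A) 1 hr
  · exact RtAway.gen_ne (0 : A) 2 hr
  · exact RtAway.gen_ne (0 : A) 3 hr
  · exact RtAway.gen_ne (0 : A) 4 hr
  · exact RtAway.gen_ne (0 : A) 5 hr
  · exact RtAway.gen_ne (0 : A) 0 hi
  · exact RtAway.gen_ne (0 : A) 1 hi

/-- evaluation of polynomials in two variables at fractions of generators -/
noncomputable def ev (i j₁ j₂ : Fin 6) : MvPolynomial (Fin 2) A →+* KK A :=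
  eval₂Hom ((algebraMap (MvPolynomial (Fin 3) A) (KK A)).comp C)
    ![algebraMap (MvPolynomial (Fin 3) A) (KK A) (gen (0 : A) j₁) / algebraMap _ (KK A) (gen (0 : A) i),
      algebraMap (MvPolynomial (Fin 3) A) (KK A) (gen (0 : A) j₂) / algebraMap _ (KK A) (gen (0 : A) i)]

theorem ev_injective (i j₁ j₂ : Fin 6)
    (h : Function.Injective (eval₂Hom (cst (0 : A) i) ![fr 0 i j₁, fr 0 i j₂])) :
    Function.Injective (ev (A := A) i j₁ j₂) := by
  have h3 : (RtAway.toK (0 : A) i).comp (eval₂Hom (cst (0 : A) i) ![fr 0 i j₁, fr 0 i j₂]) =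
      ev i j₁ j₂ := by
    apply MvPolynomial.ringHom_ext
    · intro r
      rw [ev, RingHom.comp_apply, coe_eval₂Hom, eval₂_C, RtAway.toK_cst, coe_eval₂Hom, eval₂_C]
      rfl
    · intro m
      rw [ev, RingHom.comp_apply, coe_eval₂Hom, eval₂_X, coe_eval₂Hom, eval₂_X]
      fin_cases m
      · exact RtAway.toK_fr 0 i j₁
      · exact RtAway.toK_fr 0 i j₂
  rw [← h3]
  exact (RtAway.toK_injective 0 i).comp h

variable [Fact (∀ r : KK A, r ^ 2 ≠ algebraMap _ (KK A) (QM a c) + 0 * r)]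

/-- the inclusion of the six generators of the graded ring of `F_2` -/
abbrev i8 (i : Fin 6) : Fin 8 := i.castLE (by norm_num)

/-- the fraction `g_j / g_i` -/
noncomputable def frX (i j : Fin 8) : Away (grX a c) (geX a c i) :=
  frac (grX a c) (geX_mem a c i) (geX_mem a c j)

theorem jX_geX (i : Fin 6) : jX a c (geX a c (i8 i)) =
    algebraMap (KK A) (LQ a c) (algebraMap _ (KK A) (gen (0 : A) i)) := by
  fin_cases i
  all_goals
    apply QuadraticAlgebra.ext
    · rfl
    · exact map_zero _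

theorem jX_geX6 : jX a c (geX a c 6) = ⟨0, algebraMap _ (KK A) (gen (0 : A) 0)⟩ := by
  apply QuadraticAlgebra.ext
  · exact map_zero _
  · rfl

theorem jX_geX7 : jX a c (geX a c 7) = ⟨0, algebraMap _ (KK A) (gen (0 : A) 1)⟩ := by
  apply QuadraticAlgebra.ext
  · exact map_zero _
  · rfl

/-- the value in the function field -/
noncomputable def kX (i : Fin 8) : Away (grX a c) (geX a c i) →+* LQ a c :=
  kap (grX a c) (jX_injective a c) (geX_ne a c i)

theorem kX_injective (i : Fin 8) : Function.Injective (kX a c i) :=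
  kap_injective (grX a c) _ _ (geX_mem a c i)

theorem kX_frX (i j : Fin 8) : kX a c i (frX a c i j) = jX a c (geX a c j) / jX a c (geX a c i) :=
  kap_frac _ _ _ _ _

theorem kX_fr (i j : Fin 6) : kX a c (i8 i) (frX a c (i8 i) (i8 j)) =
    algebraMap (KK A) (LQ a c)
      (algebraMap _ (KK A) (gen (0 : A) j) / algebraMap _ (KK A) (gen (0 : A) i)) := by
  rw [kX_frX, jX_geX, jX_geX, ← map_div₀]

/-- polynomials in the two coordinates -/
noncomputable def phX (i j₁ j₂ : Fin 6) :
    MvPolynomial (Fin 2) A →+* Away (grX a c) (geX a c (i8 i)) :=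
  eval₂Hom (cstA (grX a c) (geX a c (i8 i))) ![frX a c (i8 i) (i8 j₁), frX a c (i8 i) (i8 j₂)]

theorem kX_phX (i j₁ j₂ : Fin 6) (P : MvPolynomial (Fin 2) A) :
    kX a c (i8 i) (phX a c i j₁ j₂ P) = algebraMap (KK A) (LQ a c) (ev i j₁ j₂ P) := by
  have h : (kX a c (i8 i)).comp (phX a c i j₁ j₂) =
      (algebraMap (KK A) (LQ a c)).comp (ev i j₁ j₂) := by
    apply MvPolynomial.ringHom_ext
    · intro r
      rw [RingHom.comp_apply, RingHom.comp_apply, phX, ev, coe_eval₂Hom, eval₂_C, coe_eval₂Hom,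
        eval₂_C]
      refine (kap_cstA _ _ _ _).trans ?_
      apply QuadraticAlgebra.ext
      · rfl
      · exact map_zero _
    · intro m
      rw [RingHom.comp_apply, RingHom.comp_apply, phX, ev, coe_eval₂Hom, eval₂_X, coe_eval₂Hom,
        eval₂_X]
      fin_cases m
      · exact kX_fr a c i j₁
      · exact kX_fr a c i j₂
  exact congrArg (fun f => f P) h

theorem mul_mk0 (r w : KK A) : (algebraMap (KK A) (LQ a c) r) * (⟨0, w⟩ : LQ a c) = ⟨0, r * w⟩ := by
  apply QuadraticAlgebra.ext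
  · show r * 0 + _ * 0 * w = 0
    ring
  · show r * w + 0 * 0 + 0 * 0 * w = r * w
    ring

/-- injectivity of the coordinates of a chart -/
theorem inj_chart (i j₁ j₂ : Fin 6) (j₃ : Fin 8)
    (h : Function.Injective (eval₂Hom (cst (0 : A) i) ![fr 0 i j₁, fr 0 i j₂])) {w : KK A}
    (hw : w ≠ 0) (h3 : jX a c (geX a c j₃) = ⟨0, w⟩) :
    Function.Injective fun P : MvPolynomial (Fin 2) A × MvPolynomial (Fin 2) A =>
      phX a c i j₁ j₂ P.1 + phX a c i j₁ j₂ P.2 * frX a c (i8 i) j₃ := by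
  have hv := (RtAway.gen_unit (0 : A) i).ne_zero
  set v := algebraMap (MvPolynomial (Fin 3) A) (KK A) (gen (0 : A) i) with hvd
  have hk : ∀ P : MvPolynomial (Fin 2) A × MvPolynomial (Fin 2) A,
      kX a c (i8 i) (phX a c i j₁ j₂ P.1 + phX a c i j₁ j₂ P.2 * frX a c (i8 i) j₃) =
      ⟨ev i j₁ j₂ P.1, ev i j₁ j₂ P.2 * (w / v)⟩ := by
    intro P
    have h4 : kX a c (i8 i) (frX a c (i8 i) j₃) = ⟨0, w / v⟩ := by
      rw [kX_frX, h3, jX_geX, ← hvd, div_eq_iff (by
        rw [Ne, map_eq_zero_iff _ (algebraMap (KK A) (LQ a c)).injective]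
        exact hv), mul_comm, mul_mk0, mul_div_cancel₀ _ hv]
    rw [map_add, map_mul, kX_phX, kX_phX, h4, mul_mk0]
    apply QuadraticAlgebra.ext
    · show ev i j₁ j₂ P.1 + 0 = _
      rw [add_zero]
    · show 0 + _ = _
      rw [zero_add]
  intro P P' hP
  have h5 := congrArg (kX a c (i8 i)) hP
  simp only [hk] at h5
  have h6 := congrArg QuadraticAlgebra.re h5
  have h7 := congrArg QuadraticAlgebra.im h5
  have hwv : w / v ≠ 0 := div_ne_zero hw hv
  exact Prod.ext (ev_injective i j₁ j₂ h h6) (ev_injective i j₁ j₂ h (mul_right_cancel₀ hwv h7))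

/-! ### Products of generators -/

theorem geX_mul (m i u v : Fin 6) (h : gen (0 : A) m * gen 0 i = gen 0 u * gen 0 v) :
    geX a c (i8 m) * geX a c (i8 i) = geX a c (i8 u) * geX a c (i8 v) := by
  apply jX_injective
  rw [map_mul, map_mul, jX_geX, jX_geX, jX_geX, jX_geX, ← map_mul, ← map_mul, ← map_mul,
    ← map_mul, h]

theorem geX7_mul (i u : Fin 6) (h : gen (0 : A) 1 * gen 0 i = gen 0 u * gen 0 0) :
    geX a c 7 * geX a c (i8 i) = geX a c (i8 u) * geX a c 6 := by
  apply jX_injective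
  rw [map_mul, map_mul, jX_geX, jX_geX, jX_geX6, jX_geX7, mul_comm, mul_mk0, mul_mk0,
    ← map_mul, ← map_mul, ← h, mul_comm (gen (0 : A) i)]

theorem geX6_mul (i u : Fin 6) (h : gen (0 : A) 0 * gen 0 i = gen 0 u * gen 0 1) :
    geX a c 6 * geX a c (i8 i) = geX a c (i8 u) * geX a c 7 := by
  apply jX_injective
  rw [map_mul, map_mul, jX_geX, jX_geX, jX_geX6, jX_geX7, mul_comm, mul_mk0, mul_mk0,
    ← map_mul, ← map_mul, ← h, mul_comm (gen (0 : A) i)]

theorem frX_mul {i m u v : Fin 8} (h : geX a c m * geX a c i = geX a c u * geX a c v) :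
    frX a c i m = frX a c i u * frX a c i v :=
  frac_eq_mul (grX a c) (jX_injective a c) (geX_ne a c i) _ _ _ _ h

theorem frX_self (i : Fin 8) : frX a c i i = 1 :=
  frac_self (grX a c) (jX_injective a c) (geX_ne a c i) _

/-- constants -/
noncomputable abbrev cX (i : Fin 8) : A →+* Away (grX a c) (geX a c i) :=
  cstA (grX a c) (geX a c i)

theorem kX_cX (i : Fin 8) (r : A) : kX a c i (cX a c i r) = jX a c (algebraMap A (RX a c) r) :=
  kap_cstA _ _ _ _

theorem frX6_sq (i : Fin 8) : frX a c i 6 ^ 2 = cX a c i a * frX a c i 0 ^ 2 +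
    cX a c i (c 0) * frX a c i 2 ^ 2 + cX a c i (c 1) * (frX a c i 2 * frX a c i 3) +
    cX a c i (c 2) * frX a c i 3 ^ 2 + cX a c i (c 3) * (frX a c i 3 * frX a c i 4) +
    cX a c i (c 4) * frX a c i 4 ^ 2 := by
  apply kX_injective
  have h := congrArg (jX a c) (geX6_sq a c)
  have h0 : jX a c (geX a c i) ≠ 0 := j_ne_zero (jX_injective a c) (geX_ne a c i)
  simp only [map_add, map_mul, map_pow] at h
  simp only [map_add, map_mul, map_pow, kX_frX, kX_cX]
  field_simp
  linear_combination h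

theorem frX7_sq (i : Fin 8) : frX a c i 7 ^ 2 = cX a c i a * frX a c i 1 ^ 2 +
    cX a c i (c 0) * frX a c i 3 ^ 2 + cX a c i (c 1) * (frX a c i 3 * frX a c i 4) +
    cX a c i (c 2) * frX a c i 4 ^ 2 + cX a c i (c 3) * (frX a c i 4 * frX a c i 5) +
    cX a c i (c 4) * frX a c i 5 ^ 2 := by
  apply kX_injective
  have h := congrArg (jX a c) (geX7_sq a c)
  have h0 : jX a c (geX a c i) ≠ 0 := j_ne_zero (jX_injective a c) (geX_ne a c i)
  simp only [map_add, map_mul, map_pow] at h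
  simp only [map_add, map_mul, map_pow, kX_frX, kX_cX]
  field_simp
  linear_combination h

theorem surj_chart (i j₁ j₂ : Fin 6) (j₃ : Fin 8)
    (hm : ∀ m : Fin 6, frX a c (i8 i) (i8 m) ∈ (phX a c i j₁ j₂).range)
    (he : ∃ P, phX a c i j₁ j₂ P = frX a c (i8 i) j₃ ^ 2)
    (h6 : frX a c (i8 i) 6 ∈ twoSub (phX a c i j₁ j₂) (frX a c (i8 i) j₃) he)
    (h7 : frX a c (i8 i) 7 ∈ twoSub (phX a c i j₁ j₂) (frX a c (i8 i) j₃) he) :
    Function.Surjective fun P : MvPolynomial (Fin 2) A × MvPolynomial (Fin 2) A =>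
      phX a c i j₁ j₂ P.1 + phX a c i j₁ j₂ P.2 * frX a c (i8 i) j₃ := by
  intro b
  refine eq_top_of_frac (grX a c) (jX_injective a c) (geX a c) (geX_mem a c) (adjoin_geX a c)
    (fun r => (bijective_algebraMap_grX_zero a c).2 r) (i8 i) (geX_ne a c _)
    (twoSub (phX a c i j₁ j₂) (frX a c (i8 i) j₃) he) (fun s => ?_) (fun m => ?_) b
  · have h : cstA (grX a c) (geX a c (i8 i)) s = phX a c i j₁ j₂ (C s) := by
      rw [phX, coe_eval₂Hom, eval₂_C]
    rw [h]
    exact map_mem_twoSub _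
  · have hr : ∀ m : Fin 6, frX a c (i8 i) (i8 m) ∈
        twoSub (phX a c i j₁ j₂) (frX a c (i8 i) j₃) he := by
      intro m
      obtain ⟨P, hP⟩ := hm m
      rw [← hP]
      exact map_mem_twoSub P
    fin_cases m
    · exact hr 0
    · exact hr 1
    · exact hr 2
    · exact hr 3
    · exact hr 4
    · exact hr 5
    · exact h6
    · exact h7

theorem x_mem (i j₁ j₂ : Fin 6) : frX a c (i8 i) (i8 j₁) ∈ (phX a c i j₁ j₂).range :=
  ⟨X 0, by rw [phX, coe_eval₂Hom, eval₂_X]; rfl⟩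

theorem y_mem (i j₁ j₂ : Fin 6) : frX a c (i8 i) (i8 j₂) ∈ (phX a c i j₁ j₂).range :=
  ⟨X 1, by rw [phX, coe_eval₂Hom, eval₂_X]; rfl⟩

theorem c_mem (i j₁ j₂ : Fin 6) (r : A) : cX a c (i8 i) r ∈ (phX a c i j₁ j₂).range :=
  ⟨C r, by rw [phX, coe_eval₂Hom, eval₂_C]⟩

theorem sq_mem (i j₁ j₂ : Fin 6)
    (hm : ∀ m : Fin 6, frX a c (i8 i) (i8 m) ∈ (phX a c i j₁ j₂).range) :
    frX a c (i8 i) 6 ^ 2 ∈ (phX a c i j₁ j₂).range ∧
      frX a c (i8 i) 7 ^ 2 ∈ (phX a c i j₁ j₂).range := by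
  have m0 := hm 0
  have m1 := hm 1
  have m2 := hm 2
  have m3 := hm 3
  have m4 := hm 4
  have m5 := hm 5
  have hc := c_mem a c i j₁ j₂
  constructor
  · rw [frX6_sq]
    exact add_mem (add_mem (add_mem (add_mem (add_mem
      (mul_mem (hc _) (pow_mem m0 2)) (mul_mem (hc _) (pow_mem m2 2)))
      (mul_mem (hc _) (mul_mem m2 m3))) (mul_mem (hc _) (pow_mem m3 2)))
      (mul_mem (hc _) (mul_mem m3 m4))) (mul_mem (hc _) (pow_mem m4 2))
  · rw [frX7_sq]
    exact add_mem (add_mem (add_mem (add_mem (add_mem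
      (mul_mem (hc _) (pow_mem m1 2)) (mul_mem (hc _) (pow_mem m3 2)))
      (mul_mem (hc _) (mul_mem m3 m4))) (mul_mem (hc _) (pow_mem m4 2)))
      (mul_mem (hc _) (mul_mem m4 m5))) (mul_mem (hc _) (pow_mem m5 2))

/-! ### The four bijections -/

theorem bijX0 : Function.Bijective fun P : MvPolynomial (Fin 2) A × MvPolynomial (Fin 2) A =>
    phX a c 0 1 2 P.1 + phX a c 0 1 2 P.2 * frX a c (i8 0) 6 := by
  refine ⟨inj_chart a c 0 1 2 6 (bij_chart0 (0 : A)).1
    (RtAway.gen_unit (0 : A) 0).ne_zero (jX_geX6 a c), ?_⟩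
  have hx : frX a c (i8 0) (i8 1) ∈ (phX a c 0 1 2).range := x_mem a c 0 1 2
  have hy : frX a c (i8 0) (i8 2) ∈ (phX a c 0 1 2).range := y_mem a c 0 1 2
  have m0 : frX a c (i8 0) (i8 0) ∈ (phX a c 0 1 2).range := by
    rw [frX_self]
    exact one_mem _
  have m3 : frX a c (i8 0) (i8 3) ∈ (phX a c 0 1 2).range := by
    rw [frX_mul a c (geX_mul a c 3 0 1 2 (by simp [gen]; try ring))]
    exact mul_mem hx hy
  have m4 : frX a c (i8 0) (i8 4) ∈ (phX a c 0 1 2).range := by
    rw [frX_mul a c (geX_mul a c 4 0 1 3 (by simp [gen]; try ring))]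
    exact mul_mem hx m3
  have m5 : frX a c (i8 0) (i8 5) ∈ (phX a c 0 1 2).range := by
    rw [frX_mul a c (geX_mul a c 5 0 1 4 (by simp [gen]; try ring))]
    exact mul_mem hx m4
  have hm : ∀ m : Fin 6, frX a c (i8 0) (i8 m) ∈ (phX a c 0 1 2).range := by
    intro m
    fin_cases m
    · exact m0
    · exact hx
    · exact hy
    · exact m3
    · exact m4
    · exact m5
  have he := RingHom.mem_range.1 (sq_mem a c 0 1 2 hm).1
  have h7 : frX a c (i8 0) 7 ∈ twoSub (phX a c 0 1 2) (frX a c (i8 0) 6) he := by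
    rw [frX_mul a c (geX7_mul a c 0 1 (by simp [gen]; try ring))]
    obtain ⟨P, hP⟩ := hx
    refine mul_mem ?_ self_mem_twoSub
    rw [← hP]
    exact map_mem_twoSub P
  exact surj_chart a c 0 1 2 6 hm he self_mem_twoSub h7

theorem bijX1 : Function.Bijective fun P : MvPolynomial (Fin 2) A × MvPolynomial (Fin 2) A =>
    phX a c 2 3 0 P.1 + phX a c 2 3 0 P.2 * frX a c (i8 2) 6 := by
  refine ⟨inj_chart a c 2 3 0 6 (bij_chart1 (0 : A)).1
    (RtAway.gen_unit (0 : A) 0).ne_zero (jX_geX6 a c), ?_⟩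
  have hx : frX a c (i8 2) (i8 3) ∈ (phX a c 2 3 0).range := x_mem a c 2 3 0
  have hy : frX a c (i8 2) (i8 0) ∈ (phX a c 2 3 0).range := y_mem a c 2 3 0
  have m2 : frX a c (i8 2) (i8 2) ∈ (phX a c 2 3 0).range := by
    rw [frX_self]
    exact one_mem _
  have m1 : frX a c (i8 2) (i8 1) ∈ (phX a c 2 3 0).range := by
    rw [frX_mul a c (geX_mul a c 1 2 3 0 (by simp [gen]; try ring))]
    exact mul_mem hx hy
  have m4 : frX a c (i8 2) (i8 4) ∈ (phX a c 2 3 0).range := by
    rw [frX_mul a c (geX_mul a c 4 2 3 3 (by simp [gen]; try ring))]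
    exact mul_mem hx hx
  have m5 : frX a c (i8 2) (i8 5) ∈ (phX a c 2 3 0).range := by
    rw [frX_mul a c (geX_mul a c 5 2 3 4 (by simp [gen]; try ring))]
    exact mul_mem hx m4
  have hm : ∀ m : Fin 6, frX a c (i8 2) (i8 m) ∈ (phX a c 2 3 0).range := by
    intro m
    fin_cases m
    · exact hy
    · exact m1
    · exact m2
    · exact hx
    · exact m4
    · exact m5
  have he := RingHom.mem_range.1 (sq_mem a c 2 3 0 hm).1
  have h7 : frX a c (i8 2) 7 ∈ twoSub (phX a c 2 3 0) (frX a c (i8 2) 6) he := by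
    rw [frX_mul a c (geX7_mul a c 2 3 (by simp [gen]; try ring))]
    obtain ⟨P, hP⟩ := hx
    refine mul_mem ?_ self_mem_twoSub
    rw [← hP]
    exact map_mem_twoSub P
  exact surj_chart a c 2 3 0 6 hm he self_mem_twoSub h7

theorem bijX2 : Function.Bijective fun P : MvPolynomial (Fin 2) A × MvPolynomial (Fin 2) A =>
    phX a c 1 0 5 P.1 + phX a c 1 0 5 P.2 * frX a c (i8 1) 7 := by
  refine ⟨inj_chart a c 1 0 5 7 (bij_chart2 (0 : A)).1
    (RtAway.gen_unit (0 : A) 1).ne_zero (jX_geX7 a c), ?_⟩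
  have hx : frX a c (i8 1) (i8 0) ∈ (phX a c 1 0 5).range := x_mem a c 1 0 5
  have hy : frX a c (i8 1) (i8 5) ∈ (phX a c 1 0 5).range := y_mem a c 1 0 5
  have m1 : frX a c (i8 1) (i8 1) ∈ (phX a c 1 0 5).range := by
    rw [frX_self]
    exact one_mem _
  have m4 : frX a c (i8 1) (i8 4) ∈ (phX a c 1 0 5).range := by
    rw [frX_mul a c (geX_mul a c 4 1 0 5 (by simp [gen]; try ring))]
    exact mul_mem hx hy
  have m3 : frX a c (i8 1) (i8 3) ∈ (phX a c 1 0 5).range := by
    rw [frX_mul a c (geX_mul a c 3 1 0 4 (by simp [gen]; try ring))]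
    exact mul_mem hx m4
  have m2 : frX a c (i8 1) (i8 2) ∈ (phX a c 1 0 5).range := by
    rw [frX_mul a c (geX_mul a c 2 1 0 3 (by simp [gen]; try ring))]
    exact mul_mem hx m3
  have hm : ∀ m : Fin 6, frX a c (i8 1) (i8 m) ∈ (phX a c 1 0 5).range := by
    intro m
    fin_cases m
    · exact hx
    · exact m1
    · exact m2
    · exact m3
    · exact m4
    · exact hy
  have he := RingHom.mem_range.1 (sq_mem a c 1 0 5 hm).2
  have h7 : frX a c (i8 1) 6 ∈ twoSub (phX a c 1 0 5) (frX a c (i8 1) 7) he := by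
    rw [frX_mul a c (geX6_mul a c 1 0 (by simp [gen]; try ring))]
    obtain ⟨P, hP⟩ := hx
    refine mul_mem ?_ self_mem_twoSub
    rw [← hP]
    exact map_mem_twoSub P
  exact surj_chart a c 1 0 5 7 hm he h7 self_mem_twoSub

theorem bijX3 : Function.Bijective fun P : MvPolynomial (Fin 2) A × MvPolynomial (Fin 2) A =>
    phX a c 5 4 1 P.1 + phX a c 5 4 1 P.2 * frX a c (i8 5) 7 := by
  refine ⟨inj_chart a c 5 4 1 7 (bij_chart3 (0 : A)).1
    (RtAway.gen_unit (0 : A) 1).ne_zero (jX_geX7 a c), ?_⟩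
  have hx : frX a c (i8 5) (i8 4) ∈ (phX a c 5 4 1).range := x_mem a c 5 4 1
  have hy : frX a c (i8 5) (i8 1) ∈ (phX a c 5 4 1).range := y_mem a c 5 4 1
  have m5 : frX a c (i8 5) (i8 5) ∈ (phX a c 5 4 1).range := by
    rw [frX_self]
    exact one_mem _
  have m0 : frX a c (i8 5) (i8 0) ∈ (phX a c 5 4 1).range := by
    rw [frX_mul a c (geX_mul a c 0 5 4 1 (by simp [gen]; try ring))]
    exact mul_mem hx hy
  have m3 : frX a c (i8 5) (i8 3) ∈ (phX a c 5 4 1).range := by
    rw [frX_mul a c (geX_mul a c 3 5 4 4 (by simp [gen]; try ring))]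
    exact mul_mem hx hx
  have m2 : frX a c (i8 5) (i8 2) ∈ (phX a c 5 4 1).range := by
    rw [frX_mul a c (geX_mul a c 2 5 4 3 (by simp [gen]; try ring))]
    exact mul_mem hx m3
  have hm : ∀ m : Fin 6, frX a c (i8 5) (i8 m) ∈ (phX a c 5 4 1).range := by
    intro m
    fin_cases m
    · exact m0
    · exact hy
    · exact m2
    · exact m3
    · exact hx
    · exact m5
  have he := RingHom.mem_range.1 (sq_mem a c 5 4 1 hm).2
  have h7 : frX a c (i8 5) 6 ∈ twoSub (phX a c 5 4 1) (frX a c (i8 5) 7) he := by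
    rw [frX_mul a c (geX6_mul a c 5 4 (by simp [gen]; try ring))]
    obtain ⟨P, hP⟩ := hx
    refine mul_mem ?_ self_mem_twoSub
    rw [← hP]
    exact map_mem_twoSub P
  exact surj_chart a c 5 4 1 7 hm he h7 self_mem_twoSub

end charts

end Orl
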