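import Pool.Agent.Work.MP_a6e60d_ag.Sch.XRing

/-!
# The graded ring of the Châtelet surface: degree zero, generators, the four charts cover
-/

open CategoryTheory Limits TopologicalSpace AlgebraicGeometry Opposite MvPolynomial
open HomogeneousLocalization

attribute [-instance] CategoryTheory.catToReflQuiver

namespace Orl

open Fdim

variable {A : Type} [CommRing A] (a : A) (c : Fin 5 → A)

/-! ## Degree zero -/

theorem killT_RX {s : SS a c} (hs : s ∈ RX a c) :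
    (∃ r : A, killT A s.re = C r) ∧ killT A s.im = 0 := by
  induction hs using Algebra.adjoin_induction with
  | mem x hx =>
    obtain ⟨i, rfl⟩ := hx
    fin_cases i
    · exact ⟨⟨0, by simp [genX, killT_gen]⟩, by simp [genX]⟩
    · exact ⟨⟨0, by simp [genX, killT_gen]⟩, by simp [genX]⟩
    · exact ⟨⟨0, by simp [genX, killT_gen]⟩, by simp [genX]⟩
    · exact ⟨⟨0, by simp [genX, killT_gen]⟩, by simp [genX]⟩
    · exact ⟨⟨0, by simp [genX, killT_gen]⟩, by simp [genX]⟩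
    · exact ⟨⟨0, by simp [genX, killT_gen]⟩, by simp [genX]⟩
    · exact ⟨⟨0, by simp [genX]⟩, by simp [genX, killT_gen]⟩
    · exact ⟨⟨0, by simp [genX]⟩, by simp [genX, killT_gen]⟩
  | algebraMap r =>
    refine ⟨⟨r, ?_⟩, ?_⟩
    · show killT A (C r) = C r
      simp [killT]
    · show killT A 0 = 0
      simp
  | add x y _ _ hx hy =>
    obtain ⟨⟨r, hr⟩, hx⟩ := hx
    obtain ⟨⟨s, hs⟩, hy⟩ := hy
    refine ⟨⟨r + s, ?_⟩, ?_⟩
    · rw [QuadraticAlgebra.re_add, map_add, hr, hs, map_add]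
    · rw [QuadraticAlgebra.im_add, map_add, hx, hy, add_zero]
  | mul x y _ _ hx hy =>
    obtain ⟨⟨r, hr⟩, hx⟩ := hx
    obtain ⟨⟨s, hs⟩, hy⟩ := hy
    refine ⟨⟨r * s, ?_⟩, ?_⟩
    · rw [QuadraticAlgebra.re_mul, map_add, map_mul, map_mul, map_mul, hr, hs, hx, mul_zero,
        zero_mul, add_zero, map_mul]
    · rw [QuadraticAlgebra.im_mul, map_add, map_add, map_mul, map_mul, hx, hy, mul_zero,
        zero_mul, zero_add, zero_mul, zero_mul, map_zero, add_zero]

theorem mem_grX_zero {r : RX a c} : r ∈ grX a c 0 ↔ ∃ s : A, algebraMap A (RX a c) s = r := by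
  constructor
  · intro hr
    have hr' : (r : SS a c) ∈ grS a c 0 := hr
    obtain ⟨⟨s, hs⟩, h0⟩ := killT_RX a c r.2
    refine ⟨s, Subtype.ext ?_⟩
    rw [killT_of_mem_zero hr'.1] at hs
    rw [killT_of_mem_zero hr'.2] at h0
    exact QuadraticAlgebra.ext hs.symm h0.symm
  · rintro ⟨s, rfl⟩
    exact SetLike.algebraMap_mem_graded (grX a c) s

theorem algebraMap_SS (s : A) : algebraMap A (SS a c) s = ⟨C s, 0⟩ := rfl

theorem bijective_algebraMap_grX_zero : Function.Bijective (algebraMap A (grX a c 0)) := by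
  constructor
  · intro r s h
    have h1 : algebraMap A (RX a c) r = algebraMap A (RX a c) s := congrArg Subtype.val h
    have h2 : algebraMap A (SS a c) r = algebraMap A (SS a c) s := congrArg Subtype.val h1
    rw [algebraMap_SS, algebraMap_SS] at h2
    exact C_injective _ _ (congrArg QuadraticAlgebra.re h2)
  · intro r
    obtain ⟨s, hs⟩ := (mem_grX_zero a c).1 r.2
    exact ⟨s, Subtype.ext hs⟩

/-! ## Generators -/

theorem adjoin_geX_base : Algebra.adjoin A (Set.range (geX a c)) = ⊤ := by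
  have h : Set.range (geX a c) = ((↑) : RX a c → SS a c) ⁻¹' (Set.range (genX a c)) := by
    ext r
    constructor
    · rintro ⟨i, rfl⟩
      exact ⟨i, rfl⟩
    · rintro ⟨i, hi⟩
      exact ⟨i, Subtype.ext hi⟩
  rw [h]
  exact Algebra.adjoin_adjoin_coe_preimage

theorem adjoin_geX : Algebra.adjoin (grX a c 0) (Set.range (geX a c)) = ⊤ := by
  rw [eq_top_iff]
  intro r _
  have hr : r ∈ Algebra.adjoin A (Set.range (geX a c)) := by
    rw [adjoin_geX_base]
    trivial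
  have : IsScalarTower A (grX a c 0) (RX a c) :=
    IsScalarTower.of_algebraMap_eq (R := A) (S := grX a c 0) (A := RX a c) fun _ => rfl
  exact Algebra.adjoin_le (S := (Algebra.adjoin (grX a c 0)
    (Set.range (geX a c))).restrictScalars A) Algebra.subset_adjoin hr

/-! ## The four charts cover -/

theorem mk_mul (f g f' g' : MvPolynomial (Fin 3) A) :
    (⟨f, g⟩ * ⟨f', g'⟩ : SS a c) = ⟨f * f' + QM a c * (g * g'), f * g' + g * f'⟩ := by
  apply QuadraticAlgebra.ext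
  · show f * f' + QM a c * g * g' = _
    ring
  · show f * g' + g * f' + 0 * g * g' = _
    ring

theorem mk_add (f g f' g' : MvPolynomial (Fin 3) A) :
    (⟨f, g⟩ + ⟨f', g'⟩ : SS a c) = ⟨f + f', g + g'⟩ := rfl

theorem geX3_sq : geX a c 3 ^ 2 = geX a c 2 * geX a c 4 := by
  apply Subtype.ext
  change (⟨gen 0 3, 0⟩ : SS a c) ^ 2 = ⟨gen 0 2, 0⟩ * ⟨gen 0 4, 0⟩
  simp only [pow_two, mk_mul]
  apply QuadraticAlgebra.ext
  · simp [gen]
    ring
  · simp

theorem geX4_sq : geX a c 4 ^ 2 = geX a c 5 * geX a c 3 := by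
  apply Subtype.ext
  change (⟨gen 0 4, 0⟩ : SS a c) ^ 2 = ⟨gen 0 5, 0⟩ * ⟨gen 0 3, 0⟩
  simp only [pow_two, mk_mul]
  apply QuadraticAlgebra.ext
  · simp [gen]
    ring
  · simp

theorem geX6_sq : geX a c 6 ^ 2 = algebraMap A (RX a c) a * geX a c 0 ^ 2 +
    algebraMap A (RX a c) (c 0) * geX a c 2 ^ 2 +
    algebraMap A (RX a c) (c 1) * (geX a c 2 * geX a c 3) +
    algebraMap A (RX a c) (c 2) * geX a c 3 ^ 2 +
    algebraMap A (RX a c) (c 3) * (geX a c 3 * geX a c 4) +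
    algebraMap A (RX a c) (c 4) * geX a c 4 ^ 2 := by
  apply Subtype.ext
  change (⟨0, gen 0 0⟩ : SS a c) ^ 2 = ⟨C a, 0⟩ * ⟨gen 0 0, 0⟩ ^ 2 +
    ⟨C (c 0), 0⟩ * ⟨gen 0 2, 0⟩ ^ 2 + ⟨C (c 1), 0⟩ * (⟨gen 0 2, 0⟩ * ⟨gen 0 3, 0⟩) +
    ⟨C (c 2), 0⟩ * ⟨gen 0 3, 0⟩ ^ 2 + ⟨C (c 3), 0⟩ * (⟨gen 0 3, 0⟩ * ⟨gen 0 4, 0⟩) +
    ⟨C (c 4), 0⟩ * ⟨gen 0 4, 0⟩ ^ 2
  simp only [pow_two, mk_mul, mk_add]
  apply QuadraticAlgebra.ext
  · simp [gen, QM, Fin.sum_univ_five]
    ring
  · simp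

theorem geX7_sq : geX a c 7 ^ 2 = algebraMap A (RX a c) a * geX a c 1 ^ 2 +
    algebraMap A (RX a c) (c 0) * geX a c 3 ^ 2 +
    algebraMap A (RX a c) (c 1) * (geX a c 3 * geX a c 4) +
    algebraMap A (RX a c) (c 2) * geX a c 4 ^ 2 +
    algebraMap A (RX a c) (c 3) * (geX a c 4 * geX a c 5) +
    algebraMap A (RX a c) (c 4) * geX a c 5 ^ 2 := by
  apply Subtype.ext
  change (⟨0, gen 0 1⟩ : SS a c) ^ 2 = ⟨C a, 0⟩ * ⟨gen 0 1, 0⟩ ^ 2 +
    ⟨C (c 0), 0⟩ * ⟨gen 0 3, 0⟩ ^ 2 + ⟨C (c 1), 0⟩ * (⟨gen 0 3, 0⟩ * ⟨gen 0 4, 0⟩) +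
    ⟨C (c 2), 0⟩ * ⟨gen 0 4, 0⟩ ^ 2 + ⟨C (c 3), 0⟩ * (⟨gen 0 4, 0⟩ * ⟨gen 0 5, 0⟩) +
    ⟨C (c 4), 0⟩ * ⟨gen 0 5, 0⟩ ^ 2
  simp only [pow_two, mk_mul, mk_add]
  apply QuadraticAlgebra.ext
  · simp [gen, QM, Fin.sum_univ_five]
    ring
  · simp

theorem basicOpen_geX3 :
    Proj.basicOpen (grX a c) (geX a c 3) ≤ Proj.basicOpen (grX a c) (geX a c 2) := by
  rw [← Proj.basicOpen_pow (grX a c) (geX a c 3) 2 (by norm_num), geX3_sq, Proj.basicOpen_mul]
  exact inf_le_left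

theorem basicOpen_geX4 :
    Proj.basicOpen (grX a c) (geX a c 4) ≤ Proj.basicOpen (grX a c) (geX a c 5) := by
  rw [← Proj.basicOpen_pow (grX a c) (geX a c 4) 2 (by norm_num), geX4_sq, Proj.basicOpen_mul]
  exact inf_le_left

/-- the union of the four charts -/
noncomputable def cov4 : (Proj (grX a c)).Opens :=
  Proj.basicOpen (grX a c) (geX a c 0) ⊔ Proj.basicOpen (grX a c) (geX a c 2) ⊔
      Proj.basicOpen (grX a c) (geX a c 1) ⊔ Proj.basicOpen (grX a c) (geX a c 5)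

theorem le_cov4 (i : Fin 6) : Proj.basicOpen (grX a c) (geX a c (i.castLE (by norm_num))) ≤
    cov4 a c := by
  fin_cases i
  · exact le_sup_left.trans (le_sup_left.trans le_sup_left)
  · exact le_sup_right.trans le_sup_left
  · exact le_sup_right.trans (le_sup_left.trans le_sup_left)
  · exact (basicOpen_geX3 a c).trans (le_sup_right.trans (le_sup_left.trans le_sup_left))
  · exact (basicOpen_geX4 a c).trans le_sup_right
  · exact le_sup_right

theorem mem_cov4_of {x : Proj (grX a c)} (i : Fin 6)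
    (h : geX a c (i.castLE (by norm_num)) ∉ x.asHomogeneousIdeal) : x ∈ cov4 a c :=
  le_cov4 a c i h

theorem sup_basicOpen_geX : Proj.basicOpen (grX a c) (geX a c 0) ⊔
    Proj.basicOpen (grX a c) (geX a c 2) ⊔ Proj.basicOpen (grX a c) (geX a c 1) ⊔
    Proj.basicOpen (grX a c) (geX a c 5) = ⊤ := by
  rw [eq_top_iff, ← Proj.iSup_basicOpen_eq_top' (grX a c) (geX a c)
    (fun i => ⟨1, geX_mem a c i⟩) (adjoin_geX a c)]
  refine iSup_le fun i => ?_
  change _ ≤ cov4 a c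
  have key : ∀ (j : Fin 8) (x : Proj (grX a c)), x ∈ Proj.basicOpen (grX a c) (geX a c j) →
      (geX a c j ^ 2 ∈ x.asHomogeneousIdeal → False) := by
    intro j x hx h
    have hp : x.asHomogeneousIdeal.toIdeal.IsPrime := x.isPrime
    exact hx (hp.mem_of_pow_mem 2 h)
  fin_cases i
  · exact le_cov4 a c 0
  · exact le_cov4 a c 1
  · exact le_cov4 a c 2
  · exact le_cov4 a c 3
  · exact le_cov4 a c 4
  · exact le_cov4 a c 5
  · intro x hx
    by_contra hn
    have h0 : ∀ i : Fin 6, geX a c (i.castLE (by norm_num)) ∈ x.asHomogeneousIdeal.toIdeal := by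
      intro i
      by_contra h
      exact hn (mem_cov4_of a c i h)
    refine key 6 x hx ?_
    change geX a c 6 ^ 2 ∈ x.asHomogeneousIdeal.toIdeal
    rw [geX6_sq]
    have m0 := h0 0
    have m2 := h0 2
    have m3 := h0 3
    have m4 := h0 4
    simp only [pow_two]
    exact add_mem (add_mem (add_mem (add_mem (add_mem
      (Ideal.mul_mem_left _ _ (Ideal.mul_mem_left _ _ m0))
      (Ideal.mul_mem_left _ _ (Ideal.mul_mem_left _ _ m2)))
      (Ideal.mul_mem_left _ _ (Ideal.mul_mem_left _ _ m3)))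
      (Ideal.mul_mem_left _ _ (Ideal.mul_mem_left _ _ m3)))
      (Ideal.mul_mem_left _ _ (Ideal.mul_mem_left _ _ m4)))
      (Ideal.mul_mem_left _ _ (Ideal.mul_mem_left _ _ m4))
  · intro x hx
    by_contra hn
    have h0 : ∀ i : Fin 6, geX a c (i.castLE (by norm_num)) ∈ x.asHomogeneousIdeal.toIdeal := by
      intro i
      by_contra h
      exact hn (mem_cov4_of a c i h)
    refine key 7 x hx ?_
    change geX a c 7 ^ 2 ∈ x.asHomogeneousIdeal.toIdeal
    rw [geX7_sq]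
    have m1 := h0 1
    have m3 := h0 3
    have m4 := h0 4
    have m5 := h0 5
    simp only [pow_two]
    exact add_mem (add_mem (add_mem (add_mem (add_mem
      (Ideal.mul_mem_left _ _ (Ideal.mul_mem_left _ _ m1))
      (Ideal.mul_mem_left _ _ (Ideal.mul_mem_left _ _ m3)))
      (Ideal.mul_mem_left _ _ (Ideal.mul_mem_left _ _ m4)))
      (Ideal.mul_mem_left _ _ (Ideal.mul_mem_left _ _ m4)))
      (Ideal.mul_mem_left _ _ (Ideal.mul_mem_left _ _ m5)))
      (Ideal.mul_mem_left _ _ (Ideal.mul_mem_left _ _ m5))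

/-- the Châtelet surfaces are projective -/
theorem Xq.isProjective {k : Type} [Field k] [Algebra k A] :
    IsProjective k (Xq.π a c) (Spec.map (CommRingCat.ofHom (algebraMap k A))) :=
  isProjective_prStr (grX a c) (N := 7) (geX a c) (adjoin_geX a c)
    (fun r => (bijective_algebraMap_grX_zero a c).2 r) (geX_mem a c)

end Orl
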