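import Pool.Agent.Work.MP_f714fc_ag.Sch.ChartsOf
import Pool.Agent.Work.MP_a6e60d_ag.Sch.XCharts

/-!
# The charts of `Proj` of a graded ring with eight generators
`T, z T, p T, z p T, z ^ 2 p T, z ^ 3 p T, e T, z e T`, where `e ^ 2 = a + q(z, 1) p ^ 2`
-/

open CategoryTheory Limits TopologicalSpace AlgebraicGeometry Opposite
open HomogeneousLocalization

attribute [-instance] CategoryTheory.catToReflQuiver

namespace Orl

open Fdim

/-- the two dehomogenisations of a binary quartic form -/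
theorem eval₂_qx' {A K : Type} [CommRing A] [Field K] (f : A →+* K) (c : Fin 5 → A) {z : K}
    (hz : z ≠ 0) : (qx' c).eval₂ f z⁻¹ * z ^ 4 = (qx c).eval₂ f z := by
  rw [qx', qx, Polynomial.eval₂_finsetSum, Polynomial.eval₂_finsetSum, Finset.sum_mul]
  refine Finset.sum_congr rfl fun j _ => ?_
  simp only [Polynomial.eval₂_mul, Polynomial.eval₂_C, Polynomial.eval₂_pow,
    Polynomial.eval₂_X, mul_assoc, inv_pow]
  congr 1
  rw [inv_mul_eq_iff_eq_mul₀ (pow_ne_zero _ hz), ← pow_add]
  congr 1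
  omega

section

variable {A R : Type} [CommRing A] [CommRing R] [Algebra A R] (G : ℕ → Submodule A R)
  [GradedAlgebra G]

variable (A) in
/-- eight generators in degree one of a graded domain -/
structure XRing (a : A) (c : Fin 5 → A) where
  /-- a field -/
  K : Type
  [fK : Field K]
  /-- the embedding -/
  j : R →+* K
  hj : Function.Injective j
  /-- the generators -/
  g : Fin 8 → R
  hg : ∀ i, g i ∈ G 1
  /-- the coordinates -/
  z : K
  /-- the coordinates -/
  p : K
  /-- the coordinates -/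
  e : K
  /-- the coordinates -/
  T : K
  hz : z ≠ 0
  hp : p ≠ 0
  he : e ≠ 0
  hT : T ≠ 0
  /-- the equation -/
  eq : e ^ 2 = j (algebraMap A R a) + (qx c).eval₂ (j.comp (algebraMap A R)) z * p ^ 2
  j0 : j (g 0) = T
  j1 : j (g 1) = z * T
  j2 : j (g 2) = p * T
  j3 : j (g 3) = z * p * T
  j4 : j (g 4) = z ^ 2 * p * T
  j5 : j (g 5) = z ^ 3 * p * T
  j6 : j (g 6) = e * T
  j7 : j (g 7) = z * e * T

attribute [instance] XRing.fK

end

namespace XRing

variable {A R : Type} [CommRing A] [CommRing R] [Algebra A R] {G : ℕ → Submodule A R}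
  [GradedAlgebra G] {a : A} {c : Fin 5 → A} (D : XRing A G a c)

omit [GradedAlgebra G] in
theorem g0 (i : Fin 8) : D.g i ≠ 0 := by
  intro h
  have hz := D.hz
  have hp := D.hp
  have he := D.he
  have hT := D.hT
  have h0 : D.j (D.g i) = 0 := by rw [h, map_zero]
  fin_cases i
  · exact hT (D.j0.symm.trans h0)
  · exact mul_ne_zero hz hT (D.j1.symm.trans h0)
  · exact mul_ne_zero hp hT (D.j2.symm.trans h0)
  · exact mul_ne_zero (mul_ne_zero hz hp) hT (D.j3.symm.trans h0)
  · exact mul_ne_zero (mul_ne_zero (pow_ne_zero _ hz) hp) hT (D.j4.symm.trans h0)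
  · exact mul_ne_zero (mul_ne_zero (pow_ne_zero _ hz) hp) hT (D.j5.symm.trans h0)
  · exact mul_ne_zero he hT (D.j6.symm.trans h0)
  · exact mul_ne_zero (mul_ne_zero hz he) hT (D.j7.symm.trans h0)

/-- the fraction `g_j / g_i` -/
noncomputable def fr (i j : Fin 8) : Away G (D.g i) := frac G (D.hg i) (D.hg j)

/-- the value in the field -/
noncomputable def kp (i : Fin 8) : Away G (D.g i) →+* D.K := kap G D.hj (D.g0 i)

theorem kp_fr (i j : Fin 8) : D.kp i (D.fr i j) = D.j (D.g j) / D.j (D.g i) :=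
  kap_frac _ _ _ (D.hg i) (D.hg j)

theorem kp_cstA (i : Fin 8) (b : A) : D.kp i (cstA G (D.g i) b) = D.j (algebraMap A R b) :=
  kap_cstA _ _ _ _

theorem kp_inj (i : Fin 8) : Function.Injective (D.kp i) :=
  kap_injective G _ _ (D.hg i)

/-- the chart -/
noncomputable def V (i : Fin 8) : (Proj G).Opens := Proj.basicOpen G (D.g i)

/-- the section of an element of `R_(g_i)` -/
noncomputable def sc (i : Fin 8) : Away G (D.g i) →+* Γ(Proj G, D.V i) := sct G (D.g i)

theorem str_cst (i : Fin 8) (b : A) :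
    str (prStr G) (D.V i) b = D.sc i (cstA G (D.g i) b) := str_prStr G (D.hg i) b

theorem str_eq (i : Fin 8) :
    str (prStr G) (D.V i) = (D.sc i).comp (cstA G (D.g i)) :=
  RingHom.ext fun b => D.str_cst i b

theorem bO (i j : Fin 8) : D.V i ⊓ D.V j = (Proj G).basicOpen (D.sc i (D.fr i j)) :=
  basicOpen_sct G (D.hg i) (D.hg j)

/-! ### Identities between fractions -/

theorem I03 : D.fr 0 5 = D.fr 0 1 * (D.fr 0 1 * (D.fr 0 1 * D.fr 0 2)) := by
  apply D.kp_inj
  have hT := D.hT
  simp only [map_mul, kp_fr, j0, j1, j2, j5]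
  field_simp

theorem I30 : D.fr 5 0 = D.fr 5 4 * D.fr 5 1 := by
  apply D.kp_inj
  have hT := D.hT
  have hz := D.hz
  have hp := D.hp
  simp only [map_mul, kp_fr, j0, j1, j4, j5]
  field_simp

theorem I12 : D.fr 2 1 = D.fr 2 3 * D.fr 2 0 := by
  apply D.kp_inj
  have hT := D.hT
  have hp := D.hp
  simp only [map_mul, kp_fr, j0, j1, j2, j3]
  field_simp

theorem I21 : D.fr 1 2 = D.fr 1 0 * (D.fr 1 0 * (D.fr 1 0 * D.fr 1 5)) := by
  apply D.kp_inj
  have hT := D.hT
  have hz := D.hz
  simp only [map_mul, kp_fr, j0, j1, j2, j5]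
  field_simp

theorem I13 : D.fr 2 5 = D.fr 2 3 * (D.fr 2 3 * D.fr 2 3) := by
  apply D.kp_inj
  have hT := D.hT
  have hp := D.hp
  simp only [map_mul, kp_fr, j2, j3, j5]
  field_simp

theorem I31 : D.fr 5 2 = D.fr 5 4 * (D.fr 5 4 * D.fr 5 4) := by
  apply D.kp_inj
  have hT := D.hT
  have hz := D.hz
  have hp := D.hp
  simp only [map_mul, kp_fr, j2, j4, j5]
  field_simp

/-! ### Identities on overlaps -/

/-- the value in the field of an element of `R_(g_i g_j)` -/
noncomputable def kp2 (i j : Fin 8) : Away G (D.g i * D.g j) →+* D.K :=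
  kap G D.hj (by
    intro h
    have h1 := congrArg D.j h
    rw [map_mul, map_zero] at h1
    exact mul_ne_zero (j_ne_zero D.hj (D.g0 i)) (j_ne_zero D.hj (D.g0 j)) h1)

theorem kp2_inj (i j : Fin 8) : Function.Injective (D.kp2 i j) :=
  kap_injective G _ _ (SetLike.mul_mem_graded (D.hg i) (D.hg j))

theorem kp2_left (i j : Fin 8) (b : Away G (D.g i)) :
    D.kp2 i j (awayMap G (D.hg j) rfl b) = D.kp i b :=
  kap_awayMap G _ _ _ (D.hg i) (D.hg j) _ b

theorem kp2_right (i j : Fin 8) (b : Away G (D.g j)) :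
    D.kp2 i j (awayMap G (D.hg i) (mul_comm _ _) b) = D.kp j b :=
  kap_awayMap G _ _ _ (D.hg j) (D.hg i) _ b

/-- equality on overlaps can be checked in the field -/
theorem ovl_eq {i j : Fin 8} {b : Away G (D.g i)} {b' : Away G (D.g j)}
    (h : D.kp i b = D.kp j b') :
    rO (inf_le_left : D.V i ⊓ D.V j ≤ D.V i) (D.sc i b) = rO inf_le_right (D.sc j b') := by
  refine ovl_congr G (D.hg i) (D.hg j) ?_
  apply kp2_inj
  rw [kp2_left, kp2_right, h]

/-- a product equal to one on overlaps can be checked in the field -/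
theorem ovl_mul_eq {i j : Fin 8} {b : Away G (D.g i)} {b' : Away G (D.g j)}
    (h : D.kp i b * D.kp j b' = 1) :
    rO (inf_le_left : D.V i ⊓ D.V j ≤ D.V i) (D.sc i b) * rO inf_le_right (D.sc j b') = 1 := by
  refine ovl_one G (D.hg i) (D.hg j) ?_
  apply kp2_inj
  rw [map_mul, kp2_left, kp2_right, h, map_one]

/-- a product on overlaps can be checked in the field -/
theorem ovl_mul_right {i j : Fin 8} {b : Away G (D.g i)} {b' d : Away G (D.g j)}
    (h : D.kp i b * D.kp j b' = D.kp j d) :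
    rO (inf_le_left : D.V i ⊓ D.V j ≤ D.V i) (D.sc i b) * rO inf_le_right (D.sc j b') =
      rO inf_le_right (D.sc j d) := by
  have h1 := ovl_left G (f := D.g i) (D.hg j) b
  have h2 := ovl_right G (g := D.g j) (D.hg i) b'
  have h2' := ovl_right G (g := D.g j) (D.hg i) d
  have h3 : awayMap G (D.hg j) rfl b * awayMap G (D.hg i) (mul_comm (D.g i) (D.g j)) b' =
      awayMap G (D.hg i) (mul_comm (D.g i) (D.g j)) d := by
    apply D.kp2_inj
    rw [map_mul, kp2_left, kp2_right, kp2_right, h]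
  have h4 := congrArg (ovl G (D.g i) (D.g j)) h3
  rw [map_mul] at h4
  exact (congrArg₂ (· * ·) h1 h2).trans (h4.trans h2'.symm)

/-- a product on overlaps can be checked in the field -/
theorem ovl_mul_left {i j : Fin 8} {b d : Away G (D.g i)} {b' : Away G (D.g j)}
    (h : D.kp i b * D.kp j b' = D.kp i d) :
    rO (inf_le_left : D.V i ⊓ D.V j ≤ D.V i) (D.sc i b) * rO inf_le_right (D.sc j b') =
      rO inf_le_left (D.sc i d) := by
  have h1 := ovl_left G (f := D.g i) (D.hg j) b
  have h1' := ovl_left G (f := D.g i) (D.hg j) d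
  have h2 := ovl_right G (g := D.g j) (D.hg i) b'
  have h3 : awayMap G (D.hg j) rfl b * awayMap G (D.hg i) (mul_comm (D.g i) (D.g j)) b' =
      awayMap G (D.hg j) rfl d := by
    apply D.kp2_inj
    rw [map_mul, kp2_left, kp2_left, kp2_right, h]
  have h4 := congrArg (ovl G (D.g i) (D.g j)) h3
  rw [map_mul] at h4
  exact (congrArg₂ (· * ·) h1 h2).trans (h4.trans h1'.symm)

/-! ### The equations -/

/-- an equation in the coordinates can be checked in the field -/
theorem eqn {i : Fin 8} {b b1 b2 b3 : Away G (D.g i)} {f : Polynomial A}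
    (h : D.kp i b ^ 2 = D.j (algebraMap A R a) * D.kp i b1 ^ 2 +
      f.eval₂ (D.j.comp (algebraMap A R)) (D.kp i b2) * D.kp i b3 ^ 2) :
    D.sc i b ^ 2 = str (prStr G) (D.V i) a * D.sc i b1 ^ 2 +
      f.eval₂ (str (prStr G) (D.V i)) (D.sc i b2) * D.sc i b3 ^ 2 := by
  have h1 : b ^ 2 = cstA G (D.g i) a * b1 ^ 2 + f.eval₂ (cstA G (D.g i)) b2 * b3 ^ 2 := by
    apply D.kp_inj
    rw [map_add, map_mul, map_mul, map_pow, map_pow, map_pow, kp_cstA, Polynomial.hom_eval₂, h]
    congr 3
    exact RingHom.ext fun b => (D.kp_cstA i b).symm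
  have h2 := congrArg (D.sc i) h1
  rw [map_add, map_mul, map_mul, map_pow, map_pow, map_pow, Polynomial.hom_eval₂, ← str_cst,
    ← str_eq] at h2
  exact h2

/-! ### The charts -/

theorem bo_cube {X : Scheme.{0}} {U : X.Opens} (a b : Γ(X, U)) :
    X.basicOpen (a * (a * (a * b))) = X.basicOpen (a * b) := by
  simp only [Scheme.basicOpen_mul, inf_left_idem]

theorem bo_cube' {X : Scheme.{0}} {U : X.Opens} (a : Γ(X, U)) :
    X.basicOpen (a * (a * a)) = X.basicOpen a := by
  simp only [Scheme.basicOpen_mul, inf_idem]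

theorem free_of {i : Fin 8} {x y e : Away G (D.g i)}
    (h : Function.Bijective fun P : MvPolynomial (Fin 2) A × MvPolynomial (Fin 2) A =>
      MvPolynomial.eval₂Hom (cstA G (D.g i)) ![x, y] P.1 +
        MvPolynomial.eval₂Hom (cstA G (D.g i)) ![x, y] P.2 * e) :
    Function.Bijective fun P : MvPolynomial (Fin 2) A × MvPolynomial (Fin 2) A =>
      MvPolynomial.eval₂Hom (str (prStr G) (D.V i)) ![D.sc i x, D.sc i y] P.1 +
        MvPolynomial.eval₂Hom (str (prStr G) (D.V i)) ![D.sc i x, D.sc i y] P.2 * D.sc i e := by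
  have h1 : MvPolynomial.eval₂Hom (str (prStr G) (D.V i)) ![D.sc i x, D.sc i y] =
      (D.sc i).comp (MvPolynomial.eval₂Hom (cstA G (D.g i)) ![x, y]) := by
    refine MvPolynomial.ringHom_ext (fun r => ?_) (fun k => ?_)
    · rw [MvPolynomial.coe_eval₂Hom, MvPolynomial.eval₂_C, RingHom.comp_apply,
        MvPolynomial.coe_eval₂Hom, MvPolynomial.eval₂_C]
      exact str_prStr G (D.hg i) r
    · rw [MvPolynomial.coe_eval₂Hom, MvPolynomial.eval₂_X, RingHom.comp_apply,
        MvPolynomial.coe_eval₂Hom, MvPolynomial.eval₂_X]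
      fin_cases k <;> rfl
  rw [h1]
  have h2 : (fun P : MvPolynomial (Fin 2) A × MvPolynomial (Fin 2) A =>
      ((D.sc i).comp (MvPolynomial.eval₂Hom (cstA G (D.g i)) ![x, y])) P.1 +
        ((D.sc i).comp (MvPolynomial.eval₂Hom (cstA G (D.g i)) ![x, y])) P.2 * D.sc i e) =
      (D.sc i) ∘ (fun P : MvPolynomial (Fin 2) A × MvPolynomial (Fin 2) A =>
        MvPolynomial.eval₂Hom (cstA G (D.g i)) ![x, y] P.1 +
          MvPolynomial.eval₂Hom (cstA G (D.g i)) ![x, y] P.2 * e) := by
    funext P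
    simp only [RingHom.comp_apply, Function.comp_apply, map_add, map_mul]
  rw [h2]
  exact (secBij G (D.hg i)).comp h

/-- the charts of `Proj` -/
noncomputable def charts (hcov : D.V 0 ⊔ D.V 2 ⊔ D.V 1 ⊔ D.V 5 = ⊤)
    (h0 : Function.Bijective fun P : MvPolynomial (Fin 2) A × MvPolynomial (Fin 2) A =>
      MvPolynomial.eval₂Hom (cstA G (D.g 0)) ![D.fr 0 1, D.fr 0 2] P.1 +
        MvPolynomial.eval₂Hom (cstA G (D.g 0)) ![D.fr 0 1, D.fr 0 2] P.2 * D.fr 0 6)
    (h1 : Function.Bijective fun P : MvPolynomial (Fin 2) A × MvPolynomial (Fin 2) A =>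
      MvPolynomial.eval₂Hom (cstA G (D.g 2)) ![D.fr 2 3, D.fr 2 0] P.1 +
        MvPolynomial.eval₂Hom (cstA G (D.g 2)) ![D.fr 2 3, D.fr 2 0] P.2 * D.fr 2 6)
    (h2 : Function.Bijective fun P : MvPolynomial (Fin 2) A × MvPolynomial (Fin 2) A =>
      MvPolynomial.eval₂Hom (cstA G (D.g 1)) ![D.fr 1 0, D.fr 1 5] P.1 +
        MvPolynomial.eval₂Hom (cstA G (D.g 1)) ![D.fr 1 0, D.fr 1 5] P.2 * D.fr 1 7)
    (h3 : Function.Bijective fun P : MvPolynomial (Fin 2) A × MvPolynomial (Fin 2) A =>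
      MvPolynomial.eval₂Hom (cstA G (D.g 5)) ![D.fr 5 4, D.fr 5 1] P.1 +
        MvPolynomial.eval₂Hom (cstA G (D.g 5)) ![D.fr 5 4, D.fr 5 1] P.2 * D.fr 5 7) :
    XCharts (.of A) a c (prStr G) where
  U i := D.V (![0, 2, 1, 5] i)
  aff i := Proj.isAffineOpen_basicOpen G _ (D.hg _) one_pos
  cover := by
    rw [eq_top_iff, ← hcov]
    refine sup_le (sup_le (sup_le ?_ ?_) ?_) ?_
    · exact le_iSup (fun i : Fin 4 => D.V (![0, 2, 1, 5] i)) 0
    · exact le_iSup (fun i : Fin 4 => D.V (![0, 2, 1, 5] i)) 1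
    · exact le_iSup (fun i : Fin 4 => D.V (![0, 2, 1, 5] i)) 2
    · exact le_iSup (fun i : Fin 4 => D.V (![0, 2, 1, 5] i)) 3
  x i := D.sc _ (D.fr (![0, 2, 1, 5] i) (![1, 3, 0, 4] i))
  y i := D.sc _ (D.fr (![0, 2, 1, 5] i) (![2, 0, 5, 1] i))
  e i := D.sc _ (D.fr (![0, 2, 1, 5] i) (![6, 6, 7, 7] i))
  free i := by
    fin_cases i
    · exact D.free_of h0
    · exact D.free_of h1
    · exact D.free_of h2
    · exact D.free_of h3
  sq0 := by
    have hT := D.hT
    have h := D.eqn (i := 0) (b := D.fr 0 6) (b1 := 1) (b2 := D.fr 0 1) (b3 := D.fr 0 2)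
      (f := qx c) (by
        simp only [kp_fr, j0, j1, j2, j6, map_one, one_pow, mul_one]
        rw [mul_div_cancel_right₀ _ hT, mul_div_cancel_right₀ _ hT, mul_div_cancel_right₀ _ hT]
        exact D.eq)
    rw [map_one, one_pow, mul_one] at h
    exact h
  sq1 := by
    have hT := D.hT
    have hp := D.hp
    have h := D.eqn (i := 2) (b := D.fr 2 6) (b1 := D.fr 2 0) (b2 := D.fr 2 3) (b3 := 1)
      (f := qx c) (by
        simp only [kp_fr, j0, j2, j3, j6, map_one, one_pow, mul_one]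
        rw [mul_div_mul_right _ _ hT, mul_div_mul_right _ _ hT, mul_div_cancel_right₀ _ hp,
          div_pow, D.eq, div_mul_cancel_right₀ hT, inv_pow, add_div,
          mul_div_cancel_right₀ _ (pow_ne_zero 2 hp), div_eq_mul_inv])
    rw [map_one, one_pow, mul_one] at h
    exact h
  sq2 := by
    have hT := D.hT
    have hz := D.hz
    have h := D.eqn (i := 1) (b := D.fr 1 7) (b1 := 1) (b2 := D.fr 1 0) (b3 := D.fr 1 5)
      (f := qx' c) (by
        simp only [kp_fr, j0, j1, j5, j7, map_one, one_pow, mul_one]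
        rw [mul_div_mul_right _ _ hT, mul_div_cancel_left₀ _ hz, div_mul_cancel_right₀ hT, D.eq,
          ← eval₂_qx' _ _ hz, mul_div_mul_right _ _ hT]
        congr 1
        rw [mul_assoc]
        congr 1
        field_simp)
    rw [map_one, one_pow, mul_one] at h
    exact h
  sq3 := by
    have hT := D.hT
    have hz := D.hz
    have hp := D.hp
    have h := D.eqn (i := 5) (b := D.fr 5 7) (b1 := D.fr 5 1) (b2 := D.fr 5 4) (b3 := 1)
      (f := qx' c) (by
        simp only [kp_fr, j1, j4, j5, j7, map_one, one_pow, mul_one]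
        have e4 : D.z ^ 2 * D.p * D.T / (D.z ^ 3 * D.p * D.T) = D.z⁻¹ := by field_simp
        have e7 : (D.z * D.e * D.T / (D.z ^ 3 * D.p * D.T)) ^ 2 =
            D.e ^ 2 / (D.z ^ 4 * D.p ^ 2) := by field_simp
        have e1 : (D.z * D.T / (D.z ^ 3 * D.p * D.T)) ^ 2 = (D.z ^ 4 * D.p ^ 2)⁻¹ := by
          field_simp
        rw [e4, e7, e1, D.eq, ← eval₂_qx' _ _ hz, add_div, div_eq_mul_inv]
        congr 1
        field_simp)
    rw [map_one, one_pow, mul_one] at h
    exact h
  b01 := D.bO 0 2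
  b10 := (inf_comm _ _).trans (D.bO 2 0)
  b23 := D.bO 1 5
  b32 := (inf_comm _ _).trans (D.bO 5 1)
  b02 := D.bO 0 1
  b20 := (inf_comm _ _).trans (D.bO 1 0)
  b13 := by
    refine (D.bO 2 5).trans ?_
    rw [D.I13, map_mul, map_mul, bo_cube']
    rfl
  b31 := by
    refine (inf_comm _ _).trans ((D.bO 5 2).trans ?_)
    rw [D.I31, map_mul, map_mul, bo_cube']
    rfl
  b03 := by
    refine (D.bO 0 5).trans ?_
    rw [D.I03, map_mul, map_mul, map_mul, bo_cube]
    rfl
  b30 := by
    refine (inf_comm _ _).trans ((D.bO 5 0).trans ?_)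
    rw [D.I30, map_mul]
    rfl
  b12 := by
    refine (D.bO 2 1).trans ?_
    rw [D.I12, map_mul]
    rfl
  b21 := by
    refine (inf_comm _ _).trans ((D.bO 1 2).trans ?_)
    rw [D.I21, map_mul, map_mul, map_mul, bo_cube]
    rfl
  r01x := by
    refine D.ovl_eq (i := 0) (j := 2) (b := D.fr 0 1) (b' := D.fr 2 3) ?_
    have hT := D.hT
    have hp := D.hp
    simp only [kp_fr, j0, j1, j2, j3]
    field_simp
  r01y := by
    refine D.ovl_mul_eq (i := 0) (j := 2) (b := D.fr 0 2) (b' := D.fr 2 0) ?_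
    have hT := D.hT
    have hp := D.hp
    simp only [kp_fr, j0, j2]
    field_simp
  r01e := by
    refine D.ovl_mul_right (i := 0) (j := 2) (b := D.fr 0 6) (b' := D.fr 2 0)
      (d := D.fr 2 6) ?_
    have hT := D.hT
    have hp := D.hp
    simp only [kp_fr, j0, j2, j6]
    field_simp
  r23x := by
    refine D.ovl_eq (i := 1) (j := 5) (b := D.fr 1 0) (b' := D.fr 5 4) ?_
    have hT := D.hT
    have hz := D.hz
    have hp := D.hp
    simp only [kp_fr, j0, j1, j4, j5]
    field_simp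
  r23y := by
    refine D.ovl_mul_eq (i := 1) (j := 5) (b := D.fr 1 5) (b' := D.fr 5 1) ?_
    have hT := D.hT
    have hz := D.hz
    have hp := D.hp
    simp only [kp_fr, j1, j5]
    field_simp
  r23e := by
    refine D.ovl_mul_right (i := 1) (j := 5) (b := D.fr 1 7) (b' := D.fr 5 1)
      (d := D.fr 5 7) ?_
    have hT := D.hT
    have hz := D.hz
    have hp := D.hp
    simp only [kp_fr, j1, j5, j7]
    field_simp
  r02x := by
    refine D.ovl_mul_eq (i := 0) (j := 1) (b := D.fr 0 1) (b' := D.fr 1 0) ?_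
    have hT := D.hT
    have hz := D.hz
    simp only [kp_fr, j0, j1]
    field_simp
  r02y := by
    have h := (D.ovl_eq (i := 0) (j := 1) (b := D.fr 0 1 ^ 2 * D.fr 0 2) (b' := D.fr 1 5) (by
      have hT := D.hT
      have hz := D.hz
      simp only [map_mul, map_pow, kp_fr, j0, j1, j2, j5]
      field_simp)).symm
    refine h.trans ?_
    rw [map_mul, map_pow]
    rfl
  r02e := by
    refine D.ovl_eq (i := 0) (j := 1) (b := D.fr 0 6) (b' := D.fr 1 7) ?_
    have hT := D.hT
    have hz := D.hz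
    simp only [kp_fr, j0, j1, j6, j7]
    field_simp
  r13x := by
    refine D.ovl_mul_eq (i := 2) (j := 5) (b := D.fr 2 3) (b' := D.fr 5 4) ?_
    have hT := D.hT
    have hz := D.hz
    have hp := D.hp
    simp only [kp_fr, j2, j3, j4, j5]
    field_simp
  r13y := by
    have h := (D.ovl_mul_left (i := 2) (j := 5) (b := D.fr 2 3 ^ 2) (b' := D.fr 5 1)
      (d := D.fr 2 0) (by
      have hT := D.hT
      have hz := D.hz
      have hp := D.hp
      simp only [map_pow, kp_fr, j0, j1, j2, j3, j5]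
      field_simp)).symm
    refine h.trans ?_
    rw [map_pow]
    rfl
  r13e := by
    have h := (D.ovl_mul_left (i := 2) (j := 5) (b := D.fr 2 3 ^ 2) (b' := D.fr 5 7)
      (d := D.fr 2 6) (by
      have hT := D.hT
      have hz := D.hz
      have hp := D.hp
      simp only [map_pow, kp_fr, j2, j3, j5, j6, j7]
      field_simp)).symm
    refine h.trans ?_
    rw [map_pow]
    rfl
  r03x := by
    refine D.ovl_mul_eq (i := 0) (j := 5) (b := D.fr 0 1) (b' := D.fr 5 4) ?_
    have hT := D.hT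
    have hz := D.hz
    have hp := D.hp
    simp only [kp_fr, j0, j1, j4, j5]
    field_simp
  r03y := by
    have h := D.ovl_mul_eq (i := 0) (j := 5) (b := D.fr 0 1 ^ 2 * D.fr 0 2) (b' := D.fr 5 1) (by
      have hT := D.hT
      have hz := D.hz
      have hp := D.hp
      simp only [map_mul, map_pow, kp_fr, j0, j1, j2, j5]
      field_simp)
    rw [map_mul, map_pow] at h
    exact h
  r03e := by
    have h := D.ovl_mul_left (i := 0) (j := 5) (b := D.fr 0 1 ^ 2 * D.fr 0 2) (b' := D.fr 5 7)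
      (d := D.fr 0 6) (by
      have hT := D.hT
      have hz := D.hz
      have hp := D.hp
      simp only [map_mul, map_pow, kp_fr, j0, j1, j2, j5, j6, j7]
      field_simp)
    rw [map_mul, map_pow] at h
    exact h
  r12x := by
    refine D.ovl_mul_eq (i := 2) (j := 1) (b := D.fr 2 3) (b' := D.fr 1 0) ?_
    have hT := D.hT
    have hz := D.hz
    have hp := D.hp
    simp only [kp_fr, j0, j1, j2, j3]
    field_simp
  r12y := by
    have h := D.ovl_mul_eq (i := 2) (j := 1) (b := D.fr 2 0) (b' := D.fr 1 0 ^ 2 * D.fr 1 5) (by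
      have hT := D.hT
      have hz := D.hz
      have hp := D.hp
      simp only [map_mul, map_pow, kp_fr, j0, j1, j2, j5]
      field_simp)
    rw [map_mul, map_pow] at h
    exact h
  r12e := by
    have h := D.ovl_mul_right (i := 2) (j := 1) (b := D.fr 2 6)
      (b' := D.fr 1 0 ^ 2 * D.fr 1 5) (d := D.fr 1 7) (by
      have hT := D.hT
      have hz := D.hz
      have hp := D.hp
      simp only [map_mul, map_pow, kp_fr, j0, j1, j2, j5, j6, j7]
      field_simp)
    rw [map_mul, map_pow] at h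
    exact h

end XRing

end Orl
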