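import Pool.Agent.Work.MP_a6e60d_ag.Sch.XRings

/-!
# The three relative conics in the surface `y ^ 2 = a z ^ 2 + q(x, t) w ^ 2`:
over `A[x]` (charts 1, 0), over `A[1 / x]` (charts 3, 2), over `A[x, 1 / x]`
(`U 1 ⊓ U 3`, `U 0 ⊓ U 2`)
-/

set_option autoImplicit false

open CategoryTheory Limits TopologicalSpace AlgebraicGeometry Opposite Polynomial
open scoped LaurentPolynomial

attribute [-instance] CategoryTheory.catToReflQuiver

namespace Orl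

open Fdim

namespace XCharts

variable {A : CommRingCat.{0}} {a : A} {c : Fin 5 → A} {X : Scheme.{0}} {π : X ⟶ Spec A}
  (D : XCharts A a c π)

theorem inf03_le : D.U 0 ⊓ D.U 3 ≤ D.U 2 := by
  rw [D.b03, Scheme.basicOpen_mul, ← D.b02]
  exact inf_le_left.trans inf_le_right

theorem inf12_le : D.U 1 ⊓ D.U 2 ≤ D.U 3 := by
  rw [D.b12, Scheme.basicOpen_mul, ← D.b13]
  exact inf_le_left.trans inf_le_right

theorem inf03_le' : D.U 0 ⊓ D.U 3 ≤ D.U 1 := by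
  rw [D.b03, Scheme.basicOpen_mul, ← D.b01]
  exact inf_le_right.trans inf_le_right

theorem inf12_le' : D.U 1 ⊓ D.U 2 ≤ D.U 0 := by
  rw [D.b12, Scheme.basicOpen_mul, ← D.b10]
  exact inf_le_right.trans inf_le_left

/-- the intersection of the four charts in the locus `w ≠ 0`, `x ≠ 0` -/
theorem inf_all_w : D.U 1 ⊓ D.U 3 ⊓ (D.U 0 ⊓ D.U 2) =
    X.basicOpen (rO inf_le_left (D.y 1) : Γ(X, D.U 1 ⊓ D.U 3)) := by
  have h2 : X.basicOpen (rO inf_le_left (D.y 1) : Γ(X, D.U 1 ⊓ D.U 3)) =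
      (D.U 1 ⊓ D.U 3) ⊓ X.basicOpen (D.y 1) :=
    X.basicOpen_res (D.y 1) (homOfLE (inf_le_left : D.U 1 ⊓ D.U 3 ≤ D.U 1)).op
  rw [h2, ← D.b10]
  have h3 := D.inf03_le
  apply le_antisymm
  · exact le_inf inf_le_left (le_inf (inf_le_right.trans inf_le_left)
      (inf_le_left.trans inf_le_left))
  · exact le_inf inf_le_left (le_inf (inf_le_right.trans inf_le_left)
      ((le_inf (inf_le_right.trans inf_le_left) (inf_le_left.trans inf_le_right)).trans h3))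

/-- the intersection of the four charts in the locus `z ≠ 0`, `x ≠ 0` -/
theorem inf_all_z : D.U 0 ⊓ D.U 2 ⊓ (D.U 1 ⊓ D.U 3) =
    X.basicOpen (rO inf_le_left (D.y 0) : Γ(X, D.U 0 ⊓ D.U 2)) := by
  have h2 : X.basicOpen (rO inf_le_left (D.y 0) : Γ(X, D.U 0 ⊓ D.U 2)) =
      (D.U 0 ⊓ D.U 2) ⊓ X.basicOpen (D.y 0) :=
    X.basicOpen_res (D.y 0) (homOfLE (inf_le_left : D.U 0 ⊓ D.U 2 ≤ D.U 0)).op
  rw [h2, ← D.b01]
  have h3 := D.inf12_le
  apply le_antisymm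
  · exact le_inf inf_le_left (le_inf (inf_le_left.trans inf_le_left)
      (inf_le_right.trans inf_le_left))
  · exact le_inf inf_le_left (le_inf (inf_le_right.trans inf_le_right)
      ((le_inf (inf_le_right.trans inf_le_right) (inf_le_left.trans inf_le_right)).trans h3))

theorem aff_all : IsAffineOpen (D.U 1 ⊓ D.U 3 ⊓ (D.U 0 ⊓ D.U 2)) :=
  (((D.basic_U 1).inf (D.basic_U 3)).inf ((D.basic_U 0).inf (D.basic_U 2))).aff

/-! ### Functions of the base -/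

/-- functions of the base on `w ≠ 0`, `x ≠ 0` -/
noncomputable def sw : (A : Type)[T;T⁻¹] →+* Γ(X, D.U 1 ⊓ D.U 3) := D.sL D.r13x

/-- functions of the base on `z ≠ 0`, `x ≠ 0` -/
noncomputable def sz : (A : Type)[T;T⁻¹] →+* Γ(X, D.U 0 ⊓ D.U 2) := D.sL D.r02x

theorem sx_01 (f : (A : Type)[X]) : rO (inf_le_left : D.U 1 ⊓ D.U 0 ≤ D.U 1) (D.sx 1 f) =
    rO inf_le_right (D.sx 0 f) := by
  have h : (rO (inf_le_left : D.U 1 ⊓ D.U 0 ≤ D.U 1)).comp (D.sx 1) =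
      (rO inf_le_right).comp (D.sx 0) := by
    ext b
    · simp only [RingHom.comp_apply, sx_C, rO_str_apply]
    · simp only [RingHom.comp_apply, sx_X]
      have h1 := congrArg (rO (inf_comm _ _).le : Γ(X, D.U 0 ⊓ D.U 1) → Γ(X, D.U 1 ⊓ D.U 0)) D.r01x
      simpa using h1.symm
  exact congrArg (fun g : (A : Type)[X] →+* Γ(X, D.U 1 ⊓ D.U 0) => g f) h

theorem sx_23 (f : (A : Type)[X]) : rO (inf_le_left : D.U 3 ⊓ D.U 2 ≤ D.U 3) (D.sx 3 f) =
    rO inf_le_right (D.sx 2 f) := by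
  have h : (rO (inf_le_left : D.U 3 ⊓ D.U 2 ≤ D.U 3)).comp (D.sx 3) =
      (rO inf_le_right).comp (D.sx 2) := by
    ext b
    · simp only [RingHom.comp_apply, sx_C, rO_str_apply]
    · simp only [RingHom.comp_apply, sx_X]
      have h1 := congrArg (rO (inf_comm _ _).le : Γ(X, D.U 2 ⊓ D.U 3) → Γ(X, D.U 3 ⊓ D.U 2)) D.r23x
      simpa using h1.symm
  exact congrArg (fun g : (A : Type)[X] →+* Γ(X, D.U 3 ⊓ D.U 2) => g f) h

theorem hom_ext_laurent {R S : Type*} [CommRing R] [CommRing S] {f g : R[T;T⁻¹] →+* S}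
    (hC : ∀ b, f (LaurentPolynomial.C b) = g (LaurentPolynomial.C b))
    (hT : f (LaurentPolynomial.T 1) = g (LaurentPolynomial.T 1)) : f = g := by
  have h1 : f.comp Polynomial.toLaurent = g.comp Polynomial.toLaurent := by
    ext b
    · simpa using hC b
    · simpa using hT
  exact IsLocalization.ringHom_ext (Submonoid.powers (Polynomial.X : R[X])) h1

theorem sw_sz (f : (A : Type)[T;T⁻¹]) :
    rO (inf_le_left : D.U 1 ⊓ D.U 3 ⊓ (D.U 0 ⊓ D.U 2) ≤ D.U 1 ⊓ D.U 3) (D.sw f) =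
      rO inf_le_right (D.sz f) := by
  have h : (rO (inf_le_left : D.U 1 ⊓ D.U 3 ⊓ (D.U 0 ⊓ D.U 2) ≤ D.U 1 ⊓ D.U 3)).comp D.sw =
      (rO inf_le_right).comp D.sz := by
    refine hom_ext_laurent (fun b => ?_) ?_
    · simp only [RingHom.comp_apply, sw, sz, sL_C, rO_str_apply]
    · simp only [RingHom.comp_apply, sw, sz, sL_T_one, rO_rO]
      have h0 : D.U 1 ⊓ D.U 3 ⊓ (D.U 0 ⊓ D.U 2) ≤ D.U 0 ⊓ D.U 1 :=
        le_inf (inf_le_right.trans inf_le_left) (inf_le_left.trans inf_le_left)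
      have h1 := congrArg (rO h0) D.r01x
      simpa using h1.symm
  exact congrArg (fun g : (A : Type)[T;T⁻¹] →+* Γ(X, D.U 1 ⊓ D.U 3 ⊓ (D.U 0 ⊓ D.U 2)) => g f) h

/-! ### Restriction to the loci `y ≠ 0` -/

theorem loc_w0 : Loc1 (rO (inf_le_left : D.U 1 ⊓ D.U 0 ≤ D.U 1)) (D.y 1) :=
  loc1_rO (D.aff 1) _ _ ((inf_comm _ _).trans D.b10)

theorem loc_w1 : Loc1 (rO (inf_le_left : D.U 3 ⊓ D.U 2 ≤ D.U 3)) (D.y 3) :=
  loc1_rO (D.aff 3) _ _ ((inf_comm _ _).trans D.b32)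

theorem loc_w01 : Loc1 (rO (inf_le_left : D.U 1 ⊓ D.U 3 ⊓ (D.U 0 ⊓ D.U 2) ≤ D.U 1 ⊓ D.U 3))
    (rO inf_le_left (D.y 1)) :=
  loc1_rO (D.aff_inf 1 3) _ _ D.inf_all_w

theorem inj_w0 : Function.Injective (rO (inf_le_left : D.U 1 ⊓ D.U 0 ≤ D.U 1)) :=
  D.loc_w0.injective (D.y_mul_eq_zero 1)

theorem inj_w1 : Function.Injective (rO (inf_le_left : D.U 3 ⊓ D.U 2 ≤ D.U 3)) :=
  D.loc_w1.injective (D.y_mul_eq_zero 3)

/-- a generator of a free module of rank two over a polynomial ring is not a zero divisor -/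
theorem _root_.Orl.mul_eq_zero_of_bijective {S R : Type*} [CommRing S] [CommRing R] {s : S →+* R}
    {z y : R} (h : Function.Bijective fun P : S[X] × S[X] => P.1.eval₂ s z + P.2.eval₂ s z * y)
    (r : R) (hr : z * r = 0) : r = 0 := by
  obtain ⟨P, rfl⟩ := h.2 r
  have h1 := @h.1 (Polynomial.X * P.1, Polynomial.X * P.2) (0, 0) (by
    simp only [Polynomial.eval₂_mul, Polynomial.eval₂_X, Polynomial.eval₂_zero, zero_mul, add_zero]
    rw [← hr]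
    ring)
  have h2 : P.1 = 0 := mul_X_eq_zero_imp (congrArg Prod.fst h1)
  have h3 : P.2 = 0 := mul_X_eq_zero_imp (congrArg Prod.snd h1)
  simp only [h2, h3, Polynomial.eval₂_zero, zero_mul, add_zero]

theorem free_w : Function.Bijective fun P : (A : Type)[T;T⁻¹][X] × (A : Type)[T;T⁻¹][X] =>
    P.1.eval₂ D.sw (rO inf_le_left (D.y 1)) +
      P.2.eval₂ D.sw (rO inf_le_left (D.y 1)) * rO inf_le_left (D.e 1) :=
  D.freeL D.b13 D.r13x

theorem free_z : Function.Bijective fun P : (A : Type)[T;T⁻¹][X] × (A : Type)[T;T⁻¹][X] =>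
    P.1.eval₂ D.sz (rO inf_le_left (D.y 0)) +
      P.2.eval₂ D.sz (rO inf_le_left (D.y 0)) * rO inf_le_left (D.e 0) :=
  D.freeL D.b02 D.r02x

theorem inj_w01 : Function.Injective
    (rO (inf_le_left : D.U 1 ⊓ D.U 3 ⊓ (D.U 0 ⊓ D.U 2) ≤ D.U 1 ⊓ D.U 3)) :=
  D.loc_w01.injective (mul_eq_zero_of_bijective D.free_w)

/-! ### The equations -/

theorem sx_qx (i : Fin 4) : D.sx i (qx c) = (qx c).eval₂ (str π (D.U i)) (D.x i) := rfl

theorem eq0 : D.e 0 ^ 2 = D.sx 0 (C a) + D.sx 0 (qx c) * D.y 0 ^ 2 := by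
  rw [sx_C]
  exact D.sq0

theorem eq1 : D.e 1 ^ 2 = D.sx 1 (C a) * D.y 1 ^ 2 + D.sx 1 (qx c) := by
  rw [sx_C]
  exact D.sq1

theorem eq2 : D.e 2 ^ 2 = D.sx 2 (C a) + D.sx 2 (qx' c) * D.y 2 ^ 2 := by
  rw [sx_C]
  exact D.sq2

theorem eq3 : D.e 3 ^ 2 = D.sx 3 (C a) * D.y 3 ^ 2 + D.sx 3 (qx' c) := by
  rw [sx_C]
  exact D.sq3

theorem eq_w : (rO inf_le_left (D.e 1) : Γ(X, D.U 1 ⊓ D.U 3)) ^ 2 =
    D.sw (LaurentPolynomial.C a) * rO inf_le_left (D.y 1) ^ 2 +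
      D.sw (Polynomial.toLaurent (qx c)) := by
  rw [sw, sL_toLaurent, sL_C, ← map_pow, D.eq1, map_add, map_mul, sx_C, rO_str_apply, map_pow]

theorem eq_z : (rO inf_le_left (D.e 0) : Γ(X, D.U 0 ⊓ D.U 2)) ^ 2 =
    D.sz (LaurentPolynomial.C a) + D.sz (Polynomial.toLaurent (qx c)) *
      rO inf_le_left (D.y 0) ^ 2 := by
  rw [sz, sL_toLaurent, sL_C, ← map_pow, D.eq0, map_add, map_mul, sx_C, rO_str_apply, map_pow]

end XCharts

end Orl
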