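import Pool.Agent.Work.MP_f714fc_ag.Sch.YtCharts
import Pool.Agent.Work.MP_a6e60d_ag.Sch.XCharts
import Mathlib.Algebra.QuadraticAlgebra.Basic

/-!
# The graded ring of the Châtelet surface

`A` a ring, `a : A`, `c : Fin 5 → A` the coefficients of the binary quartic form `q(x, t)`.
The surface is the double cover `e ^ 2 = a + q(z, 1) p ^ 2` of the Hirzebruch surface `Y(A, 0)`.
Its graded ring is the subring of `A[z, p, T][e] / (e ^ 2 - (a + q(z, 1) p ^ 2))` generated by
`T, z T, p T, z p T, q T, z q T` (`q = z ^ 2 p`) and `e T, z e T`, graded by the degree in `T`.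
-/

open CategoryTheory Limits TopologicalSpace AlgebraicGeometry Opposite MvPolynomial

attribute [-instance] CategoryTheory.catToReflQuiver

namespace Orl

open Fdim

variable {A : Type} [CommRing A] (a : A) (c : Fin 5 → A)

/-- the right hand side of the equation in `A[z, p, T]` -/
noncomputable def QM : MvPolynomial (Fin 3) A :=
  C a + (∑ j : Fin 5, C (c j) * X 0 ^ (j : ℕ)) * X 1 ^ 2

/-- the ring `A[z, p, T][e]` -/
abbrev SS : Type := QuadraticAlgebra (MvPolynomial (Fin 3) A) (QM a c) 0

theorem grT_mul {f g : MvPolynomial (Fin 3) A} {i j : ℕ} (hf : f ∈ grT A i) (hg : g ∈ grT A j) :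
    f * g ∈ grT A (i + j) := SetLike.GradedMul.mul_mem hf hg

theorem grT_mul0 {f g : MvPolynomial (Fin 3) A} {j : ℕ} (hf : f ∈ grT A 0) (hg : g ∈ grT A j) :
    f * g ∈ grT A j := by simpa using grT_mul hf hg

theorem grT_C (r : A) : (C r : MvPolynomial (Fin 3) A) ∈ grT A 0 := isWeightedHomogeneous_C wt r

theorem grT_X0 : (X 0 : MvPolynomial (Fin 3) A) ∈ grT A 0 := isWeightedHomogeneous_X A wt 0

theorem grT_X1 : (X 1 : MvPolynomial (Fin 3) A) ∈ grT A 0 := isWeightedHomogeneous_X A wt 1

theorem grT_X2 : (X 2 : MvPolynomial (Fin 3) A) ∈ grT A 1 := isWeightedHomogeneous_X A wt 2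

theorem grT_one : (1 : MvPolynomial (Fin 3) A) ∈ grT A 0 := by simpa using grT_C (1 : A)

theorem grT_pow {f : MvPolynomial (Fin 3) A} (hf : f ∈ grT A 0) (n : ℕ) : f ^ n ∈ grT A 0 := by
  induction n with
  | zero => simpa using grT_one
  | succ n ih => rw [pow_succ]; exact grT_mul0 ih hf

theorem QM_mem : QM a c ∈ grT A 0 := by
  refine add_mem (grT_C a) (grT_mul0 (sum_mem fun j _ => ?_) (grT_pow grT_X1 2))
  exact grT_mul0 (grT_C _) (grT_pow grT_X0 _)

/-- the grading by the degree in `T` -/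
noncomputable def grS (n : ℕ) : Submodule A (SS a c) where
  carrier := {s | s.re ∈ grT A n ∧ s.im ∈ grT A n}
  add_mem' := fun ha hb => ⟨add_mem ha.1 hb.1, add_mem ha.2 hb.2⟩
  zero_mem' := ⟨zero_mem _, zero_mem _⟩
  smul_mem' := fun r _ hs => ⟨Submodule.smul_mem _ r hs.1, Submodule.smul_mem _ r hs.2⟩

theorem mem_grS {n : ℕ} {s : SS a c} : s ∈ grS a c n ↔ s.re ∈ grT A n ∧ s.im ∈ grT A n := Iff.rfl

/-- first component -/
noncomputable def inl0 (n : ℕ) : grT A n →+ grS a c n where
  toFun f := ⟨⟨f, 0⟩, f.2, zero_mem _⟩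
  map_zero' := rfl
  map_add' f g := by
    apply Subtype.ext
    ext <;> simp

/-- second component -/
noncomputable def inr0 (n : ℕ) : grT A n →+ grS a c n where
  toFun f := ⟨⟨0, f⟩, zero_mem _, f.2⟩
  map_zero' := rfl
  map_add' f g := by
    apply Subtype.ext
    ext <;> simp

/-- the decomposition in homogeneous components -/
noncomputable def decS : SS a c →+ DirectSum ℕ fun n => grS a c n where
  toFun s := DirectSum.map (inl0 a c) (DirectSum.decompose (grT A) s.re) +
    DirectSum.map (inr0 a c) (DirectSum.decompose (grT A) s.im)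
  map_zero' := by simp
  map_add' s s' := by
    simp only [QuadraticAlgebra.re_add, QuadraticAlgebra.im_add, DirectSum.decompose_add, map_add]
    abel

theorem coe_decS (s : SS a c) : DirectSum.coeAddMonoidHom (grS a c) (decS a c s) = s := by
  classical
  have h1 : ∀ u : DirectSum ℕ fun n => grT A n,
      DirectSum.coeAddMonoidHom (grS a c) (DirectSum.map (inl0 a c) u) =
      ⟨DirectSum.coeAddMonoidHom (grT A) u, 0⟩ := by
    intro u
    induction u using DirectSum.induction_on with
    | zero => simp; rfl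
    | of i f => rw [DirectSum.map_of, DirectSum.coeAddMonoidHom_of, DirectSum.coeAddMonoidHom_of]; rfl
    | add u v hu hv =>
      rw [map_add, map_add, hu, hv, map_add]
      ext <;> simp
  have h2 : ∀ u : DirectSum ℕ fun n => grT A n,
      DirectSum.coeAddMonoidHom (grS a c) (DirectSum.map (inr0 a c) u) =
      ⟨0, DirectSum.coeAddMonoidHom (grT A) u⟩ := by
    intro u
    induction u using DirectSum.induction_on with
    | zero => simp; rfl
    | of i f => rw [DirectSum.map_of, DirectSum.coeAddMonoidHom_of, DirectSum.coeAddMonoidHom_of]; rfl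
    | add u v hu hv =>
      rw [map_add, map_add, hu, hv, map_add]
      ext <;> simp
  have h3 : ∀ f : MvPolynomial (Fin 3) A,
      DirectSum.coeAddMonoidHom (grT A) (DirectSum.decompose (grT A) f) = f :=
    fun f => DirectSum.Decomposition.left_inv f
  change DirectSum.coeAddMonoidHom (grS a c) (DirectSum.map (inl0 a c) _ +
    DirectSum.map (inr0 a c) _) = s
  rw [map_add, h1, h2, h3, h3]
  ext <;> simp

theorem decS_coe {n : ℕ} (s : grS a c n) :
    decS a c s = DirectSum.of (fun n => grS a c n) n s := by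
  classical
  change DirectSum.map (inl0 a c) _ + DirectSum.map (inr0 a c) _ = _
  have h1 : DirectSum.decompose (grT A) (s : SS a c).re =
      DirectSum.of (fun n => grT A n) n ⟨(s : SS a c).re, s.2.1⟩ :=
    DirectSum.decompose_of_mem (grT A) s.2.1
  have h2 : DirectSum.decompose (grT A) (s : SS a c).im =
      DirectSum.of (fun n => grT A n) n ⟨(s : SS a c).im, s.2.2⟩ :=
    DirectSum.decompose_of_mem (grT A) s.2.2
  rw [h1, h2, DirectSum.map_of, DirectSum.map_of, ← map_add]
  congr 1
  apply Subtype.ext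
  ext <;> simp [inl0, inr0]

noncomputable instance : GradedAlgebra (grS a c) where
  one_mem := ⟨grT_one, zero_mem _⟩
  mul_mem i j f g hf hg := by
    refine ⟨?_, ?_⟩
    · rw [QuadraticAlgebra.re_mul]
      refine add_mem (grT_mul hf.1 hg.1) ?_
      rw [mul_assoc]
      exact grT_mul0 (QM_mem a c) (grT_mul hf.2 hg.2)
    · rw [QuadraticAlgebra.im_mul]
      refine add_mem (add_mem (grT_mul hf.1 hg.2) (grT_mul hf.2 hg.1)) ?_
      rw [zero_mul, zero_mul]
      exact zero_mem _
  toDecomposition := DirectSum.Decomposition.ofAddHom (ℳ := grS a c) (decS a c)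
    (AddMonoidHom.ext fun s => coe_decS a c s) (DirectSum.addHom_ext fun n s => by
      rw [AddMonoidHom.comp_apply, DirectSum.coeAddMonoidHom_of]
      exact decS_coe a c s)

/-! ## The subring -/

/-- the generators `T, z T, p T, z p T, q T, z q T, e T, z e T` with `q = z ^ 2 p` -/
noncomputable def genX : Fin 8 → SS a c :=
  ![⟨gen 0 0, 0⟩, ⟨gen 0 1, 0⟩, ⟨gen 0 2, 0⟩, ⟨gen 0 3, 0⟩, ⟨gen 0 4, 0⟩, ⟨gen 0 5, 0⟩,
    ⟨0, gen 0 0⟩, ⟨0, gen 0 1⟩]

theorem genX_mem (i : Fin 8) : genX a c i ∈ grS a c 1 := by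
  fin_cases i
  · exact ⟨gen_mem 0 0, zero_mem _⟩
  · exact ⟨gen_mem 0 1, zero_mem _⟩
  · exact ⟨gen_mem 0 2, zero_mem _⟩
  · exact ⟨gen_mem 0 3, zero_mem _⟩
  · exact ⟨gen_mem 0 4, zero_mem _⟩
  · exact ⟨gen_mem 0 5, zero_mem _⟩
  · exact ⟨zero_mem _, gen_mem 0 0⟩
  · exact ⟨zero_mem _, gen_mem 0 1⟩

/-- the ring of sections of the powers of the ample bundle `H + f` -/
noncomputable def RX : Subalgebra A (SS a c) := Algebra.adjoin A (Set.range (genX a c))

/-- its grading -/
noncomputable def grX (n : ℕ) : Submodule A (RX a c) := grSub (grS a c) (RX a c) n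

noncomputable instance : GradedAlgebra (grX a c) :=
  gradedSub (grS a c) (RX a c) fun _ hr n => proj_mem_adjoin (grS a c) (by
    rintro _ ⟨i, rfl⟩
    exact ⟨1, genX_mem a c i⟩) hr n

/-- the generators as elements of the graded ring -/
noncomputable def geX (i : Fin 8) : RX a c := ⟨genX a c i, Algebra.subset_adjoin ⟨i, rfl⟩⟩

theorem geX_mem (i : Fin 8) : geX a c i ∈ grX a c 1 := genX_mem a c i

/-- the Châtelet surface `y ^ 2 = a z ^ 2 + q(x, t) w ^ 2` -/
noncomputable def Xq : Scheme.{0} := Proj (grX a c)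

/-- the structure morphism -/
noncomputable def Xq.π : Xq a c ⟶ Spec (.of A) := prStr (grX a c)

end Orl
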