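import Mathlib.Algebra.Polynomial.Bivariate
import Pool.Agent.Work.MP_a6e60d_ag.Sch.Loc1
import Pool.Agent.Work.MP_a6e60d_ag.Sch.XGeom

/-!
# The coordinate rings of the surfaces `y ^ 2 = a z ^ 2 + q(x, t) w ^ 2`, over `S = A[x]` and
`S = A[x, 1 / x]`: free modules with the basis `1, e` over polynomial rings over `S`
-/

set_option autoImplicit false

open CategoryTheory Limits TopologicalSpace AlgebraicGeometry Opposite Polynomial
open scoped LaurentPolynomial

attribute [-instance] CategoryTheory.catToReflQuiver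

namespace Orl

open Fdim

theorem rO_str_apply {A : CommRingCat.{0}} {X : Scheme.{0}} (π : X ⟶ Spec A) {U V : X.Opens}
    (h : V ≤ U) (b : A) : rO h (str π U b) = str π V b := by
  simp only [str, RingHom.comp_apply, rO_rO]

theorem mul_X_eq_zero_imp {R : Type*} [CommRing R] {P : R[X]} (h : Polynomial.X * P = 0) :
    P = 0 := by
  ext n
  have h1 := congrArg (fun Q => Polynomial.coeff Q (n + 1)) h
  simpa [Polynomial.coeff_X_mul] using h1

namespace XCharts

variable {A : CommRingCat.{0}} {a : A} {c : Fin 5 → A} {X : Scheme.{0}} {π : X ⟶ Spec A}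
  (D : XCharts A a c π)

/-! ### Charts -/

/-- functions of the base on a chart -/
noncomputable def sx (i : Fin 4) : (A : Type)[X] →+* Γ(X, D.U i) :=
  Polynomial.eval₂RingHom (str π (D.U i)) (D.x i)

theorem sx_apply (i : Fin 4) (f : (A : Type)[X]) :
    D.sx i f = f.eval₂ (str π (D.U i)) (D.x i) := rfl

@[simp] theorem sx_C (i : Fin 4) (b : A) : D.sx i (C b) = str π (D.U i) b := by
  simp [sx]

@[simp] theorem sx_X (i : Fin 4) : D.sx i Polynomial.X = D.x i := by
  simp [sx]

theorem ev_equiv (i : Fin 4) (P : (A : Type)[X][X]) :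
    D.ev i (Polynomial.Bivariate.equivMvPolynomial A P) = P.eval₂ (D.sx i) (D.y i) := by
  have h : (D.ev i).comp (Polynomial.Bivariate.equivMvPolynomial A : _ →+* _) =
      Polynomial.eval₂RingHom (D.sx i) (D.y i) := by
    ext <;> simp
  exact congrArg (fun f : (A : Type)[X][X] →+* Γ(X, D.U i) => f P) h

/-- the ring of a chart over `A[x]` -/
theorem free2 (i : Fin 4) :
    Function.Bijective fun P : (A : Type)[X][X] × (A : Type)[X][X] =>
      P.1.eval₂ (D.sx i) (D.y i) + P.2.eval₂ (D.sx i) (D.y i) * D.e i := by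
  have h1 := (D.free i).comp (Equiv.prodCongr
    (Polynomial.Bivariate.equivMvPolynomial A).toEquiv
    (Polynomial.Bivariate.equivMvPolynomial A).toEquiv).bijective
  have h2 : (fun P : (A : Type)[X][X] × (A : Type)[X][X] =>
      P.1.eval₂ (D.sx i) (D.y i) + P.2.eval₂ (D.sx i) (D.y i) * D.e i) =
      (fun P : MvPolynomial (Fin 2) A × MvPolynomial (Fin 2) A =>
        D.ev i P.1 + D.ev i P.2 * D.e i) ∘ (Equiv.prodCongr
          (Polynomial.Bivariate.equivMvPolynomial A).toEquiv
          (Polynomial.Bivariate.equivMvPolynomial A).toEquiv) := by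
    ext P
    simp only [← ev_equiv]
    rfl
  rw [h2]
  exact h1

/-- the coordinate `y` is not a zero divisor -/
theorem y_mul_eq_zero (i : Fin 4) (r : Γ(X, D.U i)) (h : D.y i * r = 0) : r = 0 := by
  obtain ⟨P, rfl⟩ := (D.free2 i).2 r
  have h1 := @(D.free2 i).1 (Polynomial.X * P.1, Polynomial.X * P.2) (0, 0) (by
    simp only [Polynomial.eval₂_mul, Polynomial.eval₂_X, Polynomial.eval₂_zero, zero_mul, add_zero]
    rw [← h]
    ring)
  have h2 : P.1 = 0 := mul_X_eq_zero_imp (congrArg Prod.fst h1)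
  have h3 : P.2 = 0 := mul_X_eq_zero_imp (congrArg Prod.snd h1)
  simp only [h2, h3, Polynomial.eval₂_zero, zero_mul, add_zero]

/-- the coordinate `x` is not a zero divisor -/
theorem x_mul_eq_zero (i : Fin 4) (r : Γ(X, D.U i)) (h : D.x i * r = 0) : r = 0 := by
  obtain ⟨P, rfl⟩ := (D.free2 i).2 r
  have h1 := @(D.free2 i).1 (C Polynomial.X * P.1, C Polynomial.X * P.2) (0, 0) (by
    simp only [Polynomial.eval₂_mul, Polynomial.eval₂_C, Polynomial.eval₂_zero, zero_mul, add_zero,
      sx_X]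
    rw [← h]
    ring)
  have key : ∀ Q : (A : Type)[X][X], C Polynomial.X * Q = 0 → Q = 0 := by
    intro Q hQ
    ext1 n
    have h2 := congrArg (fun Q => Polynomial.coeff Q n) hQ
    rw [Polynomial.coeff_zero]
    refine mul_X_eq_zero_imp ?_
    simpa [Polynomial.coeff_C_mul] using h2
  have h2 : P.1 = 0 := key _ (congrArg Prod.fst h1)
  have h3 : P.2 = 0 := key _ (congrArg Prod.snd h1)
  simp only [h2, h3, Polynomial.eval₂_zero, zero_mul, add_zero]

/-! ### The open sets `x ≠ 0` -/

section L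

variable {i j : Fin 4} (hb : D.U i ⊓ D.U j = X.basicOpen (D.x i))
  (hr : rO (inf_le_left : D.U i ⊓ D.U j ≤ D.U i) (D.x i) * rO inf_le_right (D.x j) = 1)

/-- the coordinate `x` as a unit -/
noncomputable def xu : (Γ(X, D.U i ⊓ D.U j))ˣ where
  val := rO inf_le_left (D.x i)
  inv := rO inf_le_right (D.x j)
  val_inv := hr
  inv_val := by rw [mul_comm, hr]

/-- functions of the base on the locus `x ≠ 0` in a chart -/
noncomputable def sL : (A : Type)[T;T⁻¹] →+* Γ(X, D.U i ⊓ D.U j) :=
  LaurentPolynomial.eval₂ (str π (D.U i ⊓ D.U j)) (D.xu hr)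

theorem sL_toLaurent (f : (A : Type)[X]) :
    D.sL hr (Polynomial.toLaurent f) = rO inf_le_left (D.sx i f) := by
  rw [sL, LaurentPolynomial.eval₂_toLaurent, sx_apply, Polynomial.hom_eval₂]
  congr 1
  ext b
  exact (rO_str_apply π _ b).symm

@[simp] theorem sL_C (b : A) : D.sL hr (LaurentPolynomial.C b) = str π (D.U i ⊓ D.U j) b := by
  simp [sL]

@[simp] theorem sL_T_one : D.sL hr (LaurentPolynomial.T 1) = rO inf_le_left (D.x i) := by
  simp [sL, xu]

@[simp] theorem sL_T_neg_one : D.sL hr (LaurentPolynomial.T (-1)) = rO inf_le_right (D.x j) := by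
  simp [sL, xu]

include hb in
/-- the ring of the locus `x ≠ 0` in a chart, over `A[x, 1 / x]` -/
theorem freeL :
    Function.Bijective fun P : (A : Type)[T;T⁻¹][X] × (A : Type)[T;T⁻¹][X] =>
      P.1.eval₂ (D.sL hr) (rO inf_le_left (D.y i)) +
        P.2.eval₂ (D.sL hr) (rO inf_le_left (D.y i)) * rO inf_le_left (D.e i) := by
  refine Loc1.bijective (i := Polynomial.mapRingHom Polynomial.toLaurent)
    (j := rO (inf_le_left : D.U i ⊓ D.U j ≤ D.U i))
    (f := Polynomial.eval₂RingHom (D.sx i) (D.y i))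
    (f' := Polynomial.eval₂RingHom (D.sL hr) (rO inf_le_left (D.y i)))
    (p := C Polynomial.X) Loc1.toLaurent.mapRingHom ?_ ?_ (D.free2 i)
  · rw [Polynomial.coe_eval₂RingHom, Polynomial.eval₂_C, sx_X]
    exact loc1_rO (D.aff i) _ _ hb
  · intro P
    rw [Polynomial.coe_eval₂RingHom, Polynomial.coe_eval₂RingHom, Polynomial.coe_mapRingHom,
      Polynomial.eval₂_map, Polynomial.hom_eval₂]
    congr 1
    exact RingHom.ext fun f => D.sL_toLaurent hr f

end L

/-! ### The open sets `y ≠ 0` -/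

section Y

variable {i j : Fin 4} (hb : D.U i ⊓ D.U j = X.basicOpen (D.y i))
  (hr : rO (inf_le_left : D.U i ⊓ D.U j ≤ D.U i) (D.y i) * rO inf_le_right (D.y j) = 1)

/-- the coordinate `y` as a unit -/
noncomputable def yu : (Γ(X, D.U i ⊓ D.U j))ˣ where
  val := rO inf_le_left (D.y i)
  inv := rO inf_le_right (D.y j)
  val_inv := hr
  inv_val := by rw [mul_comm, hr]

/-- Laurent polynomials in `y` over `A[x]` on the locus `y ≠ 0` in a chart -/
noncomputable def sY : (A : Type)[X][T;T⁻¹] →+* Γ(X, D.U i ⊓ D.U j) :=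
  LaurentPolynomial.eval₂ ((rO inf_le_left).comp (D.sx i)) (D.yu hr)

theorem sY_toLaurent (f : (A : Type)[X][X]) :
    D.sY hr (Polynomial.toLaurent f) = rO inf_le_left (f.eval₂ (D.sx i) (D.y i)) := by
  rw [sY, LaurentPolynomial.eval₂_toLaurent, Polynomial.hom_eval₂]
  rfl

@[simp] theorem sY_C (f : (A : Type)[X]) :
    D.sY hr (LaurentPolynomial.C f) = rO inf_le_left (D.sx i f) := by
  simp [sY]

@[simp] theorem sY_T_one : D.sY hr (LaurentPolynomial.T 1) = rO inf_le_left (D.y i) := by
  simp [sY, yu]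

@[simp] theorem sY_T_neg_one : D.sY hr (LaurentPolynomial.T (-1)) = rO inf_le_right (D.y j) := by
  simp [sY, yu]

include hb in
/-- the ring of the locus `y ≠ 0` in a chart, over `A[x]` -/
theorem freeY :
    Function.Bijective fun P : (A : Type)[X][T;T⁻¹] × (A : Type)[X][T;T⁻¹] =>
      D.sY hr P.1 + D.sY hr P.2 * rO inf_le_left (D.e i) := by
  refine Loc1.bijective (i := Polynomial.toLaurent)
    (j := rO (inf_le_left : D.U i ⊓ D.U j ≤ D.U i))
    (f := Polynomial.eval₂RingHom (D.sx i) (D.y i)) (f' := D.sY hr)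
    (p := Polynomial.X) Loc1.toLaurent ?_ ?_ (D.free2 i)
  · rw [Polynomial.coe_eval₂RingHom, Polynomial.eval₂_X]
    exact loc1_rO (D.aff i) _ _ hb
  · intro P
    exact D.sY_toLaurent hr P

end Y

end XCharts

end Orl
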