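import Pool.Agent.Work.MP_a6e60d_ag.Sch.XSmooth

/-!
# The quartic form `t (x ^ 3 - c t ^ 3)`
-/

open CategoryTheory Limits TopologicalSpace AlgebraicGeometry Opposite

attribute [-instance] CategoryTheory.catToReflQuiver

namespace Orl

section

variable {A : Type} [CommRing A] (b : A)

/-- the coefficients of `t (x ^ 3 - b t ^ 3)` -/
def cub : Fin 5 → A := ![-b, 0, 0, 1, 0]

theorem qx_cub : qx (cub b) = Polynomial.X ^ 3 - Polynomial.C b := by
  simp [qx, cub, Fin.sum_univ_five]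
  ring

theorem qx'_cub : qx' (cub b) = Polynomial.X - Polynomial.C b * Polynomial.X ^ 4 := by
  simp [qx', cub, Fin.sum_univ_five]
  ring

theorem coprime_qx_cub (hb : IsUnit b) (h3 : IsUnit (3 : A)) :
    IsCoprime (qx (cub b)) (Polynomial.derivative (qx (cub b))) := by
  obtain ⟨u, hu⟩ := hb
  obtain ⟨v, hv⟩ := h3
  have h1 : (Polynomial.C ((u⁻¹ : Aˣ) : A)) * Polynomial.C b = 1 := by
    rw [← Polynomial.C_mul, ← hu, Units.inv_mul, Polynomial.C_1]
  have h2 : (Polynomial.C ((v⁻¹ : Aˣ) : A)) * 3 = 1 := by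
    have h3 : (3 : Polynomial A) = Polynomial.C 3 := (map_ofNat Polynomial.C 3).symm
    rw [h3, ← Polynomial.C_mul, ← hv, Units.inv_mul, Polynomial.C_1]
  rw [qx_cub]
  refine ⟨-Polynomial.C ((u⁻¹ : Aˣ) : A), Polynomial.C ((u⁻¹ : Aˣ) : A) *
    Polynomial.C ((v⁻¹ : Aˣ) : A) * Polynomial.X, ?_⟩
  have h4 : Polynomial.derivative (Polynomial.X ^ 3 - Polynomial.C b) =
      3 * Polynomial.X ^ 2 := by
    have h5 : (Polynomial.C 3 : Polynomial A) = 3 := map_ofNat Polynomial.C 3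
    rw [Polynomial.derivative_sub, Polynomial.derivative_C, Polynomial.derivative_X_pow]
    simp [h5]
  rw [h4]
  linear_combination h1 + Polynomial.C ((u⁻¹ : Aˣ) : A) * Polynomial.X ^ 3 * h2

theorem coprime_qx'_cub (h3 : IsUnit (3 : A)) :
    IsCoprime (qx' (cub b)) (Polynomial.derivative (qx' (cub b))) := by
  obtain ⟨v, hv⟩ := h3
  have h2 : (Polynomial.C ((v⁻¹ : Aˣ) : A)) * 3 = 1 := by
    have h3 : (3 : Polynomial A) = Polynomial.C 3 := (map_ofNat Polynomial.C 3).symm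
    rw [h3, ← Polynomial.C_mul, ← hv, Units.inv_mul, Polynomial.C_1]
  rw [qx'_cub]
  have h4 : Polynomial.derivative (Polynomial.X - Polynomial.C b * Polynomial.X ^ 4) =
      1 - 4 * (Polynomial.C b * Polynomial.X ^ 3) := by
    rw [Polynomial.derivative_sub, Polynomial.derivative_X, Polynomial.derivative_C_mul,
      Polynomial.derivative_X_pow]
    have h5 : (Polynomial.C 4 : Polynomial A) = 4 := map_ofNat Polynomial.C 4
    simp [h5]
    ring
  rw [h4]
  refine ⟨16 * Polynomial.C ((v⁻¹ : Aˣ) : A) * (Polynomial.C b * Polynomial.X ^ 2),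
    1 - 4 * Polynomial.C ((v⁻¹ : Aˣ) : A) * (Polynomial.C b * Polynomial.X ^ 3), ?_⟩
  linear_combination (4 * (Polynomial.C b * Polynomial.X ^ 3)) * h2

end

/-- smoothness of the surface `y ^ 2 = a z ^ 2 + t (x ^ 3 - b t ^ 3) w ^ 2` -/
theorem XCharts.smooth_cub {A : CommRingCat.{0}} {a b : A} {X : Scheme.{0}} {π : X ⟶ Spec A}
    (D : XCharts A a (cub (A := A) b) π) (h2 : IsUnit (2 : A)) (h3 : IsUnit (3 : A))
    (ha : IsUnit a) (hb : IsUnit b) : Smooth π :=
  D.smooth h2 ha (coprime_qx_cub b hb h3) (coprime_qx'_cub b h3)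

end Orl
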