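import Pool.Agent.Work.MP_a6e60d_ag.Sch.XCharts
import Pool.Agent.Work.MP_a6e60d_ag.Geo.Free2

/-!
# The Châtelet surface is smooth over the base

`2` and `a` are units, `q(x, 1)` and `q(1, x)` are prime to their derivatives.
-/

open CategoryTheory Limits TopologicalSpace AlgebraicGeometry Opposite MvPolynomial

attribute [-instance] CategoryTheory.catToReflQuiver

namespace Orl

open Fdim

theorem eval₂Hom_pX {R S : Type*} [CommRing R] [CommRing S] (f : R →+* S) (x y : S)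
    (p : Polynomial R) : eval₂Hom f ![x, y] (pX 0 p) = p.eval₂ f x := by
  rw [pX, Polynomial.aeval_def, Polynomial.hom_eval₂]
  congr 1
  · ext r
    simp
  · simp

/-- a scheme over an affine base is smooth if the coordinate rings of a cover are smooth -/
theorem smooth_of_str {A : CommRingCat.{0}} {X : Scheme.{0}} {π : X ⟶ Spec A} {ι : Type*}
    (U : ι → X.Opens) (hU : ∀ i, IsAffineOpen (U i)) (hc : ⨆ i, U i = ⊤)
    (h : ∀ i, (str π (U i)).Smooth) : Smooth π := by
  rw [HasRingHomProperty.iff_exists_appLE (P := @Smooth) (Q := RingHom.Smooth)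
    (RingHom.Smooth.stableUnderComposition.stableUnderCompositionWithLocalizationAway
      RingHom.Smooth.holdsForLocalizationAway).1]
  intro x
  have hx : x ∈ (⨆ i, U i : X.Opens) := by rw [hc]; trivial
  obtain ⟨i, hi⟩ := Opens.mem_iSup.1 hx
  refine ⟨⟨⊤, isAffineOpen_top _⟩, ⟨U i, hU i⟩, hi, le_top, ?_⟩
  have h2 : (π.appLE ⊤ (U i) le_top).hom =
      (str π (U i)).comp (Scheme.ΓSpecIso A).hom.hom := by
    have h3 : π.appLE ⊤ (U i) le_top = (Scheme.ΓSpecIso A).hom ≫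
        (Scheme.ΓSpecIso A).inv ≫ π.appTop ≫ X.presheaf.map (homOfLE le_top).op := by
      rw [Iso.hom_inv_id_assoc]
      rfl
    rw [h3]
    rfl
  rw [h2]
  exact RingHom.Smooth.respectsIso.2 _ (Scheme.ΓSpecIso A).commRingCatIsoToRingEquiv (h i)

/-- the right hand sides of the equations of the charts -/
noncomputable def rhsX {A : Type} [CommRing A] (a : A) (c : Fin 5 → A) :
    Fin 4 → MvPolynomial (Fin 2) A :=
  ![C a + pX 0 (qx c) * MvPolynomial.X 1 ^ 2, C a * MvPolynomial.X 1 ^ 2 + pX 0 (qx c),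
    C a + pX 0 (qx' c) * MvPolynomial.X 1 ^ 2, C a * MvPolynomial.X 1 ^ 2 + pX 0 (qx' c)]

namespace XCharts

variable {A : CommRingCat.{0}} {a : A} {c : Fin 5 → A} {X : Scheme.{0}} {π : X ⟶ Spec A}
  (D : XCharts A a c π)

include D

/-- the equations of the charts -/
theorem sq (i : Fin 4) : D.e i ^ 2 =
    eval₂Hom (str π (D.U i)) ![D.x i, D.y i] (rhsX (A := A) a c i) := by
  have hC : ∀ i, eval₂Hom (str π (D.U i)) ![D.x i, D.y i] (C a) = str π (D.U i) a := fun i =>
    eval₂Hom_C _ _ _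
  have h1 : ∀ i, eval₂Hom (str π (D.U i)) ![D.x i, D.y i] (MvPolynomial.X 1) = D.y i :=
    fun i => eval₂Hom_X' _ _ _
  fin_cases i
  · change D.e 0 ^ 2 = eval₂Hom (str π (D.U 0)) ![D.x 0, D.y 0]
      (C a + pX 0 (qx c) * MvPolynomial.X 1 ^ 2)
    rw [map_add, map_mul, map_pow, eval₂Hom_pX, hC, h1, D.sq0]
  · change D.e 1 ^ 2 = eval₂Hom (str π (D.U 1)) ![D.x 1, D.y 1]
      (C a * MvPolynomial.X 1 ^ 2 + pX 0 (qx c))
    rw [map_add, map_mul, map_pow, eval₂Hom_pX, hC, h1, D.sq1]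
  · change D.e 2 ^ 2 = eval₂Hom (str π (D.U 2)) ![D.x 2, D.y 2]
      (C a + pX 0 (qx' c) * MvPolynomial.X 1 ^ 2)
    rw [map_add, map_mul, map_pow, eval₂Hom_pX, hC, h1, D.sq2]
  · change D.e 3 ^ 2 = eval₂Hom (str π (D.U 3)) ![D.x 3, D.y 3]
      (C a * MvPolynomial.X 1 ^ 2 + pX 0 (qx' c))
    rw [map_add, map_mul, map_pow, eval₂Hom_pX, hC, h1, D.sq3]

/-- **smoothness** -/
theorem smooth (h2 : IsUnit (2 : A)) (ha : IsUnit a)
    (hq : IsCoprime (qx c) (Polynomial.derivative (qx c)))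
    (hq' : IsCoprime (qx' c) (Polynomial.derivative (qx' c))) : Smooth π := by
  refine smooth_of_str D.U D.aff D.cover fun i => ?_
  have H : ∃ (b : Fin 3 → MvPolynomial (Fin 3) A) (g : MvPolynomial (Fin 3) A),
      ∑ j, b j * pderiv j (eqn3 (rhsX (A := A) a c i)) =
        1 + g * eqn3 (rhsX (A := A) a c i) := by
    fin_cases i
    · exact jac_z (R := A) a (qx c) h2 ha
    · exact jac_w (R := A) a (qx c) h2 hq
    · exact jac_z (R := A) a (qx' c) h2 ha
    · exact jac_w (R := A) a (qx' c) h2 hq'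
  obtain ⟨b, g, h⟩ := H
  exact smooth_of_free (D.sq i) (D.free i) b g h

end XCharts

end Orl
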