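import Pool.Agent.Work.MP_a6e60d_ag.Sch.XAway
import Pool.Agent.Work.MP_a6e60d_ag.Sch.XChartsOf

/-!
# The charts of the Châtelet surface `y ^ 2 = a z ^ 2 + q(x, t) w ^ 2`
-/

open CategoryTheory Limits TopologicalSpace AlgebraicGeometry Opposite MvPolynomial
open HomogeneousLocalization

attribute [-instance] CategoryTheory.catToReflQuiver

namespace Orl

open Fdim

set_option linter.unusedSectionVars false

variable {A : Type} [CommRing A] (a : A) (c : Fin 5 → A)

theorem jX_algebraMap (r : A) : jX a c (algebraMap A (RX a c) r) =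
    algebraMap (KK A) (LQ a c) (algebraMap (MvPolynomial (Fin 3) A) (KK A) (C r)) := by
  apply QuadraticAlgebra.ext
  · rfl
  · exact map_zero _

/-- the right hand side of the equation is not a square -/
def NonSquare : Prop := ∀ r : KK A, r ^ 2 ≠ algebraMap _ (KK A) (QM a c)

section

variable [IsDomain A]

theorem toLL_ne (f : MvPolynomial (Fin 3) A) (hf : f ≠ 0) :
    algebraMap (KK A) (LQ a c) (algebraMap _ (KK A) f) ≠ 0 := by
  intro h
  have h1 : algebraMap _ (KK A) f = 0 := congrArg QuadraticAlgebra.re h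
  exact hf ((map_eq_zero_iff _ (IsFractionRing.injective _ _)).1 h1)

/-- the generators of the graded ring of the surface -/
noncomputable def xRing (hns : NonSquare a c) : XRing A (grX a c) a c :=
  haveI : Fact (∀ r : KK A, r ^ 2 ≠ algebraMap _ (KK A) (QM a c) + 0 * r) :=
    ⟨fun r => by rw [zero_mul, add_zero]; exact hns r⟩
  { K := LQ a c
    j := jX a c
    hj := jX_injective a c
    g := geX a c
    hg := geX_mem a c
    z := algebraMap (KK A) (LQ a c) (algebraMap _ (KK A) (X 0))
    p := algebraMap (KK A) (LQ a c) (algebraMap _ (KK A) (X 1))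
    e := ⟨0, 1⟩
    T := algebraMap (KK A) (LQ a c) (algebraMap _ (KK A) (X 2))
    hz := toLL_ne a c _ (X_ne_zero _)
    hp := toLL_ne a c _ (X_ne_zero _)
    he := fun h => one_ne_zero (congrArg QuadraticAlgebra.im h : (1 : KK A) = 0)
    hT := toLL_ne a c _ (X_ne_zero _)
    eq := by
      have h1 : (⟨0, 1⟩ : LQ a c) ^ 2 =
          algebraMap (KK A) (LQ a c) (algebraMap _ (KK A) (QM a c)) := by
        rw [pow_two]
        apply QuadraticAlgebra.ext
        · show (0 : KK A) * 0 + algebraMap _ (KK A) (QM a c) * 1 * 1 = algebraMap _ (KK A) (QM a c)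
          ring
        · show (0 : KK A) * 1 + 1 * 0 + 0 * 1 * 1 = 0
          ring
      have h2 : (qx c).eval₂ ((jX a c).comp (algebraMap A (RX a c)))
          (algebraMap (KK A) (LQ a c) (algebraMap (MvPolynomial (Fin 3) A) (KK A) (X 0))) =
          algebraMap (KK A) (LQ a c) (algebraMap (MvPolynomial (Fin 3) A) (KK A)
            (∑ j : Fin 5, C (c j) * X 0 ^ (j : ℕ) : MvPolynomial (Fin 3) A)) := by
        rw [qx, Polynomial.eval₂_finsetSum, map_sum, map_sum]
        refine Finset.sum_congr rfl fun j _ => ?_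
        rw [Polynomial.eval₂_mul, Polynomial.eval₂_C, Polynomial.eval₂_pow, Polynomial.eval₂_X,
          RingHom.comp_apply, jX_algebraMap, ← map_pow, ← map_pow, ← map_mul, ← map_mul]
      rw [h1, h2, jX_algebraMap, ← map_pow, ← map_pow, ← map_mul, ← map_mul, ← map_add, ← map_add]
      rfl
    j0 := jX_geX a c 0
    j1 := (jX_geX a c 1).trans (by rw [← map_mul, ← map_mul]; rfl)
    j2 := (jX_geX a c 2).trans (by rw [← map_mul, ← map_mul]; rfl)
    j3 := (jX_geX a c 3).trans (by rw [← map_mul, ← map_mul, ← map_mul, ← map_mul]; rfl)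
    j4 := (jX_geX a c 4).trans (by
      rw [← map_pow, ← map_pow, ← map_mul, ← map_mul, ← map_mul, ← map_mul]
      congr 2
      simp [gen])
    j5 := (jX_geX a c 5).trans (by
      rw [← map_pow, ← map_pow, ← map_mul, ← map_mul, ← map_mul, ← map_mul]
      congr 2
      simp [gen]
      ring)
    j6 := (jX_geX6 a c).trans (by
      rw [mul_comm, mul_mk0, mul_one]
      rfl)
    j7 := (jX_geX7 a c).trans (by
      rw [mul_mk0, mul_comm, mul_mk0]
      apply QuadraticAlgebra.ext
      · rfl
      · simp [gen]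
        ring) }

/-- **the four affine charts of the Châtelet surface** -/
noncomputable def Xq.charts (hns : NonSquare a c) : XCharts (.of A) a c (Xq.π a c) :=
  haveI : Fact (∀ r : KK A, r ^ 2 ≠ algebraMap _ (KK A) (QM a c) + 0 * r) :=
    ⟨fun r => by rw [zero_mul, add_zero]; exact hns r⟩
  (xRing a c hns).charts (sup_basicOpen_geX a c) (bijX0 a c) (bijX1 a c) (bijX2 a c) (bijX3 a c)

/-- if `q(x, 1)` has degree three, then `a + q(z, 1) p ^ 2` is not a square -/
theorem nonSquare_of_degree_three [UniqueFactorizationMonoid A] (h4 : c 4 = 0) (h3 : c 3 ≠ 0) :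
    NonSquare a c := by
  intro r hr
  have hint : IsIntegral (MvPolynomial (Fin 3) A) r := by
    refine IsIntegral.of_pow (n := 2) (by norm_num) ?_
    rw [hr]
    exact isIntegral_algebraMap
  obtain ⟨s, rfl⟩ := IsIntegrallyClosed.isIntegral_iff.1 hint
  rw [← map_pow] at hr
  have h1 : s ^ 2 = QM a c := IsFractionRing.injective _ _ hr
  have h2 := congrArg (aeval ![Polynomial.X, Polynomial.X, (0 : Polynomial A)]) h1
  have h5 : aeval ![Polynomial.X, Polynomial.X, (0 : Polynomial A)] (QM a c) =
      Polynomial.C a + (∑ j : Fin 5, Polynomial.C (c j) * Polynomial.X ^ (j : ℕ)) *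
        Polynomial.X ^ 2 := by
    simp [QM]
  rw [map_pow, h5, Fin.sum_univ_five, h4] at h2
  set P : Polynomial A := aeval ![Polynomial.X, Polynomial.X, (0 : Polynomial A)] s with hP
  have h6 : (P ^ 2).natDegree = 5 := by
    rw [h2]
    simp only [Fin.val_zero, Fin.val_one, Fin.val_two, map_zero, zero_mul, add_zero]
    have h7 : Polynomial.C a + (Polynomial.C (c 0) * Polynomial.X ^ 0 +
        Polynomial.C (c 1) * Polynomial.X ^ 1 + Polynomial.C (c 2) * Polynomial.X ^ 2 +
        Polynomial.C (c 3) * Polynomial.X ^ ((3 : Fin 5) : ℕ)) * Polynomial.X ^ 2 =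
        Polynomial.C (c 3) * Polynomial.X ^ 5 + Polynomial.C (c 2) * Polynomial.X ^ 4 +
        Polynomial.C (c 1) * Polynomial.X ^ 3 + Polynomial.C (c 0) * Polynomial.X ^ 2 +
        Polynomial.C a := by
      change Polynomial.C a + (Polynomial.C (c 0) * Polynomial.X ^ 0 +
        Polynomial.C (c 1) * Polynomial.X ^ 1 + Polynomial.C (c 2) * Polynomial.X ^ 2 +
        Polynomial.C (c 3) * Polynomial.X ^ 3) * Polynomial.X ^ 2 = _
      ring
    rw [h7]
    compute_degree!
  rw [Polynomial.natDegree_pow] at h6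
  omega

end

end Orl
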